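import Pool.Agent.Lib.MP_2d96d7_co.Greedy

/-!
Absorbing cliques into evenly splittable sets.
-/

namespace Pool.Agent.Lib.MP_2d96d7_co

open Finset

variable {V : Type} [DecidableEq V]

/-- Being evenly splittable depends only on the inner edges. -/
lemma EvenlySplittable.congr {V : Type} {H H' : SimpleGraph V} {X : Set V}
    (h : EvenlySplittable H X) (hHH : ∀ u ∈ X, ∀ v ∈ X, H.Adj u v ↔ H'.Adj u v) :
    EvenlySplittable H' X := by
  induction h with
  | single v => exact EvenlySplittable.single v
  | @union X Y hX hY hXY he ihX ihY =>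
    refine EvenlySplittable.union
      (ihX fun u hu v hv => hHH u (Or.inl hu) v (Or.inl hv))
      (ihY fun u hu v hv => hHH u (Or.inr hu) v (Or.inr hv)) hXY ?_
    have : {p : V × V | p.1 ∈ X ∧ p.2 ∈ Y ∧ H'.Adj p.1 p.2} =
        {p : V × V | p.1 ∈ X ∧ p.2 ∈ Y ∧ H.Adj p.1 p.2} := by
      ext ⟨u, v⟩
      simp only [Set.mem_ofPred_eq]
      constructor
      · rintro ⟨h1, h2, h3⟩
        exact ⟨h1, h2, (hHH u (Or.inl h1) v (Or.inr h2)).2 h3⟩
      · rintro ⟨h1, h2, h3⟩
        exact ⟨h1, h2, (hHH u (Or.inl h1) v (Or.inr h2)).1 h3⟩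
    rw [this]
    exact he

variable (H : SimpleGraph V)

lemma deg_insert' {v u : V} {X : Finset V} (hu : u ∉ X) [Decidable (H.Adj v u)] :
    deg H v (insert u X) = deg H v X + if H.Adj v u then 1 else 0 := by
  classical
  rw [deg_insert H hu]
  simp only [H.adj_comm]

open Classical in
/-- Absorption of a clique `L` into an evenly splittable set `S`. -/
theorem absorb : ∀ (n : ℕ) (S L : Finset V), L.card = n → EvenlySplittable H (S : Set V) →
    Disjoint S L → (∀ u ∈ L, ∀ v ∈ L, u ≠ v → H.Adj u v) →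
    ∃ S' : Finset V, S ⊆ S' ∧ S' ⊆ S ∪ L ∧ EvenlySplittable H (S' : Set V) ∧
      (L \ S').card ≤ max (#{v ∈ L | ¬ Even (deg H v S)} - #{v ∈ L | Even (deg H v S)})
        (#{v ∈ L | Even (deg H v S)} - #{v ∈ L | ¬ Even (deg H v S)} - 1) := by
  intro n
  induction n with
  | zero =>
    intro S L hL hS hd _
    refine ⟨S, subset_rfl, subset_union_left, hS, ?_⟩
    rw [Finset.card_eq_zero] at hL
    subst hL
    simp
  | succ n ih =>
    intro S L hL hS hd hcl
    by_cases hZ : ∃ v ∈ L, Even (deg H v S)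
    · obtain ⟨v, hv, hev⟩ := hZ
      have hvS : v ∉ S := fun h => Finset.disjoint_left.1 hd h hv
      have hS1 := es_add_vertex hS hvS hev
      have hd1 : Disjoint (insert v S) (L.erase v) := by
        rw [Finset.disjoint_left]
        intro w hw hw'
        rw [Finset.mem_insert] at hw
        rw [Finset.mem_erase] at hw'
        rcases hw with rfl | hw
        · exact hw'.1 rfl
        · exact Finset.disjoint_left.1 hd hw hw'.2
      have hcl1 : ∀ u ∈ L.erase v, ∀ w ∈ L.erase v, u ≠ w → H.Adj u w := by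
        intro u hu w hw
        exact hcl u (Finset.mem_of_mem_erase hu) w (Finset.mem_of_mem_erase hw)
      obtain ⟨S', h1, h2, h3, h4⟩ := ih (insert v S) (L.erase v)
        (by rw [Finset.card_erase_of_mem hv, hL]; rfl) hS1 hd1 hcl1
      refine ⟨S', (Finset.subset_insert v S).trans h1, ?_, h3, ?_⟩
      · refine h2.trans ?_
        intro w hw
        simp only [Finset.mem_union, Finset.mem_insert, Finset.mem_erase] at hw ⊢
        rcases hw with (rfl | hw) | hw
        · exact Or.inr hv
        · exact Or.inl hw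
        · exact Or.inr hw.2
      · have hlab : ∀ w ∈ L.erase v, (Even (deg H w (insert v S)) ↔ ¬ Even (deg H w S)) := by
          intro w hw
          have hwv : H.Adj w v := hcl w (Finset.mem_of_mem_erase hw) v hv (Finset.ne_of_mem_erase hw)
          rw [deg_insert' H hvS, if_pos hwv, Nat.even_add_one]
        have e1 : {w ∈ L.erase v | Even (deg H w (insert v S))} = {w ∈ L | ¬ Even (deg H w S)} := by
          ext w
          simp only [Finset.mem_filter]
          constructor
          · rintro ⟨hw, hw2⟩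
            exact ⟨Finset.mem_of_mem_erase hw, (hlab w hw).1 hw2⟩
          · rintro ⟨hw, hw2⟩
            have hwv : w ≠ v := fun h => hw2 (h ▸ hev)
            have hw' := Finset.mem_erase.2 ⟨hwv, hw⟩
            exact ⟨hw', (hlab w hw').2 hw2⟩
        have e2 : {w ∈ L.erase v | ¬ Even (deg H w (insert v S))} =
            {w ∈ L | Even (deg H w S)}.erase v := by
          ext w
          simp only [Finset.mem_filter, Finset.mem_erase]
          constructor
          · rintro ⟨⟨hwv, hw⟩, hw2⟩
            refine ⟨hwv, hw, ?_⟩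
            rw [hlab w (Finset.mem_erase.2 ⟨hwv, hw⟩), not_not] at hw2
            exact hw2
          · rintro ⟨hwv, hw, hw2⟩
            refine ⟨⟨hwv, hw⟩, ?_⟩
            rw [hlab w (Finset.mem_erase.2 ⟨hwv, hw⟩), not_not]
            exact hw2
        have e3 : ({w ∈ L | Even (deg H w S)}.erase v).card =
            #{w ∈ L | Even (deg H w S)} - 1 :=
          Finset.card_erase_of_mem (Finset.mem_filter.2 ⟨hv, hev⟩)
        have hpos : 0 < #{w ∈ L | Even (deg H w S)} :=
          Finset.card_pos.2 ⟨v, Finset.mem_filter.2 ⟨hv, hev⟩⟩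
        have e4 : L \ S' = L.erase v \ S' := by
          ext w
          simp only [Finset.mem_sdiff, Finset.mem_erase]
          constructor
          · rintro ⟨hw, hw2⟩
            exact ⟨⟨fun h => hw2 (h ▸ h1 (Finset.mem_insert_self v S)), hw⟩, hw2⟩
          · rintro ⟨⟨_, hw⟩, hw2⟩
            exact ⟨hw, hw2⟩
        rw [e1, e2, e3] at h4
        rw [e4]
        refine h4.trans ?_
        omega
    · refine ⟨S, subset_rfl, subset_union_left, hS, ?_⟩
      have h1 : {v ∈ L | ¬ Even (deg H v S)} = L := by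
        rw [Finset.filter_true_of_mem]
        intro v hv h
        exact hZ ⟨v, hv, h⟩
      have h2 : {v ∈ L | Even (deg H v S)} = ∅ := by
        rw [Finset.filter_false_of_mem]
        intro v hv h
        exact hZ ⟨v, hv, h⟩
      rw [h1, h2]
      simp only [Finset.card_empty, Nat.sub_zero]
      exact (Finset.card_le_card Finset.sdiff_subset).trans (le_max_left _ _)

/-- The smallest number of vertices of `T` missed by an evenly splittable (or empty) subset
of `U`. -/
noncomputable def mu (U T : Finset V) : ℕ :=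
  sInf {k | ∃ S : Finset V, S ⊆ U ∧ (S = ∅ ∨ EvenlySplittable H (S : Set V)) ∧ (T \ S).card = k}

lemma mu_le {U T S : Finset V} (hS : S ⊆ U) (h : S = ∅ ∨ EvenlySplittable H (S : Set V)) :
    mu H U T ≤ (T \ S).card := Nat.sInf_le ⟨S, hS, h, rfl⟩

lemma mu_spec (U T : Finset V) : ∃ S : Finset V, S ⊆ U ∧
    (S = ∅ ∨ EvenlySplittable H (S : Set V)) ∧ (T \ S).card = mu H U T :=
  Nat.sInf_mem (s := {k | ∃ S : Finset V, S ⊆ U ∧ (S = ∅ ∨ EvenlySplittable H (S : Set V)) ∧
    (T \ S).card = k}) ⟨_, ∅, Finset.empty_subset _, Or.inl rfl, rfl⟩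

lemma mu_congr {H' : SimpleGraph V} {U : Finset V} (T : Finset V)
    (h : ∀ u ∈ U, ∀ v ∈ U, H.Adj u v ↔ H'.Adj u v) : mu H U T = mu H' U T := by
  unfold mu
  congr 1
  ext k
  constructor
  · rintro ⟨S, h1, h2, h3⟩
    refine ⟨S, h1, h2.imp id fun h2 => h2.congr fun u hu v hv => h u (h1 hu) v (h1 hv), h3⟩
  · rintro ⟨S, h1, h2, h3⟩
    refine ⟨S, h1, h2.imp id fun h2 => h2.congr fun u hu v hv => (h u (h1 hu) v (h1 hv)).symm, h3⟩

/-- Structure of an optimal set. -/
lemma mu_structure {U T : Finset V} (hTU : T ⊆ U) {S : Finset V} (hSU : S ⊆ U)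
    (hS : S = ∅ ∨ EvenlySplittable H (S : Set V)) (hcard : (T \ S).card = mu H U T)
    (hpos : 0 < mu H U T) :
    EvenlySplittable H (S : Set V) ∧ (T ∩ S).Nonempty ∧ (∀ v ∈ T \ S, ¬ Even (deg H v S)) ∧
      (∀ u ∈ T \ S, ∀ v ∈ T \ S, u ≠ v → H.Adj u v) := by
  have hstep : ∀ S' : Finset V, S' ⊆ U → EvenlySplittable H (S' : Set V) →
      (T \ S').card < (T \ S).card → False := by
    intro S' h1 h2 h3
    have := mu_le H (T := T) h1 (Or.inr h2)
    omega
  have hlt : ∀ S' : Finset V, S ⊆ S' → ∀ v ∈ T \ S, v ∈ S' → (T \ S').card < (T \ S).card := by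
    intro S' h1 v hv hvS'
    refine Finset.card_lt_card ⟨Finset.sdiff_subset_sdiff subset_rfl h1, fun h => ?_⟩
    exact (Finset.mem_sdiff.1 (h hv)).2 hvS'
  have hne : EvenlySplittable H (S : Set V) := by
    rcases hS with rfl | hS
    · exfalso
      rw [← hcard] at hpos
      obtain ⟨v, hv⟩ := Finset.card_pos.1 hpos
      refine hstep {v} (by simpa using hTU (Finset.mem_sdiff.1 hv).1)
        (by simpa using EvenlySplittable.single (H := H) v)
        (hlt {v} (Finset.empty_subset _) v hv (by simp))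
    · exact hS
  have hodd : ∀ v ∈ T \ S, ¬ Even (deg H v S) := by
    intro v hv he
    have hvS := (Finset.mem_sdiff.1 hv).2
    refine hstep (insert v S) (Finset.insert_subset (hTU (Finset.mem_sdiff.1 hv).1) hSU)
      (es_add_vertex hne hvS he) (hlt _ (Finset.subset_insert _ _) v hv (by simp))
  refine ⟨hne, ?_, hodd, ?_⟩
  · by_contra hem
    rw [Finset.not_nonempty_iff_eq_empty] at hem
    rw [← hcard] at hpos
    obtain ⟨v, hv⟩ := Finset.card_pos.1 hpos
    have hvT := (Finset.mem_sdiff.1 hv).1
    refine hstep {v} (by simpa using hTU hvT) (by simpa using EvenlySplittable.single (H := H) v) ?_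
    have h1 : T \ S = T := by
      rw [Finset.sdiff_eq_self_iff_disjoint, Finset.disjoint_iff_inter_eq_empty]; exact hem
    rw [h1]
    refine Finset.card_lt_card ⟨Finset.sdiff_subset, fun h => ?_⟩
    exact (Finset.mem_sdiff.1 (h hvT)).2 (by simp)
  · intro u hu v hv huv
    by_contra hadj
    have huS := (Finset.mem_sdiff.1 hu).2
    have hvS := (Finset.mem_sdiff.1 hv).2
    refine hstep (insert u (insert v S))
      (Finset.insert_subset (hTU (Finset.mem_sdiff.1 hu).1)
        (Finset.insert_subset (hTU (Finset.mem_sdiff.1 hv).1) hSU))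
      (es_add_pair hne huS hvS huv hadj ?_) (hlt _ ?_ u hu (by simp))
    · exact (Nat.not_even_iff_odd.1 (hodd u hu)).add_odd (Nat.not_even_iff_odd.1 (hodd v hv))
    · exact (Finset.subset_insert _ _).trans (Finset.subset_insert _ _)

open Classical in
/-- Adding a vertex `x` outside `U`, general bound on the number of missed vertices of `T`. -/
lemma step_core {U T S : Finset V} {x : V} (hx : x ∉ U) (hTU : T ⊆ U) (hSU : S ⊆ U)
    (hS : EvenlySplittable H (S : Set V)) (hodd : ∀ v ∈ T \ S, ¬ Even (deg H v S))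
    (hcl : ∀ u ∈ T \ S, ∀ v ∈ T \ S, u ≠ v → H.Adj u v) {l a : ℕ} (hl : (T \ S).card = l)
    (ha : #{v ∈ T \ S | H.Adj v x} = a) :
    (Even (deg H x S) → ∃ S' : Finset V, S' ⊆ insert x U ∧ x ∈ S' ∧
      EvenlySplittable H (S' : Set V) ∧ (T \ S').card ≤ max (l - a - a) (a - (l - a) - 1)) ∧
    (¬ Even (deg H x S) → a < l → ∃ S' : Finset V, S' ⊆ insert x U ∧ x ∈ S' ∧
      EvenlySplittable H (S' : Set V) ∧
        (T \ S').card ≤ max (a - (l - 1 - a)) (l - 1 - a - a - 1)) := by
  have hxS : x ∉ S := fun h => hx (hSU h)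
  have hxT : x ∉ T := fun h => hx (hTU h)
  have hsplit : #{v ∈ T \ S | ¬ H.Adj v x} = l - a := by
    have := Finset.card_filter_add_card_filter_not (s := T \ S) (fun v => H.Adj v x)
    omega
  have hal : a ≤ l := by
    rw [← ha, ← hl]; exact Finset.card_filter_le _ _
  constructor
  · intro hev
    have hS1 := es_add_vertex hS hxS hev
    have hd : Disjoint (insert x S) (T \ S) := by
      rw [Finset.disjoint_left]
      intro w hw hw'
      rw [Finset.mem_insert] at hw
      rw [Finset.mem_sdiff] at hw'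
      rcases hw with rfl | hw
      · exact hxT hw'.1
      · exact hw'.2 hw
    obtain ⟨S', h1, h2, h3, h4⟩ := absorb H _ (insert x S) (T \ S) rfl hS1 hd hcl
    have hlab : ∀ w ∈ T \ S, (Even (deg H w (insert x S)) ↔ H.Adj w x) := by
      intro w hw
      have h5 := hodd w hw
      rw [deg_insert' H hxS]
      by_cases hwx : H.Adj w x
      · simp only [hwx, if_true, iff_true]
        rw [Nat.even_add_one]; exact h5
      · simp only [hwx, if_false, add_zero, iff_false]
        exact h5
    have e1 : {v ∈ T \ S | Even (deg H v (insert x S))} = {v ∈ T \ S | H.Adj v x} :=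
      Finset.filter_congr fun w hw => hlab w hw
    have e2 : {v ∈ T \ S | ¬ Even (deg H v (insert x S))} = {v ∈ T \ S | ¬ H.Adj v x} :=
      Finset.filter_congr fun w hw => not_congr (hlab w hw)
    rw [e1, e2, ha, hsplit] at h4
    refine ⟨S', ?_, h1 (by simp), h3, ?_⟩
    · refine h2.trans ?_
      intro w hw
      simp only [Finset.mem_union, Finset.mem_insert, Finset.mem_sdiff] at hw ⊢
      rcases hw with (hw | hw) | hw
      · exact Or.inl hw
      · exact Or.inr (hSU hw)
      · exact Or.inr (hTU hw.1)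
    · have e3 : T \ S' ⊆ (T \ S) \ S' := by
        intro w hw
        rw [Finset.mem_sdiff] at hw
        rw [Finset.mem_sdiff, Finset.mem_sdiff]
        exact ⟨⟨hw.1, fun h => hw.2 (h1 (Finset.mem_insert_of_mem h))⟩, hw.2⟩
      exact (Finset.card_le_card e3).trans h4
  · intro hodx hlt
    -- a vertex of `T \ S` not adjacent to `x`
    have hex : ({v ∈ T \ S | ¬ H.Adj v x}).Nonempty := by
      rw [← Finset.card_pos, hsplit]; omega
    obtain ⟨v, hv⟩ := hex
    obtain ⟨hvL, hvx⟩ := Finset.mem_filter.1 hv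
    have hvT := (Finset.mem_sdiff.1 hvL).1
    have hvS := (Finset.mem_sdiff.1 hvL).2
    have hxv : x ≠ v := fun h => hxT (h ▸ hvT)
    have hxadj : ¬ H.Adj x v := fun h => hvx h.symm
    have hS1 := es_add_pair hS hxS hvS hxv hxadj
      ((Nat.not_even_iff_odd.1 hodx).add_odd (Nat.not_even_iff_odd.1 (hodd v hvL)))
    set L := (T \ S).erase v with hL
    have hxS1 : x ∉ insert v S := by
      rw [Finset.mem_insert, not_or]; exact ⟨hxv, hxS⟩
    have hd : Disjoint (insert x (insert v S)) L := by
      rw [Finset.disjoint_left]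
      intro w hw hw'
      rw [Finset.mem_insert, Finset.mem_insert] at hw
      rw [hL, Finset.mem_erase, Finset.mem_sdiff] at hw'
      rcases hw with rfl | rfl | hw
      · exact hxT hw'.2.1
      · exact hw'.1 rfl
      · exact hw'.2.2 hw
    have hcl1 : ∀ u ∈ L, ∀ w ∈ L, u ≠ w → H.Adj u w := by
      intro u hu w hw
      exact hcl u (Finset.mem_of_mem_erase hu) w (Finset.mem_of_mem_erase hw)
    obtain ⟨S', h1, h2, h3, h4⟩ := absorb H _ (insert x (insert v S)) L rfl hS1 hd hcl1
    have hlab : ∀ w ∈ L, (Even (deg H w (insert x (insert v S))) ↔ ¬ H.Adj w x) := by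
      intro w hw
      have hwL := Finset.mem_of_mem_erase hw
      have h5 := hodd w hwL
      have h6 : H.Adj w v := hcl w hwL v hvL (Finset.ne_of_mem_erase hw)
      rw [deg_insert' H hxS1, deg_insert' H hvS, if_pos h6]
      have h7 : Even (deg H w S + 1) := Nat.even_add_one.2 h5
      by_cases hwx : H.Adj w x
      · simp only [hwx, if_true, not_true, iff_false]
        rw [Nat.even_add_one, not_not]; exact h7
      · simp only [hwx, if_false, add_zero, not_false_iff, iff_true]
        exact h7
    have e1 : {w ∈ L | Even (deg H w (insert x (insert v S)))} = {w ∈ L | ¬ H.Adj w x} :=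
      Finset.filter_congr fun w hw => hlab w hw
    have e2 : {w ∈ L | ¬ Even (deg H w (insert x (insert v S)))} = {w ∈ L | H.Adj w x} := by
      refine Finset.filter_congr fun w hw => ?_
      rw [hlab w hw, not_not]
    have e3 : #{w ∈ L | ¬ H.Adj w x} = l - a - 1 := by
      have : {w ∈ L | ¬ H.Adj w x} = ({w ∈ T \ S | ¬ H.Adj w x}).erase v := by
        ext w
        simp only [hL, Finset.mem_filter, Finset.mem_erase]
        tauto
      rw [this, Finset.card_erase_of_mem hv, hsplit]
    have e4 : #{w ∈ L | H.Adj w x} = a := by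
      have : {w ∈ L | H.Adj w x} = {w ∈ T \ S | H.Adj w x} := by
        ext w
        simp only [hL, Finset.mem_filter, Finset.mem_erase]
        constructor
        · rintro ⟨⟨_, h⟩, h'⟩; exact ⟨h, h'⟩
        · rintro ⟨h, h'⟩
          exact ⟨⟨fun h2 => hvx (h2 ▸ h'), h⟩, h'⟩
      rw [this, ha]
    rw [e1, e2, e3, e4] at h4
    refine ⟨S', ?_, h1 (by simp), h3, ?_⟩
    · refine h2.trans ?_
      intro w hw
      simp only [hL, Finset.mem_union, Finset.mem_insert, Finset.mem_sdiff, Finset.mem_erase] at hw ⊢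
      rcases hw with (rfl | rfl | hw) | hw
      · exact Or.inl rfl
      · exact Or.inr (hTU hvT)
      · exact Or.inr (hSU hw)
      · exact Or.inr (hTU hw.2.1)
    · have e5 : T \ S' ⊆ L \ S' := by
        intro w hw
        rw [Finset.mem_sdiff] at hw
        rw [Finset.mem_sdiff, hL, Finset.mem_erase, Finset.mem_sdiff]
        refine ⟨⟨fun h => hw.2 (h1 (by simp [h])), hw.1, fun h => hw.2 (h1 (by simp [h]))⟩, hw.2⟩
      refine (Finset.card_le_card e5).trans (h4.trans ?_)
      omega

end Pool.Agent.Lib.MP_2d96d7_co
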