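import Mathlib

/-!
Counting inequality behind the vertex doubling argument: a Cauchy-Schwarz inequality in a finite
abelian group of exponent two.
-/

namespace Pool.Agent.Lib.MP_2d96d7_co

open Finset

section CS

variable {M : Type*} [AddCommGroup M] [Fintype M] [DecidableEq M]
variable {Z I : Type*} [Fintype Z] [Fintype I]

/-- Number of `x` with `x ∈ F` and `x + k ∈ F`, as a real number. -/
noncomputable def pairs (F : Finset M) (k : M) : ℝ :=
  ∑ x : M, if x ∈ F ∧ x + k ∈ F then (1 : ℝ) else 0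

lemma pairs_nonneg (F : Finset M) (k : M) : 0 ≤ pairs F k :=
  Finset.sum_nonneg fun x _ => by split_ifs <;> norm_num

lemma pairs_le (F : Finset M) (k : M) : pairs F k ≤ Fintype.card M := by
  unfold pairs
  calc _ ≤ ∑ x : M, (1 : ℝ) := Finset.sum_le_sum fun x _ => by split_ifs <;> norm_num
    _ = _ := by simp

lemma pairs_zero (F : Finset M) : pairs F 0 = F.card := by
  unfold pairs
  simp

lemma pairs_add (hM : ∀ x : M, x + x = 0) (F : Finset M) (p q : M) :
    pairs F (p + q) = ∑ y : M, if y + p ∈ F ∧ y + q ∈ F then (1 : ℝ) else 0 := by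
  unfold pairs
  rw [← Equiv.sum_comp (Equiv.addRight p)]
  refine Finset.sum_congr rfl fun y _ => ?_
  have h : y + p + (p + q) = y + q := by
    rw [← add_assoc, add_assoc y p p, hM, add_zero]
  simp only [Equiv.coe_addRight, h]

/-- The Cauchy-Schwarz step. -/
theorem cs_main [Nonempty I] (hM : ∀ x : M, x + x = 0) (F : Finset M) (K : Z → I → I → M)
    (hK : ∀ z a a' b b', K z a b + K z a b' + K z a' b + K z a' b' = 0) :
    (∑ z, ∑ a, pairs F (K z a a)) ^ 2 ≤
      (Fintype.card Z * Fintype.card M : ℝ) * ∑ z, ∑ a, ∑ b, pairs F (K z a b) := by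
  classical
  obtain ⟨a0⟩ := ‹Nonempty I›
  set P : Z → I → M := fun z a => K z a a0 with hP
  set Q : Z → I → M := fun z b => K z a0 b + K z a0 a0 with hQ
  have hPQ : ∀ z a b, K z a b = P z a + Q z b := by
    intro z a b
    have h := hK z a a0 b a0
    have h2 : K z a b = -(K z a a0 + K z a0 b + K z a0 a0) := by
      rw [eq_neg_iff_add_eq_zero, ← h]; abel
    have h3 : ∀ x : M, -x = x := fun x => by rw [neg_eq_iff_add_eq_zero, hM]
    rw [h2, h3, hP, hQ, add_assoc]
  set q : Z × M → ℝ := fun zy => ∑ a, if zy.2 + P zy.1 a ∈ F ∧ zy.2 + Q zy.1 a ∈ F then (1 : ℝ) else 0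
    with hq
  have h1 : (∑ z, ∑ a, pairs F (K z a a)) = ∑ zy : Z × M, q zy := by
    rw [Fintype.sum_prod_type]
    refine Finset.sum_congr rfl fun z _ => ?_
    rw [Finset.sum_comm]
    refine Finset.sum_congr rfl fun a _ => ?_
    rw [hPQ, pairs_add hM]
  have h2 : ∑ zy : Z × M, q zy ^ 2 ≤ ∑ z, ∑ a, ∑ b, pairs F (K z a b) := by
    rw [Fintype.sum_prod_type]
    refine Finset.sum_le_sum fun z _ => ?_
    have h3 : ∀ y : M, q (z, y) ^ 2 ≤
        ∑ a, ∑ b, if y + P z a ∈ F ∧ y + Q z b ∈ F then (1 : ℝ) else 0 := by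
      intro y
      rw [sq, hq, Finset.sum_mul_sum]
      refine Finset.sum_le_sum fun a _ => Finset.sum_le_sum fun b _ => ?_
      by_cases ha : y + P z a ∈ F <;> by_cases hb : y + Q z b ∈ F <;>
        by_cases ha' : y + Q z a ∈ F <;> by_cases hb' : y + P z b ∈ F <;> simp [ha, hb, ha', hb']
    calc ∑ y : M, q (z, y) ^ 2
        ≤ ∑ y : M, ∑ a, ∑ b, (if y + P z a ∈ F ∧ y + Q z b ∈ F then (1 : ℝ) else 0) :=
          Finset.sum_le_sum fun y _ => h3 y
      _ = ∑ a, ∑ b, pairs F (K z a b) := by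
          rw [Finset.sum_comm]
          refine Finset.sum_congr rfl fun a _ => ?_
          rw [Finset.sum_comm]
          refine Finset.sum_congr rfl fun b _ => ?_
          rw [hPQ, pairs_add hM]
  calc (∑ z, ∑ a, pairs F (K z a a)) ^ 2 = (∑ zy : Z × M, q zy) ^ 2 := by rw [h1]
    _ ≤ ((Finset.univ : Finset (Z × M)).card : ℝ) * ∑ zy : Z × M, q zy ^ 2 :=
        sq_sum_le_card_mul_sum_sq
    _ = (Fintype.card Z * Fintype.card M : ℝ) * ∑ zy : Z × M, q zy ^ 2 := by
        rw [Finset.card_univ, Fintype.card_prod]; push_cast; ring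
    _ ≤ _ := by
        refine mul_le_mul_of_nonneg_left h2 (by positivity)

end CS

section Update

variable {U I : Type*} [Fintype U] [DecidableEq U] [Fintype I]

/-- Resampling one coordinate. -/
lemma sum_update (p : U) (f : (U → I) → ℝ) :
    ∑ ψ : U → I, ∑ a : I, f (Function.update ψ p a) = Fintype.card I * ∑ φ : U → I, f φ := by
  classical
  have h1 : ∑ ψ : U → I, ∑ a : I, f (Function.update ψ p a) =
      ∑ x : (U → I) × I, f (Function.update x.1 p x.2) := by
    rw [Fintype.sum_prod_type]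
  have h2 : ∑ x : (U → I) × I, f (Function.update x.1 p x.2) = ∑ x : (U → I) × I, f x.1 := by
    let e : (U → I) × I ≃ (U → I) × I :=
      { toFun := fun x => (Function.update x.1 p x.2, x.1 p)
        invFun := fun x => (Function.update x.1 p x.2, x.1 p)
        left_inv := fun x => by simp
        right_inv := fun x => by simp }
    exact Fintype.sum_equiv e _ _ (fun x => rfl)
  rw [h1, h2, Fintype.sum_prod_type, Finset.mul_sum]
  refine Finset.sum_congr rfl fun φ _ => ?_
  simp

end Update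

end Pool.Agent.Lib.MP_2d96d7_co
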