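import Pool.Agent.Lib.MP_2d96d7_co.Split

/-!
Supersaturation: if `D`-codes have vanishing density then every dense family has a positive
density of pairs that differ by a push-forward of `D`.
-/

namespace Pool.Agent.Lib.MP_2d96d7_co

open Finset

section Reparam

variable {W U I : Type*} [Fintype W] [DecidableEq W] [Fintype U] [DecidableEq U] [Fintype I]

/-- Averages over functions on `U` of a function of `φ ∘ f` with `f` injective. -/
lemma sum_comp_injective {f : W → U} (hf : Function.Injective f) (h : (W → I) → ℝ) :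
    (Fintype.card (W → I) : ℝ) * ∑ φ : U → I, h (φ ∘ f) =
      Fintype.card (U → I) * ∑ χ : W → I, h χ := by
  classical
  set p : U → Prop := fun u => u ∈ Set.range f with hp
  let e1 := Equiv.piEquivPiSubtypeProd p (fun _ : U => I)
  let e2 : W ≃ {u // p u} := Equiv.ofInjective f hf
  let e3 : ({u // p u} → I) ≃ (W → I) := e2.symm.arrowCongr (Equiv.refl I)
  let e : (U → I) ≃ (W → I) × ({u // ¬ p u} → I) := e1.trans (e3.prodCongr (Equiv.refl _))
  have he : ∀ φ : U → I, (e φ).1 = φ ∘ f := by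
    intro φ
    funext w
    simp only [e, e1, e3, e2, Equiv.arrowCongr, Equiv.piEquivPiSubtypeProd]
    rfl
  have h1 : ∑ φ : U → I, h (φ ∘ f) = ∑ x : (W → I) × ({u // ¬ p u} → I), h x.1 := by
    refine Fintype.sum_equiv e _ _ fun φ => ?_
    rw [he]
  have h2 : Fintype.card (U → I) = Fintype.card (W → I) * Fintype.card ({u // ¬ p u} → I) := by
    rw [Fintype.card_congr e, Fintype.card_prod]
  rw [h1, Fintype.sum_prod_type, h2]
  simp only [Finset.sum_const, Finset.card_univ, nsmul_eq_mul]
  rw [← Finset.mul_sum]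
  push_cast
  ring

end Reparam

section

variable {W : Type*} [Fintype W] [DecidableEq W] {I : Type*} [Fintype I] [DecidableEq I]

/-- For an injective `ρ` the density does not depend on `ρ`. -/
lemma dens_injective [Nonempty I] (F : Finset (Vec I)) (D : SimpleGraph W) {U : Type*} [Fintype U]
    [DecidableEq U] {ρ : W → U} (hρ : Function.Injective ρ) :
    dens F D ρ = dens F D (id : W → W) := by
  have h := sum_comp_injective (I := I) hρ (fun χ => pairs F (edgeSum D χ))
  unfold dens
  have hU : (0 : ℝ) < Fintype.card (U → I) := by exact_mod_cast Fintype.card_pos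
  have hW : (0 : ℝ) < Fintype.card (W → I) := by exact_mod_cast Fintype.card_pos
  have hM : (0 : ℝ) < Fintype.card (Vec I) := by exact_mod_cast Fintype.card_pos
  rw [div_eq_div_iff (by positivity) (by positivity)]
  simp only [Function.comp_id]
  calc (∑ φ : U → I, pairs F (edgeSum D (φ ∘ ρ))) *
        ((Fintype.card (W → I) : ℝ) * Fintype.card (Vec I))
      = ((Fintype.card (W → I) : ℝ) * ∑ φ : U → I, pairs F (edgeSum D (φ ∘ ρ))) *
        Fintype.card (Vec I) := by ring
    _ = (Fintype.card (U → I) * ∑ χ : W → I, pairs F (edgeSum D χ)) * Fintype.card (Vec I) := by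
        rw [h]
    _ = _ := by ring

open Classical in
lemma edgeSum_eq_sum_ite (H : SimpleGraph W) (φ : W → I) :
    edgeSum H φ = ∑ z : Sym2 W, if z ∈ H.edgeSet then edgeVec (z.map φ) else 0 := by
  unfold edgeSum
  rw [← Finset.sum_filter]
  refine Finset.sum_congr ?_ fun _ _ => rfl
  ext z
  simp

lemma edgeSum_symmDiff (G G' : SimpleGraph W) (φ : W → I) :
    edgeSum ((G \ G') ⊔ (G' \ G)) φ = edgeSum G φ + edgeSum G' φ := by
  classical
  rw [edgeSum_eq_sum_ite, edgeSum_eq_sum_ite, edgeSum_eq_sum_ite, ← Finset.sum_add_distrib]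
  refine Finset.sum_congr rfl fun z _ => ?_
  simp only [SimpleGraph.edgeSet_sup, SimpleGraph.edgeSet_sdiff, Set.mem_union, Set.mem_sdiff]
  by_cases h1 : z ∈ G.edgeSet <;> by_cases h2 : z ∈ G'.edgeSet <;> simp [h1, h2, vec_add_self]

lemma edgeSum_map {U : Type*} [Fintype U] (D : SimpleGraph W) (f : W ↪ U) (ψ : U → I) :
    edgeSum (D.map f) ψ = edgeSum D (ψ ∘ f) := by
  classical
  have h : edgeSum (D.map f) ψ =
      ∑ z ∈ D.edgeFinset.image (Sym2.map f), (edgeVec (z.map ψ) : Vec I) := by
    obtain ⟨K, hK⟩ : ∃ K, K = D.map f := ⟨_, rfl⟩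
    rw [← hK]
    unfold edgeSum
    refine Finset.sum_congr ?_ fun _ _ => rfl
    ext z
    rw [SimpleGraph.mem_edgeFinset, hK, SimpleGraph.edgeSet_map, Finset.mem_image]
    simp only [Set.mem_image, SimpleGraph.mem_edgeFinset]
    rfl
  rw [h, Finset.sum_image]
  · unfold edgeSum
    refine Finset.sum_congr ?_ fun z _ => ?_
    · ext z
      simp
    · rw [Sym2.map_map]
  · intro a _ b _ hab
    exact Sym2.map.injective f.injective hab

end

lemma card_simpleGraph (n : ℕ) : Fintype.card (SimpleGraph (Fin n)) = 2 ^ (n.choose 2) := by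
  classical
  have e : SimpleGraph (Fin n) ≃ Vec (Fin n) := Equiv.ofBijective enc ⟨enc_injective, enc_surjective⟩
  rw [Fintype.card_congr e, vec_card, Fintype.card_fin]

/-- Supersaturation. -/
theorem supersaturation {W : Type} [Fintype W] [DecidableEq W] {D : SimpleGraph W}
    (hD : Vanishes D) {ε : ℝ} (hε : 0 < ε) :
    ∃ c : ℝ, 0 < c ∧ ∀ n : ℕ, 1 ≤ n → ∀ F : Finset (Vec (Fin n)),
      ε * Fintype.card (Vec (Fin n)) ≤ F.card → c ≤ dens F D (id : W → W) := by
  classical
  obtain ⟨N, hN⟩ := hD (ε / 2) (by positivity)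
  set Q : ℝ := (2 : ℝ) ^ (N.choose 2) with hQ
  have hQ0 : 0 < Q := by positivity
  refine ⟨(ε / 2) / (Q * (Fintype.card (W ↪ Fin N) + 1)), by positivity, ?_⟩
  intro n hn F hF
  have : Nonempty (Fin n) := ⟨⟨0, hn⟩⟩
  have hcardG : (Fintype.card (SimpleGraph (Fin N)) : ℝ) = Q := by
    rw [card_simpleGraph]; push_cast; rfl
  -- families of graphs on `Fin N` seen from `(ψ, x)`
  set Fam : (Fin N → Fin n) → Vec (Fin n) → Finset (SimpleGraph (Fin N)) :=
    fun ψ x => Finset.univ.filter fun g => x + edgeSum g ψ ∈ F with hFam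
  set A : ℝ := ((Fintype.card (Fin N → Fin n) : ℕ) : ℝ) with hA
  set M : ℝ := ((Fintype.card (Vec (Fin n)) : ℕ) : ℝ) with hM
  have hA0 : 0 < A := by rw [hA]; exact_mod_cast Fintype.card_pos
  have hM0 : 0 < M := by rw [hM]; exact_mod_cast Fintype.card_pos
  have hT : ∑ ψ, ∑ x, ((Fam ψ x).card : ℝ) = A * (Q * F.card) := by
    have h1 : ∀ ψ, ∑ x, ((Fam ψ x).card : ℝ) = Q * F.card := by
      intro ψ
      have h2 : ∀ x, ((Fam ψ x).card : ℝ) = ∑ g : SimpleGraph (Fin N), if x + edgeSum g ψ ∈ F then (1 : ℝ) else 0 := by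
        intro x
        simp only [hFam]
        rw [Finset.card_filter]
        push_cast
        rfl
      simp only [h2]
      rw [Finset.sum_comm]
      have h3 : ∀ g : SimpleGraph (Fin N), ∑ x : Vec (Fin n), (if x + edgeSum g ψ ∈ F then (1 : ℝ) else 0) =
          F.card := by
        intro g
        rw [Fintype.sum_equiv (Equiv.addRight (edgeSum g ψ))
          (fun x => if x + edgeSum g ψ ∈ F then (1 : ℝ) else 0)
          (fun y => if y ∈ F then (1 : ℝ) else 0) (fun x => rfl)]
        simp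
      simp only [h3, Finset.sum_const, Finset.card_univ, nsmul_eq_mul, hcardG]
    simp only [h1, Finset.sum_const, Finset.card_univ, nsmul_eq_mul]
    rfl
  -- each dense local family contains a pair
  have hloc : ∀ ψ x, ((Fam ψ x).card : ℝ) ≤ ε / 2 * Q + Q * ∑ f : W ↪ Fin N, ∑ g : SimpleGraph (Fin N),
      (if x + edgeSum g ψ ∈ F ∧ x + edgeSum g ψ + edgeSum D (ψ ∘ f) ∈ F then (1 : ℝ) else 0) := by
    intro ψ x
    by_cases hcode : IsCode D (Fam ψ x)
    · have h1 := hN N le_rfl (Fam ψ x) hcode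
      have h2 : 0 ≤ Q * ∑ f : W ↪ Fin N, ∑ g : SimpleGraph (Fin N),
        (if x + edgeSum g ψ ∈ F ∧ x + edgeSum g ψ + edgeSum D (ψ ∘ f) ∈ F then (1 : ℝ) else 0) :=
        mul_nonneg hQ0.le (Finset.sum_nonneg fun _ _ => Finset.sum_nonneg fun _ _ => by positivity)
      linarith
    · unfold IsCode at hcode
      push Not at hcode
      obtain ⟨g, hg, g', hg', _, f, hf⟩ := hcode
      simp only [hFam, Finset.mem_filter, Finset.mem_univ, true_and] at hg hg'
      have h1 : x + edgeSum g ψ + edgeSum D (ψ ∘ f) ∈ F := by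
        rw [← edgeSum_map, ← hf, edgeSum_symmDiff]
        have : x + edgeSum g ψ + (edgeSum g ψ + edgeSum g' ψ) = x + edgeSum g' ψ := by
          rw [← add_assoc, add_assoc x, vec_add_self, add_zero]
        rw [this]
        exact hg'
      have h2 : (1 : ℝ) ≤ ∑ f : W ↪ Fin N, ∑ g : SimpleGraph (Fin N),
          (if x + edgeSum g ψ ∈ F ∧ x + edgeSum g ψ + edgeSum D (ψ ∘ f) ∈ F
            then (1 : ℝ) else 0) := by
        refine le_trans ?_ (Finset.single_le_sum (f := fun f : W ↪ Fin N => ∑ g : SimpleGraph (Fin N),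
          (if x + edgeSum g ψ ∈ F ∧ x + edgeSum g ψ + edgeSum D (ψ ∘ f) ∈ F then (1 : ℝ) else 0))
          (fun _ _ => Finset.sum_nonneg fun _ _ => by positivity) (Finset.mem_univ f))
        refine le_trans ?_ (Finset.single_le_sum (f := fun g : SimpleGraph (Fin N) =>
          (if x + edgeSum g ψ ∈ F ∧ x + edgeSum g ψ + edgeSum D (ψ ∘ f) ∈ F then (1 : ℝ) else 0))
          (fun _ _ => by positivity) (Finset.mem_univ g))
        rw [if_pos ⟨hg, h1⟩]
      have h3 : ((Fam ψ x).card : ℝ) ≤ Q := by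
        rw [← hcardG]
        exact_mod_cast Finset.card_le_univ _
      have h4 : Q ≤ Q * ∑ f : W ↪ Fin N, ∑ g : SimpleGraph (Fin N),
          (if x + edgeSum g ψ ∈ F ∧ x + edgeSum g ψ + edgeSum D (ψ ∘ f) ∈ F
            then (1 : ℝ) else 0) := le_mul_of_one_le_right hQ0.le h2
      have h5 : 0 ≤ ε / 2 * Q := by positivity
      linarith
  have hsum : ∑ ψ, ∑ x, ((Fam ψ x).card : ℝ) ≤ A * M * (ε / 2 * Q) +
      Q * (Q * (Fintype.card (W ↪ Fin N) * (A * M * dens F D (id : W → W)))) := by
    calc ∑ ψ, ∑ x, ((Fam ψ x).card : ℝ) ≤ ∑ ψ : Fin N → Fin n, ∑ x : Vec (Fin n),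
          (ε / 2 * Q + Q * ∑ f : W ↪ Fin N, ∑ g : SimpleGraph (Fin N),
          (if x + edgeSum g ψ ∈ F ∧ x + edgeSum g ψ + edgeSum D (ψ ∘ f) ∈ F
            then (1 : ℝ) else 0)) :=
          Finset.sum_le_sum fun ψ _ => Finset.sum_le_sum fun x _ => hloc ψ x
      _ = A * M * (ε / 2 * Q) + Q * ∑ f : W ↪ Fin N, ∑ g : SimpleGraph (Fin N), ∑ ψ : Fin N → Fin n,
          ∑ x : Vec (Fin n),
          (if x + edgeSum g ψ ∈ F ∧ x + edgeSum g ψ + edgeSum D (ψ ∘ f) ∈ F
            then (1 : ℝ) else 0) := by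
          simp only [Finset.sum_add_distrib, Finset.sum_const, Finset.card_univ, nsmul_eq_mul,
            ← Finset.mul_sum]
          congr 1
          · rw [hA, hM]; ring
          · congr 1
            have e1 : ∀ ψ : Fin N → Fin n, ∑ x : Vec (Fin n), ∑ f : W ↪ Fin N, ∑ g : SimpleGraph (Fin N),
                (if x + edgeSum g ψ ∈ F ∧ x + edgeSum g ψ + edgeSum D (ψ ∘ f) ∈ F
                  then (1 : ℝ) else 0) = ∑ f : W ↪ Fin N, ∑ g : SimpleGraph (Fin N), ∑ x : Vec (Fin n),
                (if x + edgeSum g ψ ∈ F ∧ x + edgeSum g ψ + edgeSum D (ψ ∘ f) ∈ F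
                  then (1 : ℝ) else 0) := by
              intro ψ
              rw [Finset.sum_comm]
              refine Finset.sum_congr rfl fun f _ => ?_
              rw [Finset.sum_comm]
            simp only [e1]
            rw [Finset.sum_comm]
            refine Finset.sum_congr rfl fun f _ => ?_
            rw [Finset.sum_comm]
      _ = _ := by
          congr 1
          congr 1
          have e2 : ∀ (f : W ↪ Fin N) (g : SimpleGraph (Fin N)) (ψ : Fin N → Fin n), ∑ x : Vec (Fin n),
              (if x + edgeSum g ψ ∈ F ∧ x + edgeSum g ψ + edgeSum D (ψ ∘ f) ∈ F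
                then (1 : ℝ) else 0) = pairs F (edgeSum D (ψ ∘ f)) := by
            intro f g ψ
            exact Equiv.sum_comp (Equiv.addRight (edgeSum g ψ))
              (fun y => if y ∈ F ∧ y + edgeSum D (ψ ∘ f) ∈ F then (1 : ℝ) else 0)
          have e3 : ∀ f : W ↪ Fin N, ∑ ψ : Fin N → Fin n, pairs F (edgeSum D (ψ ∘ f)) =
              A * M * dens F D (id : W → W) := by
            intro f
            rw [← dens_injective F D f.injective]
            unfold dens
            rw [← hA, ← hM]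
            field_simp
          simp only [e2, Finset.sum_const, Finset.card_univ, nsmul_eq_mul, e3, hcardG]
          ring
  rw [hT] at hsum
  have h1 : A * M * (Q * ε) ≤ A * (Q * F.card) := by
    have : A * M * (Q * ε) = A * (Q * (ε * M)) := by ring
    rw [this]
    gcongr
  set d := dens F D (id : W → W) with hd
  have hd0 : 0 ≤ d := dens_nonneg _ _ _
  have h2 : A * M * Q * (ε / 2) ≤ A * M * Q * (Q * Fintype.card (W ↪ Fin N) * d) := by
    linarith
  have h3 : ε / 2 ≤ Q * Fintype.card (W ↪ Fin N) * d := le_of_mul_le_mul_left h2 (by positivity)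
  rw [div_le_iff₀ (by positivity)]
  calc ε / 2 ≤ Q * Fintype.card (W ↪ Fin N) * d := h3
    _ ≤ d * (Q * (Fintype.card (W ↪ Fin N) + 1)) := by nlinarith [mul_nonneg hQ0.le hd0]

end Pool.Agent.Lib.MP_2d96d7_co
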