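import Pool.Agent.Lib.MP_2d96d7_co.Part
import Pool.Agent.Lib.MP_2d96d7_co.Super

/-!
Every graph with an even number of edges folds onto an edgeless or a complete graph.
-/

namespace Pool.Agent.Lib.MP_2d96d7_co

open Finset

variable {V : Type}

/-- Edges that `c` maps to `y`. -/
def lying {ι : Type} (H : SimpleGraph V) (c : V → ι) (y : Sym2 ι) : Set (Sym2 V) :=
  {z ∈ H.edgeSet | Sym2.map c z = y}

lemma lying_ncard_cross {ι : Type} (H : SimpleGraph V) (c : V → ι) {i j : ι} (hij : i ≠ j) :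
    (lying H c s(i, j)).ncard = cross H (c ⁻¹' {i}) (c ⁻¹' {j}) := by
  symm
  unfold cross lying
  refine Set.ncard_congr (fun p _ => s(p.1, p.2)) ?_ ?_ ?_
  · rintro ⟨u, v⟩ ⟨hu, hv, huv⟩
    refine ⟨huv, ?_⟩
    simp only [Sym2.map_mk]
    rw [show c u = i from hu, show c v = j from hv]
  · rintro ⟨u, v⟩ ⟨u', v'⟩ ⟨hu, hv, huv⟩ ⟨hu', hv', huv'⟩ h
    simp only [Sym2.eq_iff] at h
    rcases h with ⟨rfl, rfl⟩ | ⟨rfl, rfl⟩
    · rfl
    · exact absurd (Eq.trans (Eq.symm hu) hv') hij
  · intro z hz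
    induction z with
    | _ u v =>
      obtain ⟨hz1, hz2⟩ := hz
      simp only [Sym2.map_mk, Sym2.eq_iff] at hz2
      rcases hz2 with ⟨e1, e2⟩ | ⟨e1, e2⟩
      · exact ⟨(u, v), ⟨e1, e2, hz1⟩, rfl⟩
      · exact ⟨(v, u), ⟨e2, e1, ((SimpleGraph.mem_edgeSet H).1 hz1).symm⟩, Sym2.eq_swap⟩

/-- Edges inside `X`. -/
def inside (H : SimpleGraph V) (X : Set V) : Set (Sym2 V) := {z ∈ H.edgeSet | ∀ v ∈ z, v ∈ X}

lemma lying_diag {ι : Type} (H : SimpleGraph V) (c : V → ι) (i : ι) :
    lying H c s(i, i) = inside H (c ⁻¹' {i}) := by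
  ext z
  induction z with
  | _ u v =>
    simp only [lying, inside, Set.mem_ofPred_eq, Sym2.map_mk, Sym2.eq_iff, Sym2.mem_iff,
      forall_eq_or_imp, forall_eq, Set.mem_preimage, Set.mem_singleton_iff]
    tauto

lemma EvenlySplittable.even_inside [Finite V] {H : SimpleGraph V} {X : Set V}
    (h : EvenlySplittable H X) : Even (inside H X).ncard := by
  induction h with
  | single v =>
    have : inside H {v} = ∅ := by
      ext z
      induction z with
      | _ a b =>
        simp only [inside, Set.mem_ofPred_eq, Sym2.mem_iff, forall_eq_or_imp, forall_eq,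
          Set.mem_singleton_iff, Set.mem_empty_iff_false, iff_false, SimpleGraph.mem_edgeSet]
        rintro ⟨h1, rfl, rfl⟩
        exact h1.ne rfl
    rw [this]
    simp
  | @union X Y hX hY hXY he ihX ihY =>
    let R : Set (Sym2 V) := {z ∈ H.edgeSet | ∃ u ∈ X, ∃ v ∈ Y, z = s(u, v)}
    have hR : R.ncard = {p : V × V | p.1 ∈ X ∧ p.2 ∈ Y ∧ H.Adj p.1 p.2}.ncard := by
      symm
      refine Set.ncard_congr (fun p _ => s(p.1, p.2)) ?_ ?_ ?_
      · rintro ⟨u, v⟩ ⟨hu, hv, huv⟩
        exact ⟨huv, u, hu, v, hv, rfl⟩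
      · rintro ⟨u, v⟩ ⟨u', v'⟩ ⟨hu, hv, huv⟩ ⟨hu', hv', huv'⟩ h
        simp only [Sym2.eq_iff] at h
        rcases h with ⟨rfl, rfl⟩ | ⟨rfl, rfl⟩
        · rfl
        · exact absurd hv' (Set.disjoint_left.1 hXY hu)
      · rintro z ⟨hz, u, hu, v, hv, rfl⟩
        exact ⟨(u, v), ⟨hu, hv, hz⟩, rfl⟩
    have hU : inside H (X ∪ Y) = (inside H X ∪ inside H Y) ∪ R := by
      ext z
      induction z with
      | _ a b =>
        simp only [inside, R, Set.mem_ofPred_eq, Sym2.mem_iff, forall_eq_or_imp, forall_eq,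
          Set.mem_union, SimpleGraph.mem_edgeSet]
        constructor
        · rintro ⟨h1, ha | ha, hb | hb⟩
          · exact Or.inl (Or.inl ⟨h1, ha, hb⟩)
          · exact Or.inr ⟨h1, a, ha, b, hb, rfl⟩
          · exact Or.inr ⟨h1, b, hb, a, ha, Sym2.eq_swap⟩
          · exact Or.inl (Or.inr ⟨h1, ha, hb⟩)
        · rintro ((⟨h1, ha, hb⟩ | ⟨h1, ha, hb⟩) | ⟨h1, u, hu, v, hv, huv⟩)
          · exact ⟨h1, Or.inl ha, Or.inl hb⟩
          · exact ⟨h1, Or.inr ha, Or.inr hb⟩
          · simp only [Sym2.eq_iff] at huv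
            rcases huv with ⟨rfl, rfl⟩ | ⟨rfl, rfl⟩
            · exact ⟨h1, Or.inl hu, Or.inr hv⟩
            · exact ⟨h1, Or.inr hv, Or.inl hu⟩
    rw [hU, Set.ncard_union_eq _ (Set.toFinite _) (Set.toFinite _),
      Set.ncard_union_eq _ (Set.toFinite _) (Set.toFinite _), hR]
    · exact (ihX.add ihY).add he
    · rw [Set.disjoint_left]
      intro z hz hz'
      induction z with
      | _ a b =>
        have h1 : a ∈ X := hz.2 a (by simp)
        have h2 : a ∈ Y := hz'.2 a (by simp)
        exact Set.disjoint_left.1 hXY h1 h2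
    · rw [Set.disjoint_left]
      rintro z (hz | hz) ⟨_, u, hu, v, hv, rfl⟩
      · exact Set.disjoint_left.1 hXY (hz.2 v (by simp)) hv
      · exact Set.disjoint_left.1 hXY hu (hz.2 u (by simp))

section Fold

variable [Fintype V] {ι : Type} [Fintype ι] [DecidableEq ι] {H : SimpleGraph V} {c : V → ι}

lemma edgeSet_ncard_eq_sum (H : SimpleGraph V) (c : V → ι) :
    H.edgeSet.ncard = ∑ y : Sym2 ι, (lying H c y).ncard := by
  classical
  have h1 : H.edgeSet.ncard = H.edgeFinset.card := by
    rw [← Set.ncard_coe_finset]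
    congr 1
    ext z
    simp
  rw [h1, Finset.card_eq_sum_card_fiberwise (f := Sym2.map c) (t := Finset.univ)
    (fun _ _ => Finset.mem_coe.2 (Finset.mem_univ _))]
  refine Finset.sum_congr rfl fun y _ => ?_
  rw [← Set.ncard_coe_finset]
  congr 1
  ext z
  simp [lying]

lemma even_choose (hc : IsPart H c) (hodd : ∀ i j, i ≠ j → Odd (cross H (c ⁻¹' {i}) (c ⁻¹' {j})))
    (he : Even H.edgeSet.ncard) : Even ((Fintype.card ι).choose 2) := by
  classical
  rw [edgeSet_ncard_eq_sum H c, ← Nat.card_eq_fintype_card] at *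
  have h1 : ∀ y : Sym2 ι, ((lying H c y).ncard : ZMod 2) = if y.IsDiag then 0 else 1 := by
    intro y
    induction y with
    | _ i j =>
      by_cases hij : i = j
      · subst hij
        rw [if_pos (by simp), lying_diag, ZMod.natCast_eq_zero_iff_even]
        exact (hc i).even_inside
      · rw [if_neg (by simpa using hij), lying_ncard_cross H c hij, ZMod.natCast_eq_one_iff_odd]
        exact hodd i j hij
  have h2 : ((∑ y : Sym2 ι, (lying H c y).ncard : ℕ) : ZMod 2) = 0 :=
    (ZMod.natCast_eq_zero_iff_even).2 he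
  rw [← ZMod.natCast_eq_zero_iff_even]
  push_cast at h2
  simp only [h1] at h2
  rw [Nat.card_eq_fintype_card, ← Sym2.card_subtype_not_diag, Fintype.card_subtype]
  rw [← h2, Finset.card_filter]
  push_cast
  refine Finset.sum_congr rfl fun y _ => ?_
  by_cases hy : y.IsDiag <;> simp [hy]

lemma edgeSum_fold {I : Type} [Fintype I] [DecidableEq I] (hc : IsPart H c)
    (hodd : ∀ i j, i ≠ j → Odd (cross H (c ⁻¹' {i}) (c ⁻¹' {j}))) (ψ : ι → I) :
    edgeSum H (ψ ∘ c) = edgeSum (⊤ : SimpleGraph ι) ψ := by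
  classical
  rw [edgeSum_eq_sum_ite (⊤ : SimpleGraph ι)]
  have h1 : edgeSum H (ψ ∘ c) = ∑ y : Sym2 ι, ∑ z ∈ H.edgeFinset with Sym2.map c z = y,
      edgeVec (z.map (ψ ∘ c)) := by
    unfold edgeSum
    rw [Finset.sum_fiberwise]
  rw [h1]
  refine Finset.sum_congr rfl fun y _ => ?_
  have h2 : ∑ z ∈ H.edgeFinset with Sym2.map c z = y, (edgeVec (z.map (ψ ∘ c)) : Vec I) =
      ∑ z ∈ H.edgeFinset with Sym2.map c z = y, edgeVec (y.map ψ) := by
    refine Finset.sum_congr rfl fun z hz => ?_
    rw [← (Finset.mem_filter.1 hz).2, Sym2.map_map]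
  have h3 : (H.edgeFinset.filter (fun z => Sym2.map c z = y)).card = (lying H c y).ncard := by
    rw [← Set.ncard_coe_finset]
    congr 1
    ext z
    simp [lying]
  rw [h2, Finset.sum_const, h3]
  induction y with
  | _ i j =>
    by_cases hij : i = j
    · subst hij
      rw [edgeVec_diag (by simp), smul_zero]
      simp
    · obtain ⟨k, hk⟩ := hodd i j hij
      rw [lying_ncard_cross H c hij, hk, add_nsmul, one_nsmul, mul_comm, mul_nsmul', two_nsmul,
        vec_add_self, nsmul_zero, zero_add, if_pos]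
      simpa using hij

/-- The density of `H` is bounded below by a power of the density of a complete graph. -/
theorem dens_fold [DecidableEq V] (hc : IsPart H c)
    (hodd : ∀ i j, i ≠ j → Odd (cross H (c ⁻¹' {i}) (c ⁻¹' {j}))) :
    ∃ N : ℕ, ∀ {I : Type} [Fintype I] [DecidableEq I] [Nonempty I] (F : Finset (Vec I)),
      dens F (⊤ : SimpleGraph ι) (id : ι → ι) ^ N ≤ dens F H (id : V → V) := by
  classical
  choose r hr hcol using fun i => (hc i).collapse
  have hrc : ∀ i, c (r i) = i := fun i => hr i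
  have key : ∀ J : Finset ι, ∃ N : ℕ, ∀ {I : Type} [Fintype I] [DecidableEq I] [Nonempty I]
      (F : Finset (Vec I)),
      dens F H (fun v => if c v ∈ J then r (c v) else v) ^ N ≤ dens F H (id : V → V) := by
    intro J
    induction J using Finset.induction_on with
    | empty =>
      refine ⟨1, fun F => ?_⟩
      simp only [Finset.notMem_empty, if_false, pow_one]
      exact le_rfl
    | insert i J hi ih =>
      obtain ⟨N, hN⟩ := ih
      refine ⟨2 ^ ((c ⁻¹' {i}).ncard - 1) * N, fun F => ?_⟩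
      have h1 := hcol i F (fun v => if c v ∈ J then r (c v) else v)
        (fun v hv => by
          have hv' : c v = i := hv
          rw [if_neg (by rw [hv']; exact hi)])
        (fun v hv => by
          have hv' : c v ≠ i := hv
          by_cases hJ : c v ∈ J
          · rw [if_pos hJ]
            show c (r (c v)) ≠ i
            rw [hrc]; exact hv'
          · rw [if_neg hJ]; exact hv)
      have h2 : col (c ⁻¹' {i}) (r i) ∘ (fun v => if c v ∈ J then r (c v) else v) =
          fun v => if c v ∈ insert i J then r (c v) else v := by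
        funext v
        simp only [Function.comp, Finset.mem_insert]
        by_cases hv : c v = i
        · rw [if_neg (by rw [hv]; exact hi), col_mem (show v ∈ c ⁻¹' {i} from hv),
            if_pos (Or.inl hv), hv]
        · by_cases hJ : c v ∈ J
          · rw [if_pos hJ, if_pos (Or.inr hJ), col_not_mem]
            show c (r (c v)) ≠ i
            rw [hrc]; exact hv
          · rw [if_neg hJ, if_neg (by tauto), col_not_mem (show v ∉ c ⁻¹' {i} from hv)]
      rw [h2] at h1
      rw [pow_mul]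
      exact (pow_le_pow_left₀ (pow_nonneg (dens_nonneg _ _ _) _) h1 N).trans (hN F)
  obtain ⟨N, hN⟩ := key Finset.univ
  refine ⟨N, fun {I} _ _ _ F => ?_⟩
  have h1 := hN F
  have hrinj : Function.Injective r := fun i j h => by rw [← hrc i, ← hrc j, h]
  have h2 : dens F H (fun v => if c v ∈ (Finset.univ : Finset ι) then r (c v) else v) =
      dens F (⊤ : SimpleGraph ι) (id : ι → ι) := by
    rw [← dens_injective F (⊤ : SimpleGraph ι) hrinj]
    unfold dens
    congr 1
    refine Finset.sum_congr rfl fun φ _ => ?_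
    congr 1
    rw [← edgeSum_fold hc hodd]
    congr 1
    funext v
    simp
  rw [h2] at h1
  exact h1

end Fold

/-- `Vanishes` is invariant under isomorphism of complete graphs. -/
lemma vanishes_top_congr {W W' : Type} (e : W ≃ W') (h : Vanishes (⊤ : SimpleGraph W)) :
    Vanishes (⊤ : SimpleGraph W') := by
  intro ε hε
  obtain ⟨N, hN⟩ := h ε hε
  refine ⟨N, fun n hn F hF => hN n hn F ?_⟩
  intro G hG G' hG' hne f
  have h1 := hF G hG G' hG' hne (e.symm.toEmbedding.trans f)
  have h2 : (⊤ : SimpleGraph W').map (e.symm.toEmbedding.trans f) = (⊤ : SimpleGraph W).map f := by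
    ext a b
    simp only [SimpleGraph.map_adj, SimpleGraph.top_adj]
    constructor
    · rintro ⟨u, v, huv, rfl, rfl⟩
      exact ⟨e.symm u, e.symm v, fun h => huv (e.symm.injective h), rfl, rfl⟩
    · rintro ⟨u, v, huv, rfl, rfl⟩
      exact ⟨e u, e v, fun h => huv (e.injective h), by simp, by simp⟩
  rw [← h2]
  exact h1

/-- Main reduction. -/
theorem reduction {V : Type} [Fintype V] (H : SimpleGraph V) (hne : H.edgeSet.Nonempty)
    (he : Even H.edgeSet.ncard) :
    PowerDecay H ∨ ∃ m : ℕ, 4 ≤ m ∧ Even (m.choose 2) ∧ ¬ H.CliqueFree m ∧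
      (Vanishes (⊤ : SimpleGraph (Fin m)) → Vanishes H) := by
  classical
  have hH : H ≠ ⊥ := by
    rintro rfl
    simp at hne
  have hV : Nonempty V := by
    obtain ⟨z, _⟩ := hne
    induction z with
    | _ u v => exact ⟨u⟩
  have hex : ∃ m, PartNum H m := by
    refine ⟨Fintype.card V, ?_⟩
    refine IsPart.partNum (c := (id : V → V)) fun i => ?_
    exact EvenlySplittable.single i
  obtain ⟨m, hm, hmin'⟩ : ∃ m, PartNum H m ∧ ∀ m', PartNum H m' → m ≤ m' :=
    ⟨Nat.find hex, Nat.find_spec hex, fun m' h => Nat.find_min' hex h⟩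
  obtain ⟨c, hc⟩ := hm
  have hodd : ∀ i j, i ≠ j → Odd (cross H (c ⁻¹' {i}) (c ⁻¹' {j})) :=
    fun i j hij => odd_cross hmin' hc hij
  have hch : Even (m.choose 2) := by
    have := even_choose hc hodd he
    rwa [Fintype.card_fin] at this
  by_cases hm4 : 4 ≤ m
  · right
    refine ⟨m, hm4, hch, exists_clique hmin' hm4 ⟨c, hc⟩, ?_⟩
    intro hvan ε hε
    obtain ⟨N, hN⟩ := dens_fold hc hodd
    obtain ⟨c₀, hc₀, hsup⟩ := supersaturation hvan hε
    obtain ⟨N₁, hN₁⟩ := exists_nat_gt (((Fintype.card V).choose 2 : ℝ) / c₀ ^ N)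
    refine ⟨max N₁ 1, fun n hn F hF => ?_⟩
    have hn1 : 1 ≤ n := le_trans (le_max_right _ _) hn
    have hnN : N₁ ≤ n := le_trans (le_max_left _ _) hn
    have : Nonempty (Fin n) := ⟨⟨0, hn1⟩⟩
    by_contra hlt
    push Not at hlt
    have h1 : ε * Fintype.card (Vec (Fin n)) ≤ (encF F).card := by
      rw [encF_card, vec_card, Fintype.card_fin]
      push_cast
      exact hlt.le
    have h2 := hsup n hn1 (encF F) h1
    have h3 := (pow_le_pow_left₀ hc₀.le h2 N).trans (hN (encF F))
    have h4 := h3.trans (code_dens hH hn1 hF)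
    have hn0 : (0 : ℝ) < n := by exact_mod_cast hn1
    have hp : 0 < c₀ ^ N := by positivity
    rw [le_div_iff₀ hn0] at h4
    rw [div_lt_iff₀ hp] at hN₁
    have h5 : (N₁ : ℝ) ≤ n := by exact_mod_cast hnN
    have h6 : (N₁ : ℝ) * c₀ ^ N ≤ n * c₀ ^ N := by gcongr
    linarith
  · left
    have hm1 : m = 1 := by
      have hpos : 0 < m := by
        obtain ⟨v⟩ := hV
        exact (c v).pos
      interval_cases m
      · rfl
      · exact absurd hch (by decide)
      · exact absurd hch (by decide)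
    subst hm1
    have h1 : EvenlySplittable H Set.univ := by
      have := hc 0
      have h2 : c ⁻¹' {0} = Set.univ := by
        ext v
        simp only [Set.mem_preimage, Set.mem_singleton_iff, Set.mem_univ, iff_true]
        exact Subsingleton.elim _ _
      rwa [h2] at this
    exact h1.powerDecay hH

lemma PowerDecay.vanishes {V : Type} [Fintype V] {H : SimpleGraph V} (h : PowerDecay H) :
    Vanishes H := by
  intro ε hε
  set C : ℝ := ((Fintype.card V).choose 2 : ℝ) with hC
  set K : ℕ := 2 ^ (Fintype.card V - 1) with hK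
  have hK0 : K ≠ 0 := by positivity
  obtain ⟨N, hN⟩ := exists_nat_gt (C / ε ^ K)
  refine ⟨max N 1, fun n hn F hF => ?_⟩
  have hn1 : 1 ≤ n := le_trans (le_max_right _ _) hn
  have hnN : N ≤ n := le_trans (le_max_left _ _) hn
  have hn0 : (0 : ℝ) < n := by exact_mod_cast hn1
  refine (h n hn1 F hF).trans ?_
  have h1 : C / n ≤ ε ^ K := by
    rw [div_lt_iff₀ (by positivity)] at hN
    rw [div_le_iff₀ hn0]
    have h5 : (N : ℝ) ≤ n := by exact_mod_cast hnN
    have h6 : (N : ℝ) * ε ^ K ≤ n * ε ^ K := by gcongr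
    linarith
  have h2 : (C / n) ^ ((1 : ℝ) / 2 ^ (Fintype.card V - 1)) ≤ ε := by
    have h3 : ((1 : ℝ) / 2 ^ (Fintype.card V - 1)) = ((K : ℝ))⁻¹ := by
      rw [hK]; push_cast; rw [one_div]
    rw [h3]
    calc (C / n) ^ ((K : ℝ))⁻¹ ≤ (ε ^ K) ^ ((K : ℝ))⁻¹ :=
          Real.rpow_le_rpow (by positivity) h1 (by positivity)
      _ = ε := Real.pow_rpow_inv_natCast hε.le hK0
  gcongr

end Pool.Agent.Lib.MP_2d96d7_co
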