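import Mathlib

/-!
Graph-codes: basic definitions.
-/

namespace Pool.Agent.Lib.MP_2d96d7_co

/-- `F` is an `H`-code: the symmetric difference of two distinct members of `F` is never a copy
of `H`. -/
def IsCode {V : Type} (H : SimpleGraph V) {n : ℕ} (F : Finset (SimpleGraph (Fin n))) : Prop :=
  ∀ G ∈ F, ∀ G' ∈ F, G ≠ G' → ∀ f : V ↪ Fin n, (G \ G') ⊔ (G' \ G) ≠ H.map f

/-- Polynomial decay: with `w` the number of vertices of `H`, every `H`-code on `n ≥ 1` vertices
contains at most the fraction `(binom(w, 2) / n) ^ (1 / 2 ^ (w - 1))` of all graphs. -/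
def PowerDecay {V : Type} [Fintype V] (H : SimpleGraph V) : Prop :=
  ∀ n : ℕ, 1 ≤ n → ∀ F : Finset (SimpleGraph (Fin n)), IsCode H F →
    (F.card : ℝ) ≤ (((Fintype.card V).choose 2 : ℝ) / n) ^ ((1 : ℝ) / 2 ^ (Fintype.card V - 1)) *
      2 ^ (n.choose 2)

/-- `d_H(n)` tends to `0`. -/
def Vanishes {V : Type} (H : SimpleGraph V) : Prop :=
  ∀ ε : ℝ, 0 < ε → ∃ N : ℕ, ∀ n : ℕ, N ≤ n → ∀ F : Finset (SimpleGraph (Fin n)), IsCode H F →
    (F.card : ℝ) ≤ ε * 2 ^ (n.choose 2)

/-- A set of vertices is evenly splittable if it can be cut recursively into single vertices in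
such a way that each cut is crossed by an even number of edges of `H`. -/
inductive EvenlySplittable {V : Type} (H : SimpleGraph V) : Set V → Prop
  | single (v : V) : EvenlySplittable H {v}
  | union {X Y : Set V} (hX : EvenlySplittable H X) (hY : EvenlySplittable H Y)
      (hXY : Disjoint X Y)
      (he : Even {p : V × V | p.1 ∈ X ∧ p.2 ∈ Y ∧ H.Adj p.1 p.2}.ncard) :
      EvenlySplittable H (X ∪ Y)

end Pool.Agent.Lib.MP_2d96d7_co
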