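import Pool.Agent.Lib.MP_2d96d7_co.Phases
import Pool.Agent.Lib.MP_2d96d7_co.Clique

/-!
Almost every graph with an even number of edges is evenly splittable.
-/

namespace Pool.Agent.Lib.MP_2d96d7_co

open Finset

section

variable {V : Type} [Fintype V] [DecidableEq V]

lemma inner_eq_inside (H : SimpleGraph V) (S : Finset V) :
    inner H S = (inside H (S : Set V)).ncard := by
  classical
  unfold inner
  rw [← Set.ncard_coe_finset]
  congr 1
  ext z
  simp only [inside, Finset.coe_filter, Finset.mem_sym2_iff, Set.mem_ofPred_eq, Finset.mem_coe]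
  tauto

lemma es_even_inner {H : SimpleGraph V} {S : Finset V} (h : EvenlySplittable H (S : Set V)) :
    Even (inner H S) := by
  rw [inner_eq_inside]
  exact h.even_inside

/-- Adding an independent set. -/
lemma finish {H : SimpleGraph V} (he : Even (inner H Finset.univ)) :
    ∀ (n : ℕ) (S : Finset V), (Finset.univ \ S).card = n → EvenlySplittable H (S : Set V) →
      (∀ u, u ∉ S → ∀ v, v ∉ S → ¬ H.Adj u v) → EvenlySplittable H Set.univ := by
  intro n
  induction n using Nat.strong_induction_on with
  | _ n ih =>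
    intro S hn hS hind
    by_cases h0 : n = 0
    · subst h0
      rw [Finset.card_eq_zero, Finset.sdiff_eq_empty_iff_subset, Finset.univ_subset_iff] at hn
      rw [hn, Finset.coe_univ] at hS
      exact hS
    · have hne : (Finset.univ \ S).Nonempty := by
        rw [← Finset.card_pos]; omega
      have hadd : ∀ b, b ∉ S → Even (deg H b S) → EvenlySplittable H Set.univ := by
        intro b hb hev
        have h1 := es_add_vertex hS hb hev
        have h2 : (Finset.univ \ insert b S).card < n := by
          rw [← hn]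
          refine Finset.card_lt_card ⟨Finset.sdiff_subset_sdiff subset_rfl
            (Finset.subset_insert _ _), fun h => ?_⟩
          have := h (Finset.mem_sdiff.2 ⟨Finset.mem_univ b, hb⟩)
          simp at this
        refine ih _ h2 (insert b S) rfl h1 fun u hu v hv => hind u ?_ v ?_
        · exact fun h => hu (Finset.mem_insert_of_mem h)
        · exact fun h => hv (Finset.mem_insert_of_mem h)
      by_cases hex : ∃ b, b ∉ S ∧ Even (deg H b S)
      · obtain ⟨b, hb, hev⟩ := hex
        exact hadd b hb hev
      · push Not at hex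
        obtain ⟨b, hb⟩ := hne
        have hbS : b ∉ S := (Finset.mem_sdiff.1 hb).2
        by_cases h1 : n = 1
        · exfalso
          subst h1
          have h2 : insert b S = Finset.univ := by
            ext v
            simp only [Finset.mem_univ, iff_true, Finset.mem_insert]
            by_contra hv
            rw [not_or] at hv
            have h3 : ({b, v} : Finset V) ⊆ Finset.univ \ S := by
              intro w hw
              rw [Finset.mem_insert, Finset.mem_singleton] at hw
              rcases hw with rfl | rfl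
              · exact hb
              · exact Finset.mem_sdiff.2 ⟨Finset.mem_univ _, hv.2⟩
            have h4 := Finset.card_le_card h3
            rw [Finset.card_pair (Ne.symm hv.1), hn] at h4
            omega
          rw [← h2, inner_insert H hbS] at he
          have h3 := es_even_inner hS
          exact hex b hbS ((Nat.even_add.1 he).1 h3)
        · obtain ⟨b', hb'⟩ : ((Finset.univ \ S).erase b).Nonempty := by
            rw [← Finset.card_pos, Finset.card_erase_of_mem hb, hn]; omega
          have hb'S : b' ∉ S := (Finset.mem_sdiff.1 (Finset.mem_of_mem_erase hb')).2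
          have hbb : b ≠ b' := (Finset.ne_of_mem_erase hb').symm
          have h2 := es_add_pair hS hbS hb'S hbb (hind b hbS b' hb'S)
            ((Nat.not_even_iff_odd.1 (hex b hbS)).add_odd (Nat.not_even_iff_odd.1 (hex b' hb'S)))
          have h3 : (Finset.univ \ insert b (insert b' S)).card < n := by
            rw [← hn]
            refine Finset.card_lt_card ⟨Finset.sdiff_subset_sdiff subset_rfl
              ((Finset.subset_insert _ _).trans (Finset.subset_insert _ _)), fun h => ?_⟩
            have := h hb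
            simp at this
          refine ih _ h3 _ rfl h2 fun u hu v hv => hind u ?_ v ?_
          · exact fun h => hu (Finset.mem_insert_of_mem (Finset.mem_insert_of_mem h))
          · exact fun h => hv (Finset.mem_insert_of_mem (Finset.mem_insert_of_mem h))

/-- `B` is independent in `G`. -/
def Indep (G : SimpleGraph V) (B : Finset V) : Prop := ∀ u ∈ B, ∀ v ∈ B, ¬ G.Adj u v

open Classical in
/-- Indicator function. -/
noncomputable def ind (p : Prop) : ℝ := if p then 1 else 0

lemma ind_nonneg (p : Prop) : 0 ≤ ind p := by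
  unfold ind; split_ifs <;> norm_num

lemma ind_true {p : Prop} (h : p) : ind p = 1 := by simp [ind, h]

lemma ind_false {p : Prop} (h : ¬ p) : ind p = 0 := by simp [ind, h]

/-- Pairs of distinct elements of `B`. -/
def inPairs (B : Finset V) : Finset (Sym2 V) := B.offDiag.image Sym2.mk.uncurry

lemma mem_inPairs {B : Finset V} {u v : V} : s(u, v) ∈ inPairs B ↔ u ∈ B ∧ v ∈ B ∧ u ≠ v := by
  simp only [inPairs, Finset.mem_image, Finset.mem_offDiag, Prod.exists, Function.uncurry_apply_pair,
    Sym2.eq_iff]
  constructor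
  · rintro ⟨a, b, ⟨h1, h2, h3⟩, ⟨rfl, rfl⟩ | ⟨rfl, rfl⟩⟩
    · exact ⟨h1, h2, h3⟩
    · exact ⟨h2, h1, h3.symm⟩
  · rintro ⟨h1, h2, h3⟩
    exact ⟨u, v, ⟨h1, h2, h3⟩, Or.inl ⟨rfl, rfl⟩⟩

lemma inPairs_card (B : Finset V) : (inPairs B).card = B.card.choose 2 :=
  Sym2.card_image_offDiag B

lemma inPairs_diag (B : Finset V) : ∀ z ∈ inPairs B, ¬ z.IsDiag := by
  intro z hz
  induction z with
  | _ u v =>
    rw [mem_inPairs] at hz
    simpa using hz.2.2

/-- Number of graphs on `V`, as a real number. -/
noncomputable def total (V : Type) [Fintype V] [DecidableEq V] : ℝ :=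
  ∑ _G : SimpleGraph V, (1 : ℝ)

lemma indep_res_iff {G : SimpleGraph V} {B : Finset V} {R : Finset (Sym2 V)}
    (hR : R ⊆ inPairs B) : Indep (res G (inPairs B) R) B ↔ R = ∅ := by
  constructor
  · intro h
    rw [Finset.eq_empty_iff_forall_notMem]
    intro z hz
    induction z with
    | _ u v =>
      have h1 := mem_inPairs.1 (hR hz)
      exact h u h1.1 v h1.2.1 ((res_adj_of_mem h1.2.2 (hR hz)).2 hz)
  · rintro rfl u hu v hv h
    have huv := h.ne
    rw [res_adj_of_mem huv (mem_inPairs.2 ⟨hu, hv, huv⟩)] at h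
    simp at h

lemma indep_res_disjoint {G : SimpleGraph V} {B B' : Finset V} (hd : Disjoint B B')
    {R : Finset (Sym2 V)} (hR : R ⊆ inPairs B) : Indep (res G (inPairs B) R) B' ↔ Indep G B' := by
  unfold Indep
  have h : ∀ u ∈ B', ∀ v ∈ B', ((res G (inPairs B) R).Adj u v ↔ G.Adj u v) := by
    intro u hu v hv
    refine res_adj_of_not_mem hR ?_
    rw [mem_inPairs]
    rintro ⟨h1, _, _⟩
    exact Finset.disjoint_left.1 hd h1 hu
  constructor
  · intro h1 u hu v hv h2
    exact h1 u hu v hv ((h u hu v hv).2 h2)
  · intro h1 u hu v hv h2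
    exact h1 u hu v hv ((h u hu v hv).1 h2)

lemma sum_indep (B : Finset V) :
    2 ^ (B.card.choose 2) * ∑ G : SimpleGraph V, ind (Indep G B) = total V := by
  classical
  rw [← inPairs_card, ← sum_res (inPairs B) (inPairs_diag B)]
  unfold total
  refine Finset.sum_congr rfl fun G _ => ?_
  have h1 : ∀ R ∈ (inPairs B).powerset, ind (Indep (res G (inPairs B) R) B) =
      if R = ∅ then 1 else 0 := by
    intro R hR
    rw [Finset.mem_powerset] at hR
    by_cases h : R = ∅
    · rw [if_pos h, ind_true ((indep_res_iff hR).2 h)]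
    · rw [if_neg h, ind_false (fun h' => h ((indep_res_iff hR).1 h'))]
  rw [Finset.sum_congr rfl h1]
  simp

lemma sum_no_indep {ι : Type} [DecidableEq ι] (B : ι → Finset V)
    (hd : ∀ i j, i ≠ j → Disjoint (B i) (B j)) {e : ℕ} (he : ∀ i, (B i).card.choose 2 = e)
    (J : Finset ι) :
    ∑ G : SimpleGraph V, ind (∀ j ∈ J, ¬ Indep G (B j)) = (1 - 1 / 2 ^ e) ^ J.card * total V := by
  classical
  induction J using Finset.induction_on with
  | empty =>
    simp only [Finset.card_empty, pow_zero, one_mul]
    unfold total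
    refine Finset.sum_congr rfl fun G _ => ind_true (by simp)
  | insert i J hi ih =>
    have h1 := sum_res (inPairs (B i)) (inPairs_diag (B i))
      (fun G => ind (∀ j ∈ insert i J, ¬ Indep G (B j)))
    rw [inPairs_card, he] at h1
    have h2 : ∀ G : SimpleGraph V, ∑ R ∈ (inPairs (B i)).powerset,
        ind (∀ j ∈ insert i J, ¬ Indep (res G (inPairs (B i)) R) (B j)) =
        (2 ^ e - 1) * ind (∀ j ∈ J, ¬ Indep G (B j)) := by
      intro G
      have h3 : ∀ R ∈ (inPairs (B i)).powerset,
          ind (∀ j ∈ insert i J, ¬ Indep (res G (inPairs (B i)) R) (B j)) =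
          ind (∀ j ∈ J, ¬ Indep G (B j)) - if R = ∅ then ind (∀ j ∈ J, ¬ Indep G (B j)) else 0 := by
        intro R hR
        rw [Finset.mem_powerset] at hR
        have h4 : (∀ j ∈ insert i J, ¬ Indep (res G (inPairs (B i)) R) (B j)) ↔
            (R ≠ ∅ ∧ ∀ j ∈ J, ¬ Indep G (B j)) := by
          rw [Finset.forall_mem_insert, indep_res_iff hR]
          refine and_congr Iff.rfl (forall₂_congr fun j hj => not_congr ?_)
          exact indep_res_disjoint (hd i j (fun h => hi (h ▸ hj))) hR
        by_cases hR0 : R = ∅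
        · rw [if_pos hR0, sub_self, ind_false]
          rw [h4]
          exact fun h => h.1 hR0
        · rw [if_neg hR0, sub_zero]
          unfold ind
          congr 1
          rw [h4]
          simp [hR0]
      rw [Finset.sum_congr rfl h3, Finset.sum_sub_distrib, Finset.sum_const, Finset.card_powerset,
        inPairs_card, he, nsmul_eq_mul, Finset.sum_ite_eq']
      rw [if_pos (Finset.empty_mem_powerset _)]
      push_cast
      ring
    rw [Finset.sum_congr rfl fun G _ => h2 G, ← Finset.mul_sum, ih] at h1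
    have hp : (0 : ℝ) < 2 ^ e := by positivity
    rw [Finset.card_insert_of_notMem hi, pow_succ]
    have h5 : ∑ G : SimpleGraph V, ind (∀ j ∈ insert i J, ¬ Indep G (B j)) =
        (2 ^ e - 1) * ((1 - 1 / 2 ^ e) ^ J.card * total V) / 2 ^ e := by
      rw [eq_div_iff hp.ne']
      linarith [h1]
    rw [h5]
    have h6 : (1 : ℝ) - 1 / 2 ^ e = (2 ^ e - 1) / 2 ^ e := by
      rw [sub_div, div_self hp.ne']
    generalize (1 - 1 / 2 ^ e : ℝ) ^ J.card = r
    rw [h6]
    ring

/-- The graph is even but not evenly splittable. -/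
def Bad (G : SimpleGraph V) : Prop := Even (inner G Finset.univ) ∧ ¬ EvenlySplittable G Set.univ

lemma fail_bound (B : Finset V) (hB : B ≠ Finset.univ) :
    ∑ G : SimpleGraph V, ind (Indep G B ∧ Bad G) ≤
      17 / 4 * (3 / 4) ^ B.card * ∑ G : SimpleGraph V, ind (Indep G B) := by
  classical
  set T : Finset V := Finset.univ \ B with hT
  have hTB : Disjoint T B := Finset.sdiff_disjoint
  have hTne : T.Nonempty := by
    rw [hT, Finset.sdiff_nonempty]
    exact fun h => hB (Finset.univ_subset_iff.1 h)
  have hTU : T ∪ B = Finset.univ := by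
    rw [hT]; exact Finset.sdiff_union_of_subset (Finset.subset_univ B)
  set w : SimpleGraph V → ℝ := fun G => ind (Indep G B) with hw
  have hw0 : ∀ G, 0 ≤ w G := fun G => ind_nonneg _
  have hinv : ∀ x : V, ∀ U : Finset V, U ⊆ T → ∀ G, ∀ N ⊆ U, w (resStar G x U N) = w G := by
    intro x U hU G N hN
    have h : ∀ u ∈ B, ∀ v ∈ B, ((resStar G x U N).Adj u v ↔ G.Adj u v) := by
      intro u hu v hv
      refine res_adj_of_not_mem (star_subset hN) ?_
      rw [mem_star]
      rintro (⟨_, h⟩ | ⟨_, h⟩)
      · exact Finset.disjoint_left.1 hTB (hU h) hv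
      · exact Finset.disjoint_left.1 hTB (hU h) hu
    have hiff : Indep (resStar G x U N) B ↔ Indep G B := by
      unfold Indep
      constructor
      · intro h1 u hu v hv h2
        exact h1 u hu v hv ((h u hu v hv).2 h2)
      · intro h1 u hu v hv h2
        exact h1 u hu v hv ((h u hu v hv).1 h2)
    exact congrArg ind (propext hiff)
  have p1 := phase_one w hw0 T (fun x _ U hU _ G N hN => hinv x U hU G N hN)
  have p2 := phase_two w hw0 T B hTB (fun x _ G N hN => hinv x T subset_rfl G N hN) (by
    intro G hG u hu v hv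
    by_contra hadj
    apply hG
    simp only [hw]
    exact ind_false (fun h => h u hu v hv hadj))
  have p3 : ∑ G : SimpleGraph V, w G * pot G T T ≤ ∑ G : SimpleGraph V, w G * 2 ^ mu G T T :=
    Finset.sum_le_sum fun G _ => mul_le_mul_of_nonneg_left (pot_le G T T le_rfl) (hw0 G)
  have p4 : ∀ G : SimpleGraph V, 2 * ind (Indep G B ∧ Bad G) ≤ w G * pot G (T ∪ B) T := by
    intro G
    by_cases h : Indep G B ∧ Bad G
    · obtain ⟨h1, h2, h3⟩ := h
      rw [ind_true ⟨h1, h2, h3⟩]
      simp only [hw]
      rw [ind_true h1, one_mul, hTU]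
      have hmu : mu G Finset.univ T ≠ 0 := by
        intro h0
        obtain ⟨S, _, hS, hcard⟩ := mu_spec G Finset.univ T
        rw [h0, Finset.card_eq_zero, Finset.sdiff_eq_empty_iff_subset] at hcard
        have hSes : EvenlySplittable G (S : Set V) := by
          rcases hS with rfl | hS
          · exfalso
            obtain ⟨t, ht⟩ := hTne
            have := hcard ht
            simp at this
          · exact hS
        apply h3
        refine finish h2 _ S rfl hSes ?_
        have hSB : ∀ u, u ∉ S → u ∈ B := by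
          intro u hu
          by_contra huB
          exact hu (hcard (by rw [hT]; exact Finset.mem_sdiff.2 ⟨Finset.mem_univ _, huB⟩))
        intro u hu v hv
        exact h1 u (hSB u hu) v (hSB v hv)
      unfold pot
      rw [if_neg hmu]
      calc (2 : ℝ) * 1 = 2 ^ 1 := by norm_num
        _ ≤ 2 ^ mu G Finset.univ T := pow_le_pow_right₀ (by norm_num) (by omega)
    · rw [ind_false h, mul_zero]
      exact mul_nonneg (hw0 G) (pot_nonneg _ _ _)
  have p5 := Finset.sum_le_sum fun G (_ : G ∈ (Finset.univ : Finset (SimpleGraph V))) => p4 G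
  rw [← Finset.mul_sum] at p5
  have hp : (0 : ℝ) ≤ (3 / 4) ^ B.card := by positivity
  have p6 := mul_le_mul_of_nonneg_left (p3.trans p1) hp
  have : ∑ G : SimpleGraph V, w G = ∑ G : SimpleGraph V, ind (Indep G B) := rfl
  rw [this] at p6
  linarith

/-- Union bound over disjoint blocks. -/
lemma bad_bound {ι : Type} [Fintype ι] [DecidableEq ι] (B : ι → Finset V)
    (hd : ∀ i j, i ≠ j → Disjoint (B i) (B j)) {m : ℕ} (hm : ∀ i, (B i).card = m)
    (hlt : m < Fintype.card V) :
    ∑ G : SimpleGraph V, ind (Bad G) ≤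
      ((1 - 1 / 2 ^ (m.choose 2)) ^ Fintype.card ι +
        Fintype.card ι * (17 / 4 * (3 / 4) ^ m * (1 / 2 ^ (m.choose 2)))) * total V := by
  classical
  have h1 : ∀ G : SimpleGraph V, ind (Bad G) ≤
      ind (∀ j ∈ (Finset.univ : Finset ι), ¬ Indep G (B j)) +
        ∑ i : ι, ind (Indep G (B i) ∧ Bad G) := by
    intro G
    by_cases hbad : Bad G
    · by_cases hall : ∀ j ∈ (Finset.univ : Finset ι), ¬ Indep G (B j)
      · rw [ind_true hall, ind_true hbad]
        have : 0 ≤ ∑ i : ι, ind (Indep G (B i) ∧ Bad G) :=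
          Finset.sum_nonneg fun _ _ => ind_nonneg _
        linarith
      · push Not at hall
        obtain ⟨i, _, hi⟩ := hall
        rw [ind_true hbad]
        have h2 : (1 : ℝ) ≤ ∑ i : ι, ind (Indep G (B i) ∧ Bad G) := by
          refine le_trans ?_ (Finset.single_le_sum (f := fun i => ind (Indep G (B i) ∧ Bad G))
            (fun _ _ => ind_nonneg _) (Finset.mem_univ i))
          rw [ind_true ⟨hi, hbad⟩]
        have := ind_nonneg (∀ j ∈ (Finset.univ : Finset ι), ¬ Indep G (B j))
        linarith
    · rw [ind_false hbad]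
      exact add_nonneg (ind_nonneg _) (Finset.sum_nonneg fun _ _ => ind_nonneg _)
  have h2 := Finset.sum_le_sum fun G (_ : G ∈ (Finset.univ : Finset (SimpleGraph V))) => h1 G
  rw [Finset.sum_add_distrib, sum_no_indep B hd (fun i => by rw [hm i]) Finset.univ,
    Finset.sum_comm, Finset.card_univ] at h2
  have h3 : ∀ i : ι, ∑ G : SimpleGraph V, ind (Indep G (B i) ∧ Bad G) ≤
      17 / 4 * (3 / 4) ^ m * (1 / 2 ^ (m.choose 2)) * total V := by
    intro i
    have h4 := fail_bound (B i) (fun h => by
      have := hm i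
      rw [h, Finset.card_univ] at this
      omega)
    have h5 := sum_indep (B i)
    rw [hm i] at h4 h5
    rw [← h5]
    refine h4.trans (le_of_eq ?_)
    have hp : (2 : ℝ) ^ (m.choose 2) ≠ 0 := by positivity
    field_simp
  have h6 : ∑ i : ι, ∑ G : SimpleGraph V, ind (Indep G (B i) ∧ Bad G) ≤
      Fintype.card ι * (17 / 4 * (3 / 4) ^ m * (1 / 2 ^ (m.choose 2)) * total V) := by
    have := Finset.sum_le_card_nsmul (Finset.univ : Finset ι) _ _ (fun i _ => h3 i)
    rwa [nsmul_eq_mul, Finset.card_univ] at this
  calc _ ≤ _ := h2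
    _ ≤ (1 - 1 / 2 ^ (m.choose 2)) ^ Fintype.card ι * total V +
        Fintype.card ι * (17 / 4 * (3 / 4) ^ m * (1 / 2 ^ (m.choose 2)) * total V) := by
        linarith
    _ = _ := by ring

end

/-- Blocks of consecutive vertices. -/
def block (k m : ℕ) (i : ℕ) : Finset (Fin k) :=
  Finset.univ.filter fun v => i * m ≤ v.1 ∧ v.1 < i * m + m

lemma block_card {k m N : ℕ} (hk : N * m ≤ k) {i : ℕ} (hi : i < N) : (block k m i).card = m := by
  have hle : i * m + m ≤ k := by
    calc i * m + m = (i + 1) * m := by ring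
      _ ≤ N * m := Nat.mul_le_mul_right m hi
      _ ≤ k := hk
  have h : block k m i = (Finset.Ico (i * m) (i * m + m)).attachFin (fun n hn => by
      have := (Finset.mem_Ico.1 hn).2
      omega) := by
    ext v
    simp [block]
  rw [h, Finset.card_attachFin, Nat.card_Ico]
  omega

lemma block_disjoint {k m i j : ℕ} (hij : i ≠ j) : Disjoint (block k m i) (block k m j) := by
  rw [Finset.disjoint_left]
  intro v hv hv'
  simp only [block, Finset.mem_filter, Finset.mem_univ, true_and] at hv hv'
  rcases lt_or_gt_of_ne hij with h | h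
  · have : i * m + m ≤ j * m := by
      calc i * m + m = (i + 1) * m := by ring
        _ ≤ j * m := Nat.mul_le_mul_right m h
    omega
  · have : j * m + m ≤ i * m := by
      calc j * m + m = (j + 1) * m := by ring
        _ ≤ i * m := Nat.mul_le_mul_right m h
    omega

lemma total_fin (k : ℕ) : total (Fin k) = 2 ^ (k.choose 2) := by
  unfold total
  rw [Finset.sum_const, Finset.card_univ, card_simpleGraph, nsmul_eq_mul, mul_one]
  push_cast
  rfl

/-- Almost every graph with an even number of edges is evenly splittable. -/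
theorem almost_all (ε : ℝ) (hε : 0 < ε) : ∃ K : ℕ, ∀ k : ℕ, K ≤ k →
    ({H : SimpleGraph (Fin k) | Even H.edgeSet.ncard ∧ ¬ EvenlySplittable H Set.univ}.ncard : ℝ) ≤
      ε * 2 ^ (k.choose 2) := by
  classical
  -- choose `m`
  have hlim : Filter.Tendsto (fun m : ℕ => Real.exp (-(m : ℝ)) +
      17 / 4 * ((m : ℝ) * (3 / 4) ^ m)) Filter.atTop (nhds (0 + 17 / 4 * 0)) := by
    refine Filter.Tendsto.add ?_ ?_
    · exact Real.tendsto_exp_neg_atTop_nhds_zero.comp tendsto_natCast_atTop_atTop
    · exact (tendsto_self_mul_const_pow_of_lt_one (by norm_num) (by norm_num)).const_mul _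
  rw [mul_zero, add_zero] at hlim
  obtain ⟨m, hm1, hm2⟩ := ((Filter.Eventually.and (hlim.eventually (gt_mem_nhds hε))
    (Filter.eventually_ge_atTop 1))).exists
  set q : ℕ := 2 ^ (m.choose 2) with hq
  set N : ℕ := q * m with hN
  have hq0 : 0 < q := by positivity
  have hqR : (0 : ℝ) < q := by exact_mod_cast hq0
  refine ⟨N * m + m + 1, fun k hk => ?_⟩
  have hb := bad_bound (V := Fin k) (ι := Fin N) (fun i => block k m i)
    (fun i j hij => block_disjoint (fun h => hij (Fin.ext h))) (m := m)
    (fun i => block_card (N := N) (by omega) i.2) (by rw [Fintype.card_fin]; omega)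
  rw [Fintype.card_fin, total_fin] at hb
  have h2 : ∑ G : SimpleGraph (Fin k), ind (Bad G) =
      ({H : SimpleGraph (Fin k) | Even H.edgeSet.ncard ∧ ¬ EvenlySplittable H Set.univ}.ncard : ℝ) := by
    have h3 : {H : SimpleGraph (Fin k) | Even H.edgeSet.ncard ∧ ¬ EvenlySplittable H Set.univ} =
        ((Finset.univ.filter fun H : SimpleGraph (Fin k) => Bad H : Finset _) : Set _) := by
      ext H
      simp only [Bad, inner_univ, Set.mem_ofPred_eq, Finset.coe_filter, Finset.mem_univ, true_and]
    rw [h3, Set.ncard_coe_finset, Finset.card_filter]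
    push_cast
    unfold ind
    rfl
  rw [← h2]
  refine hb.trans ?_
  refine mul_le_mul_of_nonneg_right ?_ (by positivity)
  have e1 : (1 - 1 / 2 ^ (m.choose 2) : ℝ) ^ N ≤ Real.exp (-(m : ℝ)) := by
    have h4 : (1 - 1 / 2 ^ (m.choose 2) : ℝ) ≤ Real.exp (-(1 / q : ℝ)) := by
      have := Real.add_one_le_exp (-(1 / q : ℝ))
      have h5 : (1 - 1 / 2 ^ (m.choose 2) : ℝ) = -(1 / q : ℝ) + 1 := by
        rw [hq]; push_cast; ring
      rw [h5]; exact this
    have h6 : (0 : ℝ) ≤ 1 - 1 / 2 ^ (m.choose 2) := by
      have : (1 : ℝ) ≤ 2 ^ (m.choose 2) := one_le_pow₀ (by norm_num)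
      rw [sub_nonneg, div_le_one (by positivity)]
      exact this
    calc (1 - 1 / 2 ^ (m.choose 2) : ℝ) ^ N ≤ Real.exp (-(1 / q : ℝ)) ^ N :=
          pow_le_pow_left₀ h6 h4 N
      _ = Real.exp (-(m : ℝ)) := by
          rw [← Real.exp_nat_mul, hN]
          congr 1
          push_cast
          field_simp
  have e2 : (N : ℝ) * (17 / 4 * (3 / 4) ^ m * (1 / 2 ^ (m.choose 2))) =
      17 / 4 * ((m : ℝ) * (3 / 4) ^ m) := by
    rw [hN]
    have : ((q * m : ℕ) : ℝ) = 2 ^ (m.choose 2) * m := by rw [hq]; push_cast; rfl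
    rw [this]
    have hp : (2 : ℝ) ^ (m.choose 2) ≠ 0 := by positivity
    field_simp
  rw [e2]
  linarith

end Pool.Agent.Lib.MP_2d96d7_co
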