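import Pool.Agent.Lib.MP_2d96d7_co.Defs

/-!
Greedy construction of even splittings; graphs without a complete graph on four vertices.
-/

namespace Pool.Agent.Lib.MP_2d96d7_co

open Finset

section

variable {V : Type} [DecidableEq V] (H : SimpleGraph V)

open Classical in
/-- Number of neighbours of `v` in `X`. -/
noncomputable def deg (v : V) (X : Finset V) : ℕ := #{u ∈ X | H.Adj u v}

open Classical in
/-- Number of edges inside `X`. -/
noncomputable def inner (X : Finset V) : ℕ := #{z ∈ X.sym2 | z ∈ H.edgeSet}

lemma crossing_eq (X Y : Finset V) :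
    {p : V × V | p.1 ∈ (X : Set V) ∧ p.2 ∈ (Y : Set V) ∧ H.Adj p.1 p.2}.ncard =
      ∑ v ∈ Y, deg H v X := by
  classical
  have h : {p : V × V | p.1 ∈ (X : Set V) ∧ p.2 ∈ (Y : Set V) ∧ H.Adj p.1 p.2} =
      ((Y.sigma fun v => X.filter fun u => H.Adj u v).image (fun s => (s.2, s.1)) : Finset (V × V)) := by
    ext ⟨u, v⟩
    simp only [Set.mem_ofPred_eq, Finset.coe_image, Set.mem_image, Finset.mem_coe,
      Finset.mem_sigma, Finset.mem_filter, Prod.mk.injEq]
    constructor
    · rintro ⟨hu, hv, huv⟩
      exact ⟨⟨v, u⟩, ⟨hv, hu, huv⟩, rfl, rfl⟩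
    · rintro ⟨⟨a, b⟩, ⟨h1, h2, h3⟩, rfl, rfl⟩
      exact ⟨h2, h1, h3⟩
  rw [h, Set.ncard_coe_finset, Finset.card_image_of_injective, Finset.card_sigma]
  · rfl
  · rintro ⟨a, b⟩ ⟨c, d⟩ h
    simp only [Prod.mk.injEq] at h
    obtain ⟨rfl, rfl⟩ := h
    rfl

lemma inner_insert {v : V} {X : Finset V} (hv : v ∉ X) :
    inner H (insert v X) = inner H X + deg H v X := by
  classical
  unfold inner deg
  have h : {z ∈ (insert v X).sym2 | z ∈ H.edgeSet} =
      {z ∈ X.sym2 | z ∈ H.edgeSet} ∪ ({u ∈ X | H.Adj u v}).image (fun u => s(u, v)) := by
    ext z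
    induction z with
    | _ a b =>
      simp only [Finset.mem_filter, Finset.mem_sym2_iff, Sym2.mem_iff, forall_eq_or_imp, forall_eq,
        Finset.mem_insert, SimpleGraph.mem_edgeSet, Finset.mem_union, Finset.mem_image, Sym2.eq_iff]
      constructor
      · rintro ⟨⟨rfl | ha, rfl | hb⟩, hab⟩
        · exact absurd rfl hab.ne
        · exact Or.inr ⟨b, ⟨hb, hab.symm⟩, Or.inr ⟨rfl, rfl⟩⟩
        · exact Or.inr ⟨a, ⟨ha, hab⟩, Or.inl ⟨rfl, rfl⟩⟩
        · exact Or.inl ⟨⟨ha, hb⟩, hab⟩
      · rintro (⟨⟨ha, hb⟩, hab⟩ | ⟨u, ⟨hu, huv⟩, ⟨rfl, rfl⟩ | ⟨rfl, rfl⟩⟩)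
        · exact ⟨⟨Or.inr ha, Or.inr hb⟩, hab⟩
        · exact ⟨⟨Or.inr hu, Or.inl rfl⟩, huv⟩
        · exact ⟨⟨Or.inl rfl, Or.inr hu⟩, huv.symm⟩
  rw [h, Finset.card_union_of_disjoint, Finset.card_image_of_injOn]
  · intro a _ b _ hab
    simp only [Sym2.eq_iff] at hab
    rcases hab with ⟨h1, _⟩ | ⟨h1, h2⟩
    · exact h1
    · rw [h1, h2]
  · rw [Finset.disjoint_left]
    intro z hz hz'
    simp only [Finset.mem_image, Finset.mem_filter] at hz hz'
    obtain ⟨u, _, rfl⟩ := hz'
    exact hv (Finset.mem_sym2_iff.1 hz.1 v (by simp))

lemma inner_empty : inner H ∅ = 0 := by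
  classical
  simp [inner]

lemma deg_self_insert (v : V) (X : Finset V) : deg H v (insert v X) = deg H v X := by
  classical
  unfold deg
  congr 1
  ext u
  simp only [Finset.mem_filter, Finset.mem_insert]
  constructor
  · rintro ⟨rfl | h, h2⟩
    · exact absurd rfl h2.ne
    · exact ⟨h, h2⟩
  · rintro ⟨h, h2⟩
    exact ⟨Or.inr h, h2⟩

lemma deg_insert {v u : V} {X : Finset V} (hu : u ∉ X) [Decidable (H.Adj u v)] :
    deg H v (insert u X) = deg H v X + if H.Adj u v then 1 else 0 := by
  classical
  unfold deg
  rw [Finset.filter_insert]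
  split_ifs with h
  · rw [Finset.card_insert_of_notMem]
    simp [hu]
  · simp

/-- Handshake lemma inside `X`. -/
lemma sum_deg (X : Finset V) : ∑ v ∈ X, deg H v X = 2 * inner H X := by
  classical
  induction X using Finset.induction_on with
  | empty => simp [inner_empty]
  | insert v X hv ih =>
    rw [Finset.sum_insert hv, inner_insert H hv, deg_self_insert]
    have h : ∑ u ∈ X, deg H u (insert v X) = ∑ u ∈ X, deg H u X + deg H v X := by
      have h1 : ∀ u ∈ X, deg H u (insert v X) = deg H u X + if H.Adj u v then 1 else 0 := by
        intro u hu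
        rw [deg_insert H hv]
        simp only [H.adj_comm]
      rw [Finset.sum_congr rfl h1, Finset.sum_add_distrib]
      congr 1
      unfold deg
      rw [Finset.card_filter]
    rw [h, ih]
    ring

lemma inner_univ [Fintype V] : inner H Finset.univ = H.edgeSet.ncard := by
  classical
  unfold inner
  rw [← Set.ncard_coe_finset]
  congr 1
  ext z
  simp

variable {H}

lemma es_add_vertex {S : Finset V} {v : V} (hS : EvenlySplittable H (S : Set V)) (hv : v ∉ S)
    (he : Even (deg H v S)) : EvenlySplittable H ((insert v S : Finset V) : Set V) := by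
  have h := EvenlySplittable.union hS (EvenlySplittable.single (H := H) v)
    (by simpa using hv) (by
      have := crossing_eq H S {v}
      rw [Finset.coe_singleton, Finset.sum_singleton] at this
      rw [this]; exact he)
  rw [Finset.coe_insert, Set.insert_eq, Set.union_comm]
  exact h

lemma es_pair {u v : V} (huv : u ≠ v) (hadj : ¬ H.Adj u v) :
    EvenlySplittable H ({u, v} : Set V) := by
  have h := EvenlySplittable.union (EvenlySplittable.single (H := H) u)
    (EvenlySplittable.single (H := H) v) (by simpa using huv) (by
      have : {p : V × V | p.1 ∈ ({u} : Set V) ∧ p.2 ∈ ({v} : Set V) ∧ H.Adj p.1 p.2} = ∅ := by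
        ext ⟨a, b⟩
        simp only [Set.mem_singleton_iff, Set.mem_ofPred_eq, Set.mem_empty_iff_false, iff_false]
        rintro ⟨rfl, rfl, h⟩
        exact hadj h
      rw [this]; simp)
  exact h

lemma es_add_pair {S : Finset V} {u v : V} (hS : EvenlySplittable H (S : Set V)) (hu : u ∉ S)
    (hv : v ∉ S) (huv : u ≠ v) (hadj : ¬ H.Adj u v) (he : Even (deg H u S + deg H v S)) :
    EvenlySplittable H ((insert u (insert v S) : Finset V) : Set V) := by
  have h := EvenlySplittable.union hS (es_pair huv hadj)
    (by
      rw [Set.disjoint_left]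
      rintro a ha (rfl | rfl)
      · exact hu ha
      · exact hv ha)
    (by
      have := crossing_eq H S {u, v}
      rw [Finset.coe_insert, Finset.coe_singleton, Finset.sum_pair huv] at this
      rw [this]; exact he)
  have h2 : ((insert u (insert v S) : Finset V) : Set V) = (S : Set V) ∪ {u, v} := by
    ext a
    simp only [Finset.coe_insert, Set.mem_insert_iff, Set.mem_union, Finset.mem_coe,
      Set.mem_singleton_iff]
    tauto
  rw [h2]
  exact h

/-- Every nonempty vertex set with an even number of inner edges and without a complete graph on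
four vertices is evenly splittable. -/
theorem es_of_cliqueFree (hH : H.CliqueFree 4) : ∀ (n : ℕ) (X : Finset V), X.card = n →
    X.Nonempty → Even (inner H X) → EvenlySplittable H (X : Set V) := by
  classical
  intro n
  induction n using Nat.strong_induction_on with
  | _ n ih =>
    intro X hX hne he
    by_cases hev : ∃ v ∈ X, Even (deg H v X)
    · -- remove a vertex of even degree
      obtain ⟨v, hv, hdeg⟩ := hev
      have hXv : insert v (X.erase v) = X := Finset.insert_erase hv
      have hvn : v ∉ X.erase v := by simp
      by_cases hem : X.erase v = ∅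
      · rw [hem] at hXv
        rw [← hXv]
        simpa using EvenlySplittable.single (H := H) v
      · have hdeg' : Even (deg H v (X.erase v)) := by
          rw [← deg_self_insert, hXv]; exact hdeg
        have hin : Even (inner H (X.erase v)) := by
          have h1 := inner_insert H hvn
          rw [hXv] at h1
          rw [h1] at he
          exact (Nat.even_add.1 he).2 hdeg'
        have hlt : (X.erase v).card < n := by
          rw [← hX]; exact Finset.card_erase_lt_of_mem hv
        have h2 := ih _ hlt (X.erase v) rfl (Finset.nonempty_iff_ne_empty.2 hem) hin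
        have h3 := es_add_vertex h2 hvn hdeg'
        rwa [hXv] at h3
    · have hodd : ∀ v ∈ X, Odd (deg H v X) := by
        intro v hv
        rw [← Nat.not_even_iff_odd]
        exact fun h => hev ⟨v, hv, h⟩
      by_cases hcl : ∀ u ∈ X, ∀ v ∈ X, u ≠ v → H.Adj u v
      · -- a clique: impossible
        exfalso
        have hd : ∀ v ∈ X, deg H v X = X.card - 1 := by
          intro v hv
          unfold deg
          have : {u ∈ X | H.Adj u v} = X.erase v := by
            ext u
            simp only [Finset.mem_filter, Finset.mem_erase]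
            constructor
            · rintro ⟨h1, h2⟩; exact ⟨h2.ne, h1⟩
            · rintro ⟨h1, h2⟩; exact ⟨h2, hcl u h2 v hv h1⟩
          rw [this, Finset.card_erase_of_mem hv]
        have hsum := sum_deg H X
        rw [Finset.sum_congr rfl hd, Finset.sum_const, smul_eq_mul] at hsum
        obtain ⟨v, hv⟩ := hne
        have ho := hodd v hv
        rw [hd v hv] at ho
        have hcard : X.card < 4 := by
          by_contra hlt
          push Not at hlt
          obtain ⟨Y, hY, hYc⟩ := Finset.exists_subset_card_eq hlt
          refine hH Y ⟨?_, hYc⟩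
          intro a ha b hb hab
          exact hcl a (hY ha) b (hY hb) hab
        have hpos : 0 < X.card := Finset.card_pos.2 ⟨v, hv⟩
        obtain ⟨k, hk⟩ := he
        obtain ⟨m, hm⟩ := ho
        have : X.card = 2 := by omega
        rw [this] at hsum
        omega
      · push Not at hcl
        obtain ⟨u, hu, v, hv, huv, hadj⟩ := hcl
        set S := (X.erase u).erase v with hS
        have hvS : v ∉ S := by simp [hS]
        have huS : u ∉ S := by simp [hS]
        have hvm : v ∈ X.erase u := Finset.mem_erase.2 ⟨huv.symm, hv⟩
        have e1 : insert v S = X.erase u := Finset.insert_erase hvm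
        have e2 : insert u (insert v S) = X := by rw [e1, Finset.insert_erase hu]
        have huvS : u ∉ insert v S := by rw [e1]; simp
        have hadj' : ¬ H.Adj v u := fun h => hadj h.symm
        have du : deg H u X = deg H u S := by
          rw [← e2, deg_self_insert, deg_insert H hvS, if_neg hadj', add_zero]
        have dv : deg H v X = deg H v S := by
          rw [← e2, Finset.insert_comm, deg_self_insert, deg_insert H huS, if_neg hadj, add_zero]
        have ou := hodd u hu
        have ov := hodd v hv
        rw [du] at ou
        rw [dv] at ov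
        have hSne : S.Nonempty := by
          rw [Finset.nonempty_iff_ne_empty]
          rintro h0
          rw [h0] at ou
          simp [deg] at ou
        have hin : Even (inner H S) := by
          have h1 := inner_insert H huvS
          rw [e2, inner_insert H hvS, deg_insert H hvS, if_neg hadj', add_zero] at h1
          rw [h1] at he
          have h3 : Even (deg H v S + deg H u S) := ov.add_odd ou
          rw [add_assoc] at he
          exact (Nat.even_add.1 he).2 h3
        have hlt : S.card < n := by
          rw [← hX, ← e2]
          rw [Finset.card_insert_of_notMem huvS, Finset.card_insert_of_notMem hvS]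
          omega
        have h2 := ih _ hlt S rfl hSne hin
        have h3 := es_add_pair h2 huS hvS huv hadj (ou.add_odd ov)
        rwa [e2] at h3

end

/-- Every graph with an even number of edges and without a complete graph on four vertices is
evenly splittable. -/
theorem es_univ_of_cliqueFree {V : Type} [Fintype V] [Nonempty V] {H : SimpleGraph V}
    (hH : H.CliqueFree 4) (he : Even H.edgeSet.ncard) : EvenlySplittable H Set.univ := by
  classical
  have h := es_of_cliqueFree hH _ Finset.univ rfl Finset.univ_nonempty
    (by rw [inner_univ]; exact he)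
  rwa [Finset.coe_univ] at h

end Pool.Agent.Lib.MP_2d96d7_co
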