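import Pool.Agent.Lib.MP_2d96d7_co.Clique

/-!
`K_4` is the hardest graph (the substitution is due to helper78).
-/

namespace Pool.Agent.Lib.MP_2d96d7_co

open Finset

set_option linter.unusedSectionVars false

section Subst

variable {I A E J : Type} [Fintype I] [DecidableEq I]

omit [Fintype I] [DecidableEq I] in
lemma enc_one (G : SimpleGraph I) (w : {z : Sym2 I // ¬ z.IsDiag}) (h : w.1 ∈ G.edgeSet) :
    enc G w = 1 := by
  classical
  unfold enc
  rw [if_pos h]

omit [Fintype I] [DecidableEq I] in
lemma enc_zero (G : SimpleGraph I) (w : {z : Sym2 I // ¬ z.IsDiag}) (h : w.1 ∉ G.edgeSet) :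
    enc G w = 0 := by
  classical
  unfold enc
  rw [if_neg h]

/-- extension of a vector by zero to diagonal pairs -/
def ext0 (x : Vec I) (z : Sym2 I) : ZMod 2 := if h : ¬ z.IsDiag then x ⟨z, h⟩ else 0

/-- degree modulo two -/
def degm (x : Vec I) (i : I) : ZMod 2 := ∑ k, ext0 x s(i, k)

lemma ext0_add (x y : Vec I) (z : Sym2 I) : ext0 (x + y) z = ext0 x z + ext0 y z := by
  unfold ext0
  split_ifs <;> simp

lemma degm_add (x y : Vec I) (i : I) : degm (x + y) i = degm x i + degm y i := by
  unfold degm
  rw [← Finset.sum_add_distrib]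
  exact Finset.sum_congr rfl fun k _ => ext0_add x y _

/-- the value of the image of `x` at a pair of vertices of types `p`, `q` -/
def psv (x : Vec I) : Option (Option I) → Option (Option I) → ZMod 2
  | some (some i), some (some j) => if i = j then degm x i else ext0 x s(i, j)
  | some (some i), some none => degm x i
  | some none, some (some i) => degm x i
  | some none, some none => 0
  | none, _ => 0
  | some _, none => 0

lemma psv_comm (x : Vec I) (p q : Option (Option I)) : psv x p q = psv x q p := by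
  rcases p with _ | _ | i <;> rcases q with _ | _ | j <;> simp only [psv]
  by_cases h : i = j
  · subst h; rfl
  · rw [if_neg h, if_neg (Ne.symm h), Sym2.eq_swap]

lemma psv_add (x y : Vec I) (p q : Option (Option I)) :
    psv (x + y) p q = psv x p q + psv y p q := by
  rcases p with _ | _ | i <;> rcases q with _ | _ | j <;>
    simp only [psv, add_zero, degm_add]
  by_cases h : i = j
  · rw [if_pos h, if_pos h, if_pos h]
  · rw [if_neg h, if_neg h, if_neg h, ext0_add]

/-- the substitution along the types `c` of the vertices -/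
def subst (c : J → Option (Option I)) (x : Vec I) : Vec J := fun w =>
  Sym2.lift ⟨fun u v => psv x (c u) (c v), fun _ _ => psv_comm x _ _⟩ w.1

lemma subst_add (c : J → Option (Option I)) (x y : Vec I) :
    subst c (x + y) = subst c x + subst c y := by
  funext w
  obtain ⟨z, hz⟩ := w
  induction z with
  | _ u v => exact psv_add x y (c u) (c v)

open Classical in
/-- the type of a vertex of `J` -/
noncomputable def typ (g : (I × A) ⊕ E ↪ J) (v : J) : Option (Option I) :=
  if h : ∃ p, g p = v then
    some (Sum.elim (fun q : I × A => some q.1) (fun _ => none) h.choose) else none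

lemma typ_inl (g : (I × A) ⊕ E ↪ J) (i : I) (k : A) :
    typ g (g (Sum.inl (i, k))) = some (some i) := by
  classical
  have h : ∃ p, g p = g (Sum.inl (i, k)) := ⟨_, rfl⟩
  have h2 : h.choose = Sum.inl (i, k) := g.injective h.choose_spec
  unfold typ
  rw [dif_pos h, h2]
  rfl

lemma typ_inr (g : (I × A) ⊕ E ↪ J) (e : E) :
    typ g (g (Sum.inr e)) = some none := by
  classical
  have h : ∃ p, g p = g (Sum.inr e) := ⟨_, rfl⟩
  have h2 : h.choose = Sum.inr e := g.injective h.choose_spec
  unfold typ
  rw [dif_pos h, h2]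
  rfl

lemma typ_none (g : (I × A) ⊕ E ↪ J) {v : J} (h : ¬ ∃ p, g p = v) : typ g v = none := by
  classical
  unfold typ
  rw [dif_neg h]

/-- the copy of the big complete graph -/
def cop (g : (I × A) ⊕ E ↪ J) (f : Fin 4 ↪ I) : (Fin 4 × A) ⊕ E ↪ J :=
  (Function.Embedding.sumMap (f.prodMap (Function.Embedding.refl A))
    (Function.Embedding.refl E)).trans g

open Classical in
lemma ext0_enc (G : SimpleGraph I) (i j : I) :
    ext0 (enc G) s(i, j) = if G.Adj i j then 1 else 0 := by
  unfold ext0 enc
  by_cases h : i = j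
  · subst h
    simp
  · rw [dif_pos (by simpa using h)]
    simp

open Classical in
lemma adj_map_top (f : Fin 4 ↪ I) (i j : I) :
    ((⊤ : SimpleGraph (Fin 4)).map f).Adj i j ↔ i ≠ j ∧ i ∈ Set.range f ∧ j ∈ Set.range f := by
  rw [SimpleGraph.map_adj]
  constructor
  · rintro ⟨u, v, huv, rfl, rfl⟩
    exact ⟨fun h => huv (f.injective h), ⟨u, rfl⟩, ⟨v, rfl⟩⟩
  · rintro ⟨h, ⟨u, rfl⟩, ⟨v, rfl⟩⟩
    exact ⟨u, v, fun h' => h (by rw [h']), rfl, rfl⟩

open Classical in
lemma degm_enc (f : Fin 4 ↪ I) (i : I) :
    degm (enc ((⊤ : SimpleGraph (Fin 4)).map f)) i = if i ∈ Set.range f then 1 else 0 := by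
  unfold degm
  simp only [ext0_enc, adj_map_top]
  by_cases hi : i ∈ Set.range f
  · rw [if_pos hi]
    rw [← Finset.sum_filter]
    have h1 : (Finset.univ.filter fun a : I => i ≠ a ∧ i ∈ Set.range f ∧ a ∈ Set.range f) =
        (Finset.univ.map f).erase i := by
      ext a
      simp only [Finset.mem_filter, Finset.mem_univ, true_and, Finset.mem_erase, Finset.mem_map,
        Set.mem_range]
      constructor
      · rintro ⟨h, _, h3⟩; exact ⟨h.symm, h3⟩
      · rintro ⟨h, h3⟩; exact ⟨h.symm, hi, h3⟩
    rw [h1, Finset.sum_const, Finset.card_erase_of_mem (by simpa using hi), Finset.card_map,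
      Finset.card_univ, Fintype.card_fin]
    decide
  · rw [if_neg hi]
    refine Finset.sum_eq_zero fun a _ => ?_
    rw [if_neg]
    tauto

open Classical in
lemma subst_top [Subsingleton E] (g : (I × A) ⊕ E ↪ J) (f : Fin 4 ↪ I) :
    subst (typ g) (enc ((⊤ : SimpleGraph (Fin 4)).map f)) =
      enc ((⊤ : SimpleGraph ((Fin 4 × A) ⊕ E)).map (cop g f)) := by
  funext w
  obtain ⟨z, hz⟩ := w
  induction z with
  | _ u v =>
    have huv : u ≠ v := by simpa using hz
    show psv _ (typ g u) (typ g v) = _
    have hcop1 : ∀ t k, cop g f (Sum.inl (t, k)) = g (Sum.inl (f t, k)) := fun t k => rfl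
    have hcop2 : ∀ e, cop g f (Sum.inr e) = g (Sum.inr e) := fun e => rfl
    have hrange : ∀ p : (I × A) ⊕ E, (∃ q, cop g f q = g p) ↔
        (∀ i k, p = Sum.inl (i, k) → i ∈ Set.range f) := by
      intro p
      constructor
      · rintro ⟨q, hq⟩ i k rfl
        rcases q with ⟨t, l⟩ | e
        · rw [hcop1] at hq
          have := g.injective hq
          simp only [Sum.inl.injEq, Prod.mk.injEq] at this
          exact ⟨t, this.1⟩
        · rw [hcop2] at hq
          have := g.injective hq
          simp at this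
      · intro h
        rcases p with ⟨i, k⟩ | e
        · obtain ⟨t, rfl⟩ := h i k rfl
          exact ⟨Sum.inl (t, k), rfl⟩
        · exact ⟨Sum.inr e, rfl⟩
    have hadj : (∃ a b, a ≠ b ∧ cop g f a = u ∧ cop g f b = v) ↔
        (∃ a, cop g f a = u) ∧ (∃ b, cop g f b = v) := by
      constructor
      · rintro ⟨a, b, _, h1, h2⟩; exact ⟨⟨a, h1⟩, ⟨b, h2⟩⟩
      · rintro ⟨⟨a, h1⟩, ⟨b, h2⟩⟩
        exact ⟨a, b, fun h => huv (by rw [← h1, ← h2, h]), h1, h2⟩
    have hR : enc ((⊤ : SimpleGraph ((Fin 4 × A) ⊕ E)).map (cop g f)) ⟨s(u, v), hz⟩ =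
        if ((∃ a, cop g f a = u) ∧ (∃ b, cop g f b = v)) then 1 else 0 := by
      by_cases h : ((∃ a, cop g f a = u) ∧ (∃ b, cop g f b = v))
      · rw [if_pos h]
        refine enc_one _ _ ?_
        obtain ⟨a, b, hab, h1, h2⟩ := hadj.2 h
        simp only [SimpleGraph.mem_edgeSet, SimpleGraph.map_adj, SimpleGraph.top_adj]
        exact ⟨a, b, hab, h1, h2⟩
      · rw [if_neg h]
        refine enc_zero _ _ ?_
        simp only [SimpleGraph.mem_edgeSet, SimpleGraph.map_adj, SimpleGraph.top_adj]
        rintro ⟨a, b, hab, h1, h2⟩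
        exact h ⟨⟨a, h1⟩, ⟨b, h2⟩⟩
    rw [hR]
    by_cases hu : ∃ p, g p = u
    · by_cases hv : ∃ q, g q = v
      · obtain ⟨p, rfl⟩ := hu
        obtain ⟨q, rfl⟩ := hv
        rw [hrange, hrange]
        rcases p with ⟨i, k⟩ | e <;> rcases q with ⟨j, l⟩ | e'
        · rw [typ_inl, typ_inl]
          simp only [psv, degm_enc, ext0_enc, adj_map_top]
          by_cases hij : i = j
          · subst hij
            by_cases hi : i ∈ Set.range f
            · rw [if_pos rfl, if_pos hi, if_pos]
              simp only [Sum.inl.injEq, Prod.mk.injEq]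
              refine ⟨?_, ?_⟩ <;> (rintro _ _ ⟨rfl, _⟩; exact hi)
            · rw [if_pos rfl, if_neg hi, if_neg]
              intro h
              exact hi (h.1 i k rfl)
          · rw [if_neg hij]
            by_cases hi : i ∈ Set.range f ∧ j ∈ Set.range f
            · rw [if_pos ⟨hij, hi⟩, if_pos]
              simp only [Sum.inl.injEq, Prod.mk.injEq]
              refine ⟨?_, ?_⟩
              · rintro _ _ ⟨rfl, _⟩; exact hi.1
              · rintro _ _ ⟨rfl, _⟩; exact hi.2
            · rw [if_neg (by tauto), if_neg]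
              intro h
              exact hi ⟨h.1 i k rfl, h.2 j l rfl⟩
        · rw [typ_inl, typ_inr]
          simp only [psv, degm_enc]
          by_cases hi : i ∈ Set.range f
          · rw [if_pos hi, if_pos]
            refine ⟨?_, ?_⟩
            · rintro _ _ h
              simp only [Sum.inl.injEq, Prod.mk.injEq] at h
              obtain ⟨rfl, _⟩ := h
              exact hi
            · rintro _ _ h
              simp at h
          · rw [if_neg hi, if_neg]
            intro h
            exact hi (h.1 i k rfl)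
        · rw [typ_inr, typ_inl]
          simp only [psv, degm_enc]
          by_cases hi : j ∈ Set.range f
          · rw [if_pos hi, if_pos]
            refine ⟨?_, ?_⟩
            · rintro _ _ h
              simp at h
            · rintro _ _ h
              simp only [Sum.inl.injEq, Prod.mk.injEq] at h
              obtain ⟨rfl, _⟩ := h
              exact hi
          · rw [if_neg hi, if_neg]
            intro h
            exact hi (h.2 j l rfl)
        · exact absurd (by rw [Subsingleton.elim e e']) huv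
      · rw [typ_none g hv, if_neg]
        · rcases typ g u with _ | _ | _ <;> rfl
        · rintro ⟨_, ⟨b, hb⟩⟩
          exact hv ⟨_, hb⟩
    · rw [typ_none g hu, if_neg]
      · rfl
      · rintro ⟨⟨b, hb⟩, _⟩
        exact hu ⟨_, hb⟩

end Subst

section Main

/-- If codes for `K_4` on `I` have density at most `ε`, then so have the codes for the big complete
graph on `J`. -/
theorem transfer {I A E J : Type} [Fintype I] [DecidableEq I] [Fintype J] [DecidableEq J]
    [Subsingleton E] [Nonempty A] (g : (I × A) ⊕ E ↪ J) (F : Finset (Vec J))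
    (hF : ∀ x ∈ F, ∀ y ∈ F, x ≠ y → ∀ f : (Fin 4 × A) ⊕ E ↪ J,
      x + y ≠ enc ((⊤ : SimpleGraph ((Fin 4 × A) ⊕ E)).map f)) {ε : ℝ}
    (hb : ∀ F' : Finset (Vec I), (∀ x ∈ F', ∀ y ∈ F', x ≠ y → ∀ f : Fin 4 ↪ I,
      x + y ≠ enc ((⊤ : SimpleGraph (Fin 4)).map f)) →
      (F'.card : ℝ) ≤ ε * Fintype.card (Vec I)) :
    (F.card : ℝ) ≤ ε * Fintype.card (Vec J) := by
  classical
  have h1 : ∀ v : Vec J, ((Finset.univ.filter fun x : Vec I => subst (typ g) x + v ∈ F).card : ℝ) ≤
      ε * Fintype.card (Vec I) := by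
    intro v
    refine hb _ fun x hx y hy hxy f hxyf => ?_
    have hx' := (Finset.mem_filter.1 hx).2
    have hy' := (Finset.mem_filter.1 hy).2
    have h2 : (subst (typ g) x + v) + (subst (typ g) y + v) =
        enc ((⊤ : SimpleGraph ((Fin 4 × A) ⊕ E)).map (cop g f)) := by
      rw [← subst_top, ← hxyf, subst_add]
      have : v + v = 0 := vec_add_self v
      calc (subst (typ g) x + v) + (subst (typ g) y + v)
          = subst (typ g) x + subst (typ g) y + (v + v) := by abel
        _ = _ := by rw [this, add_zero]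
    refine hF _ hx' _ hy' ?_ _ h2
    intro h3
    rw [h3, vec_add_self] at h2
    obtain ⟨k⟩ := (inferInstance : Nonempty A)
    have h4 : enc ((⊤ : SimpleGraph ((Fin 4 × A) ⊕ E)).map (cop g f))
        ⟨s(cop g f (Sum.inl (0, k)), cop g f (Sum.inl (1, k))), by simp⟩ = 1 := by
      refine enc_one _ _ ?_
      simp only [SimpleGraph.mem_edgeSet, SimpleGraph.map_adj, SimpleGraph.top_adj]
      exact ⟨_, _, by simp, rfl, rfl⟩
    rw [← h2, Pi.zero_apply] at h4
    exact absurd h4 (by decide)
  have h2 : ∑ v : Vec J, (Finset.univ.filter fun x : Vec I => subst (typ g) x + v ∈ F).card =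
      Fintype.card (Vec I) * F.card := by
    have : ∀ v : Vec J, (Finset.univ.filter fun x : Vec I => subst (typ g) x + v ∈ F).card =
        ∑ x : Vec I, if subst (typ g) x + v ∈ F then 1 else 0 := fun v => Finset.card_filter _ _
    rw [Finset.sum_congr rfl fun v _ => this v, Finset.sum_comm]
    have h3 : ∀ x : Vec I, ∑ v : Vec J, (if subst (typ g) x + v ∈ F then 1 else 0) = F.card := by
      intro x
      rw [← Equiv.sum_comp (Equiv.addLeft (-subst (typ g) x))]
      simp
    rw [Finset.sum_congr rfl fun x _ => h3 x, Finset.sum_const, Finset.card_univ, smul_eq_mul]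
  have h3 : (Fintype.card (Vec I) : ℝ) * F.card ≤
      Fintype.card (Vec J) * (ε * Fintype.card (Vec I)) := by
    rw [← Nat.cast_mul, ← h2]
    push_cast
    calc _ ≤ ∑ _v : Vec J, ε * Fintype.card (Vec I) := Finset.sum_le_sum fun v _ => h1 v
      _ = _ := by rw [Finset.sum_const, Finset.card_univ, nsmul_eq_mul]
  have h4 : (0 : ℝ) < Fintype.card (Vec I) := by exact_mod_cast Fintype.card_pos
  have h5 : (Fintype.card (Vec I) : ℝ) * F.card ≤
      Fintype.card (Vec I) * (ε * Fintype.card (Vec J)) := by
    calc _ ≤ _ := h3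
      _ = _ := by ring
  exact le_of_mul_le_mul_left h5 h4

lemma isCode_enc {V : Type} {H : SimpleGraph V} {n : ℕ} (F : Finset (SimpleGraph (Fin n))) :
    IsCode H F ↔ ∀ x ∈ encF F, ∀ y ∈ encF F, x ≠ y → ∀ f : V ↪ Fin n,
      x + y ≠ enc (H.map f) := by
  classical
  unfold IsCode encF
  simp only [Finset.mem_map, Function.Embedding.coeFn_mk]
  constructor
  · rintro h _ ⟨G, hG, rfl⟩ _ ⟨G', hG', rfl⟩ hne f he
    rw [enc_add] at he
    exact h G hG G' hG' (fun h' => hne (by rw [h'])) f (enc_injective he)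
  · rintro h G hG G' hG' hne f he
    refine h _ ⟨G, hG, rfl⟩ _ ⟨G', hG', rfl⟩ (fun h' => hne (enc_injective h')) f ?_
    rw [enc_add, he]

lemma exists_encF {n : ℕ} (F : Finset (Vec (Fin n))) : ∃ F' : Finset (SimpleGraph (Fin n)),
    encF F' = F := by
  classical
  refine ⟨Finset.univ.filter fun G => enc G ∈ F, ?_⟩
  ext x
  simp only [encF, Finset.mem_map, Finset.mem_filter, Finset.mem_univ, true_and,
    Function.Embedding.coeFn_mk]
  constructor
  · rintro ⟨G, hG, rfl⟩; exact hG
  · intro hx
    obtain ⟨G, rfl⟩ := enc_surjective x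
    exact ⟨G, hx, rfl⟩

/-- codes for the complete graph on `4 a + e` vertices (`e ≤ 1`) are at most as dense as codes for
`K_4` -/
theorem vanishes_clique (h : Vanishes (⊤ : SimpleGraph (Fin 4))) (a e : ℕ) (ha : 1 ≤ a)
    (he : e ≤ 1) : Vanishes (⊤ : SimpleGraph (Fin (4 * a + e))) := by
  classical
  have hA : Nonempty (Fin a) := ⟨⟨0, ha⟩⟩
  have hE : Subsingleton (Fin e) := by
    rcases Nat.le_one_iff_eq_zero_or_eq_one.1 he with rfl | rfl <;> infer_instance
  have e1 : (Fin 4 × Fin a) ⊕ Fin e ≃ Fin (4 * a + e) :=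
    (Equiv.sumCongr finProdFinEquiv (Equiv.refl _)).trans finSumFinEquiv
  refine vanishes_top_congr e1 ?_
  intro ε hε
  obtain ⟨N, hN⟩ := h ε hε
  refine ⟨N * a + e, fun n hn F hF => ?_⟩
  have e2 : (Fin N × Fin a) ⊕ Fin e ≃ Fin (N * a + e) :=
    (Equiv.sumCongr finProdFinEquiv (Equiv.refl _)).trans finSumFinEquiv
  have g : (Fin N × Fin a) ⊕ Fin e ↪ Fin n := e2.toEmbedding.trans (Fin.castLEEmb hn)
  have h1 := transfer g (encF F) ((isCode_enc F).1 hF) (ε := ε) ?_
  · rw [encF_card, vec_card, Fintype.card_fin] at h1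
    push_cast at h1
    exact h1
  · intro F' hF'
    obtain ⟨F'', rfl⟩ := exists_encF F'
    have h2 := hN N le_rfl F'' ((isCode_enc F'').2 hF')
    rw [encF_card, vec_card, Fintype.card_fin]
    push_cast
    exact h2

/-- `K_4` is the hardest graph. -/
theorem hardest (h : Vanishes (⊤ : SimpleGraph (Fin 4))) {V : Type} [Fintype V]
    (H : SimpleGraph V) (hne : H.edgeSet.Nonempty) (he : Even H.edgeSet.ncard) : Vanishes H := by
  rcases reduction H hne he with h1 | ⟨m, hm, hme, _, h1⟩
  · exact h1.vanishes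
  · refine h1 ?_
    have h2 : m % 4 ≤ 1 := by
      have h3 : 2 * m.choose 2 = m * (m - 1) := by
        rw [Nat.choose_two_right]
        exact Nat.mul_div_cancel' (Nat.even_mul_pred_self m).two_dvd
      obtain ⟨k, hk⟩ := hme
      rw [hk] at h3
      by_contra h4
      have h5 : m % 4 = 2 ∨ m % 4 = 3 := by omega
      obtain ⟨q, hq⟩ : ∃ q, m = 4 * q + m % 4 := ⟨m / 4, by omega⟩
      rcases h5 with h5 | h5
      · rw [h5] at hq
        subst hq
        have h6 : 4 * q + 2 - 1 = 4 * q + 1 := by omega
        rw [h6] at h3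
        have h7 : (4 * q + 2) * (4 * q + 1) = 4 * (4 * q * q + 3 * q) + 2 := by ring
        omega
      · rw [h5] at hq
        subst hq
        have h6 : 4 * q + 3 - 1 = 4 * q + 2 := by omega
        rw [h6] at h3
        have h7 : (4 * q + 3) * (4 * q + 2) = 4 * (4 * q * q + 5 * q + 1) + 2 := by ring
        omega
    have h3 := vanishes_clique h (m / 4) (m % 4) (by omega) h2
    have h4 : 4 * (m / 4) + m % 4 = m := by omega
    rw [h4] at h3
    exact h3

end Main

end Pool.Agent.Lib.MP_2d96d7_co
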