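import Pool.Agent.Lib.MP_2d96d7_co.CS

/-!
Mod-two push-forwards of a graph and the merging inequality.
-/

namespace Pool.Agent.Lib.MP_2d96d7_co

open Finset

section Vec

variable {I : Type*} [Fintype I] [DecidableEq I]

/-- Graphs on `I` as vectors over `ZMod 2` indexed by the pairs of distinct points. -/
abbrev Vec (I : Type*) := {z : Sym2 I // ¬ z.IsDiag} → ZMod 2

/-- The vector of one pair (zero for a diagonal pair). -/
def edgeVec (z : Sym2 I) : Vec I := fun w => if w.1 = z then 1 else 0

lemma edgeVec_diag {z : Sym2 I} (hz : z.IsDiag) : edgeVec z = 0 := by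
  funext w
  have h : w.1 ≠ z := fun h => w.2 (h ▸ hz)
  simp [edgeVec, h]

lemma vec_add_self (x : Vec I) : x + x = 0 := by
  funext w
  exact CharTwo.add_self_eq_zero (x w)

lemma vec_card : Fintype.card (Vec I) = 2 ^ (Fintype.card I).choose 2 := by
  classical
  rw [Fintype.card_fun, ZMod.card, Sym2.card_subtype_not_diag]

open Classical in
/-- The vector of a graph. -/
noncomputable def enc (G : SimpleGraph I) : Vec I := fun w => if w.1 ∈ G.edgeSet then 1 else 0

lemma enc_injective : Function.Injective (enc : SimpleGraph I → Vec I) := by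
  classical
  intro G G' h
  rw [← SimpleGraph.edgeSet_inj]
  ext z
  by_cases hz : z.IsDiag
  · constructor
    · intro h'; exact absurd hz (SimpleGraph.not_isDiag_of_mem_edgeSet _ h')
    · intro h'; exact absurd hz (SimpleGraph.not_isDiag_of_mem_edgeSet _ h')
  · have := congrFun h ⟨z, hz⟩
    simp only [enc] at this
    by_cases h1 : z ∈ G.edgeSet <;> by_cases h2 : z ∈ G'.edgeSet <;> simp_all

lemma enc_surjective : Function.Surjective (enc : SimpleGraph I → Vec I) := by
  classical
  intro x
  refine ⟨SimpleGraph.fromEdgeSet {z | ∃ h : ¬ z.IsDiag, x ⟨z, h⟩ = 1}, ?_⟩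
  funext w
  have hx : x w = 0 ∨ x w = 1 := by
    generalize x w = y
    revert y
    decide
  obtain ⟨z, hz⟩ := w
  simp only [enc, SimpleGraph.edgeSet_fromEdgeSet, Set.mem_diff, Set.mem_ofPred_eq]
  rcases hx with hx | hx
  · rw [if_neg, hx]
    rintro ⟨⟨_, h⟩, _⟩
    rw [hx] at h
    exact absurd h (by decide)
  · rw [if_pos, hx]
    exact ⟨⟨hz, hx⟩, by simpa [Sym2.mem_diagSet] using hz⟩

lemma enc_add (G G' : SimpleGraph I) : enc G + enc G' = enc ((G \ G') ⊔ (G' \ G)) := by
  classical
  funext w
  simp only [enc, Pi.add_apply, SimpleGraph.edgeSet_sup, SimpleGraph.edgeSet_sdiff,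
    Set.mem_union, Set.mem_diff]
  by_cases h1 : w.1 ∈ G.edgeSet <;> by_cases h2 : w.1 ∈ G'.edgeSet <;> simp [h1, h2]
  decide

end Vec

section EdgeSum

variable {W : Type*} [Fintype W] {I : Type*} [Fintype I] [DecidableEq I]

open Classical in
/-- Push-forward modulo two of the graph `H` along `φ` (loops are dropped). -/
noncomputable def edgeSum (H : SimpleGraph W) (φ : W → I) : Vec I :=
  ∑ z ∈ H.edgeFinset, edgeVec (z.map φ)

lemma edgeSum_eq_enc (H : SimpleGraph W) {φ : W → I} (hφ : Function.Injective φ) :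
    edgeSum H φ = enc (H.map φ) := by
  classical
  funext w
  unfold edgeSum enc
  rw [Finset.sum_apply]
  simp only [edgeVec]
  have hinj : Function.Injective (Sym2.map φ) := Sym2.map.injective hφ
  have hmem : (w.1 ∈ (H.map φ).edgeSet) ↔ ∃ z ∈ H.edgeSet, z.map φ = w.1 := by
    have := SimpleGraph.edgeSet_map ⟨φ, hφ⟩ H
    have h2 : (H.map φ).edgeSet = (fun z : Sym2 W => z.map φ) '' H.edgeSet := this
    rw [h2]
    rfl
  by_cases h : w.1 ∈ (H.map φ).edgeSet
  · obtain ⟨z, hz, hzw⟩ := hmem.1 h
    rw [if_pos h, Finset.sum_eq_single z]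
    · simp [hzw]
    · intro z' _ hne
      rw [if_neg]
      intro h'
      exact hne (hinj (h'.symm.trans hzw.symm))
    · intro h'
      exact absurd (SimpleGraph.mem_edgeFinset.2 hz) h'
  · rw [if_neg h]
    refine Finset.sum_eq_zero fun z hz => ?_
    rw [if_neg]
    intro h'
    exact h (hmem.2 ⟨z, SimpleGraph.mem_edgeFinset.1 hz, h'.symm⟩)

/-- Normalized density of the pairs `x`, `φ` with `x ∈ F` and `x + φ_*(ρ_* H) ∈ F`. -/
noncomputable def dens (F : Finset (Vec I)) (H : SimpleGraph W) {U : Type*} [Fintype U]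
    [DecidableEq U] (ρ : W → U) : ℝ :=
  (∑ φ : U → I, pairs F (edgeSum H (φ ∘ ρ))) /
    ((Fintype.card (U → I) : ℝ) * Fintype.card (Vec I))

lemma dens_nonneg (F : Finset (Vec I)) (H : SimpleGraph W) {U : Type*} [Fintype U]
    [DecidableEq U] (ρ : W → U) : 0 ≤ dens F H ρ := by
  unfold dens
  exact div_nonneg (Finset.sum_nonneg fun _ _ => pairs_nonneg _ _) (by positivity)

/-- The merging inequality. -/
theorem dens_merge [Nonempty I] (F : Finset (Vec I)) (H : SimpleGraph W) {U : Type*} [Fintype U]
    [DecidableEq U] (ρ : W → U) {p q : U} (hpq : p ≠ q)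
    (heven : Even {z ∈ H.edgeSet | Sym2.map ρ z = s(p, q)}.ncard) :
    dens F H (Function.update id q p ∘ ρ) ^ 2 ≤ dens F H ρ := by
  classical
  set g : (U → I) → I → I → U → I :=
    fun ψ a b => Function.update (Function.update ψ p a) q b with hg
  set K : (U → I) → I → I → Vec I := fun ψ a b => edgeSum H (g ψ a b ∘ ρ) with hK
  have hrect : ∀ z a a' b b', K z a b + K z a b' + K z a' b + K z a' b' = 0 := by
    intro ψ a a' b b'
    simp only [hK, edgeSum]
    rw [← Finset.sum_add_distrib, ← Finset.sum_add_distrib, ← Finset.sum_add_distrib]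
    rw [← Finset.sum_filter_add_sum_filter_not _ (fun z => Sym2.map ρ z = s(p, q))]
    have h1 : ∑ z ∈ H.edgeFinset with ¬ Sym2.map ρ z = s(p, q),
        (edgeVec (Sym2.map (g ψ a b ∘ ρ) z) + edgeVec (Sym2.map (g ψ a b' ∘ ρ) z) +
          edgeVec (Sym2.map (g ψ a' b ∘ ρ) z) + edgeVec (Sym2.map (g ψ a' b' ∘ ρ) z)) = 0 := by
      refine Finset.sum_eq_zero fun z hz => ?_
      have hz' : ¬ Sym2.map ρ z = s(p, q) := (Finset.mem_filter.1 hz).2
      induction z with
      | _ u v =>
        simp only [Sym2.map_mk, Function.comp] at hz' ⊢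
        by_cases hq : ρ u ≠ q ∧ ρ v ≠ q
        · -- independent of `b`
          have e1 : ∀ c d d', g ψ c d (ρ u) = g ψ c d' (ρ u) := by
            intro c d d'; simp [hg, Function.update_of_ne hq.1]
          have e2 : ∀ c d d', g ψ c d (ρ v) = g ψ c d' (ρ v) := by
            intro c d d'; simp [hg, Function.update_of_ne hq.2]
          rw [e1 a b b', e2 a b b', e1 a' b b', e2 a' b b', vec_add_self, zero_add, vec_add_self]
        · have hp : ρ u ≠ p ∧ ρ v ≠ p := by
            rw [not_and_or, not_not, not_not] at hq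
            constructor
            · intro hu
              rcases hq with hq | hq
              · exact hpq (hu.symm.trans hq)
              · exact hz' (by rw [hu, hq])
            · intro hv
              rcases hq with hq | hq
              · exact hz' (by rw [hv, hq, Sym2.eq_swap])
              · exact hpq (hv.symm.trans hq)
          have e0 : ∀ c c' d w, w ≠ p → g ψ c d w = g ψ c' d w := by
            intro c c' d w hw
            simp only [hg]
            by_cases hwq : w = q
            · subst hwq; simp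
            · simp [Function.update_of_ne hwq, Function.update_of_ne hw]
          rw [e0 a' a b _ hp.1, e0 a' a b _ hp.2, e0 a' a b' _ hp.1, e0 a' a b' _ hp.2]
          have : ∀ x y : Vec I, x + y + x + y = 0 := by
            intro x y
            have : x + y + x + y = (x + x) + (y + y) := by abel
            rw [this, vec_add_self, vec_add_self, add_zero]
          exact this _ _
    have h2 : ∀ z ∈ H.edgeFinset.filter (fun z => Sym2.map ρ z = s(p, q)),
        (edgeVec (Sym2.map (g ψ a b ∘ ρ) z) + edgeVec (Sym2.map (g ψ a b' ∘ ρ) z) +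
          edgeVec (Sym2.map (g ψ a' b ∘ ρ) z) + edgeVec (Sym2.map (g ψ a' b' ∘ ρ) z)) =
        (edgeVec (Sym2.map (g ψ a b) s(p, q)) + edgeVec (Sym2.map (g ψ a b') s(p, q)) +
          edgeVec (Sym2.map (g ψ a' b) s(p, q)) + edgeVec (Sym2.map (g ψ a' b') s(p, q))) := by
      intro z hz
      have hz' : Sym2.map ρ z = s(p, q) := (Finset.mem_filter.1 hz).2
      simp only [← Sym2.map_map, hz']
    rw [Finset.sum_congr rfl h2, h1, Finset.sum_const, add_zero]
    have h3 : (H.edgeFinset.filter (fun z => Sym2.map ρ z = s(p, q))).card =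
        {z ∈ H.edgeSet | Sym2.map ρ z = s(p, q)}.ncard := by
      rw [← Set.ncard_coe_finset]
      congr 1
      ext z
      simp
    rw [h3]
    obtain ⟨m, hm⟩ := heven
    rw [hm, ← two_mul, mul_comm, mul_nsmul, two_nsmul, vec_add_self]
  have hcs := cs_main vec_add_self F K hrect
  -- the two sums
  have hfull : ∑ ψ, ∑ a, ∑ b, pairs F (K ψ a b) =
      (Fintype.card I : ℝ) ^ 2 * ∑ φ : U → I, pairs F (edgeSum H (φ ∘ ρ)) := by
    calc ∑ ψ, ∑ a, ∑ b, pairs F (K ψ a b)
        = ∑ ψ : U → I, ∑ a : I, (fun χ : U → I => ∑ b, pairs F (edgeSum H (Function.update χ q b ∘ ρ)))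
            (Function.update ψ p a) := rfl
      _ = Fintype.card I * ∑ χ : U → I, ∑ b, pairs F (edgeSum H (Function.update χ q b ∘ ρ)) :=
          sum_update p (fun χ : U → I => ∑ b, pairs F (edgeSum H (Function.update χ q b ∘ ρ)))
      _ = Fintype.card I * (Fintype.card I * ∑ φ : U → I, pairs F (edgeSum H (φ ∘ ρ))) := by
          congr 1
          exact sum_update q (fun χ : U → I => pairs F (edgeSum H (χ ∘ ρ)))
      _ = _ := by ring
  have hdiag : ∑ ψ, ∑ a, pairs F (K ψ a a) =
      (Fintype.card I : ℝ) * ∑ φ : U → I, pairs F (edgeSum H (φ ∘ (Function.update id q p ∘ ρ))) := by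
    rw [← sum_update p]
    refine Finset.sum_congr rfl fun ψ _ => Finset.sum_congr rfl fun a _ => ?_
    simp only [hK]
    congr 2
    funext w
    simp only [hg, Function.comp]
    by_cases hw : ρ w = q
    · simp [hw]
    · simp [Function.update_of_ne hw]
  rw [hfull, hdiag] at hcs
  have hI : (0 : ℝ) < Fintype.card I := by exact_mod_cast Fintype.card_pos
  have hU : (0 : ℝ) < Fintype.card (U → I) := by exact_mod_cast Fintype.card_pos
  have hM : (0 : ℝ) < Fintype.card (Vec I) := by exact_mod_cast Fintype.card_pos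
  unfold dens
  rw [div_pow, div_le_div_iff₀ (by positivity) (by positivity)]
  set A := ∑ φ : U → I, pairs F (edgeSum H (φ ∘ (Function.update id q p ∘ ρ)))
  set B := ∑ φ : U → I, pairs F (edgeSum H (φ ∘ ρ))
  have h5 : A ^ 2 ≤ (Fintype.card (U → I) : ℝ) * Fintype.card (Vec I) * B := by
    have h6 : (Fintype.card I : ℝ) ^ 2 * A ^ 2 ≤
        (Fintype.card I : ℝ) ^ 2 * ((Fintype.card (U → I) : ℝ) * Fintype.card (Vec I) * B) := by
      calc (Fintype.card I : ℝ) ^ 2 * A ^ 2 = ((Fintype.card I : ℝ) * A) ^ 2 := by ring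
        _ ≤ _ := hcs
        _ = _ := by ring
    exact le_of_mul_le_mul_left h6 (by positivity)
  calc A ^ 2 * ((Fintype.card (U → I) : ℝ) * Fintype.card (Vec I))
      ≤ ((Fintype.card (U → I) : ℝ) * Fintype.card (Vec I) * B) *
        ((Fintype.card (U → I) : ℝ) * Fintype.card (Vec I)) :=
        mul_le_mul_of_nonneg_right h5 (by positivity)
    _ = _ := by ring

end EdgeSum

end Pool.Agent.Lib.MP_2d96d7_co
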