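import Pool.Agent.Lib.MP_2d96d7_co.Split

/-!
Partitions of the vertex set into evenly splittable classes with the smallest number of classes.
-/

namespace Pool.Agent.Lib.MP_2d96d7_co

open Finset

variable {V : Type}

/-- Number of edges between `X` and `Y`. -/
noncomputable def cross (H : SimpleGraph V) (X Y : Set V) : ℕ :=
  {p : V × V | p.1 ∈ X ∧ p.2 ∈ Y ∧ H.Adj p.1 p.2}.ncard

lemma cross_comm (H : SimpleGraph V) (X Y : Set V) : cross H X Y = cross H Y X := by
  unfold cross
  refine Set.ncard_congr (fun p _ => (p.2, p.1)) ?_ ?_ ?_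
  · rintro ⟨u, v⟩ ⟨h1, h2, h3⟩
    exact ⟨h2, h1, h3.symm⟩
  · rintro ⟨u, v⟩ ⟨u', v'⟩ _ _ h
    simp only [Prod.mk.injEq] at h
    rw [h.1, h.2]
  · rintro ⟨u, v⟩ ⟨h1, h2, h3⟩
    exact ⟨(v, u), ⟨h2, h1, h3.symm⟩, rfl⟩

lemma cross_union_left [Finite V] (H : SimpleGraph V) {X X' : Set V} (Y : Set V)
    (hd : Disjoint X X') : cross H (X ∪ X') Y = cross H X Y + cross H X' Y := by
  unfold cross
  rw [← Set.ncard_union_eq _ (Set.toFinite _) (Set.toFinite _)]
  · congr 1
    ext p
    simp only [Set.mem_ofPred_eq, Set.mem_union]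
    tauto
  · rw [Set.disjoint_left]
    rintro p ⟨h1, _⟩ ⟨h2, _⟩
    exact Set.disjoint_left.1 hd h1 h2

lemma adj_of_odd_cross {H : SimpleGraph V} {u v : V} (h : Odd (cross H {u} {v})) :
    H.Adj u v := by
  by_contra hadj
  have : {p : V × V | p.1 ∈ ({u} : Set V) ∧ p.2 ∈ ({v} : Set V) ∧ H.Adj p.1 p.2} = ∅ := by
    ext ⟨a, b⟩
    simp only [Set.mem_singleton_iff, Set.mem_ofPred_eq, Set.mem_empty_iff_false, iff_false]
    rintro ⟨rfl, rfl, h'⟩
    exact hadj h'
  unfold cross at h
  rw [this] at h
  simp at h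

lemma EvenlySplittable.cases_on' {H : SimpleGraph V} {X : Set V} (h : EvenlySplittable H X) :
    (∃ v, X = {v}) ∨ ∃ A B : Set V, EvenlySplittable H A ∧ EvenlySplittable H B ∧ Disjoint A B ∧
      X = A ∪ B := by
  cases h with
  | single v => exact Or.inl ⟨v, rfl⟩
  | union hX hY hXY he => exact Or.inr ⟨_, _, hX, hY, hXY, rfl⟩

/-- All classes of `c` are evenly splittable. -/
def IsPart {ι : Type} (H : SimpleGraph V) (c : V → ι) : Prop :=
  ∀ i, EvenlySplittable H (c ⁻¹' {i})

/-- There is a partition into `m` evenly splittable classes. -/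
def PartNum (H : SimpleGraph V) (m : ℕ) : Prop := ∃ c : V → Fin m, IsPart H c

lemma IsPart.partNum {ι : Type} [Fintype ι] {H : SimpleGraph V} {c : V → ι} (h : IsPart H c) :
    PartNum H (Fintype.card ι) := by
  refine ⟨fun v => Fintype.equivFin ι (c v), fun i => ?_⟩
  have h1 := h ((Fintype.equivFin ι).symm i)
  have : (fun v => Fintype.equivFin ι (c v)) ⁻¹' {i} = c ⁻¹' {(Fintype.equivFin ι).symm i} := by
    ext v
    simp [Equiv.eq_symm_apply]
  rw [this]
  exact h1

open Classical in
/-- Move the set `B` to the class `j`. -/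
noncomputable def move {ι : Type} (c : V → ι) (B : Set V) (j : ι) : V → ι :=
  fun v => if v ∈ B then j else c v

lemma move_isPart [Finite V] {ι : Type} {H : SimpleGraph V} {c : V → ι} (hc : IsPart H c)
    {i j : ι} (hij : i ≠ j) {A B : Set V} (hA : EvenlySplittable H A) (hB : EvenlySplittable H B)
    (hAB : Disjoint A B) (hi : c ⁻¹' {i} = A ∪ B) (he : Even (cross H B (c ⁻¹' {j}))) :
    IsPart H (move c B j) := by
  classical
  have hBi : ∀ v ∈ B, c v = i := fun v hv => by
    have : v ∈ c ⁻¹' {i} := by rw [hi]; exact Or.inr hv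
    exact this
  have hAi : ∀ v ∈ A, c v = i := fun v hv => by
    have : v ∈ c ⁻¹' {i} := by rw [hi]; exact Or.inl hv
    exact this
  intro k
  by_cases hk : k = i
  · subst hk
    have : move c B j ⁻¹' {k} = A := by
      ext v
      simp only [move, Set.mem_preimage, Set.mem_singleton_iff]
      by_cases hvB : v ∈ B
      · rw [if_pos hvB]
        exact ⟨fun h => absurd h.symm hij, fun h => absurd hvB (Set.disjoint_left.1 hAB h)⟩
      · rw [if_neg hvB]
        constructor
        · intro h
          have h2 : v ∈ c ⁻¹' {k} := h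
          rw [hi] at h2
          exact h2.resolve_right hvB
        · exact hAi v
    rw [this]
    exact hA
  · by_cases hkj : k = j
    · subst hkj
      have : move c B k ⁻¹' {k} = B ∪ c ⁻¹' {k} := by
        ext v
        simp only [move, Set.mem_preimage, Set.mem_singleton_iff, Set.mem_union]
        by_cases hvB : v ∈ B
        · simp [hvB]
        · simp [hvB]
      rw [this]
      refine EvenlySplittable.union hB (hc k) ?_ he
      rw [Set.disjoint_left]
      intro v hv hv'
      exact hij ((hBi v hv).symm.trans hv')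
    · have : move c B j ⁻¹' {k} = c ⁻¹' {k} := by
        ext v
        simp only [move, Set.mem_preimage, Set.mem_singleton_iff]
        by_cases hvB : v ∈ B
        · rw [if_pos hvB, hBi v hvB]
          exact ⟨fun h => absurd h.symm hkj, fun h => absurd h.symm hk⟩
        · rw [if_neg hvB]
      rw [this]
      exact hc k

lemma merge_partNum {ι : Type} [Fintype ι] [DecidableEq ι] {H : SimpleGraph V} {c : V → ι}
    (hc : IsPart H c) {i j : ι} (hij : i ≠ j) (he : Even (cross H (c ⁻¹' {i}) (c ⁻¹' {j}))) :
    PartNum H (Fintype.card ι - 1) := by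
  classical
  have h1 : Fintype.card {x : ι // x ≠ i} = Fintype.card ι - 1 := by
    simp [Fintype.card_subtype_compl]
  rw [← h1]
  let d : V → {x : ι // x ≠ i} := fun v => if h : c v = i then ⟨j, hij.symm⟩ else ⟨c v, h⟩
  refine IsPart.partNum (c := d) ?_
  rintro ⟨k, hk⟩
  by_cases hkj : k = j
  · subst hkj
    have : d ⁻¹' {⟨k, hk⟩} = c ⁻¹' {i} ∪ c ⁻¹' {k} := by
      ext v
      simp only [d, Set.mem_preimage, Set.mem_singleton_iff, Set.mem_union]
      by_cases hv : c v = i
      · simp [hv]
      · simp [hv, Subtype.ext_iff]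
    rw [this]
    refine EvenlySplittable.union (hc i) (hc k) ?_ he
    rw [Set.disjoint_left]
    intro v hv hv'
    exact hij (Eq.trans (Eq.symm hv) hv')
  · have : d ⁻¹' {⟨k, hk⟩} = c ⁻¹' {k} := by
      ext v
      simp only [d, Set.mem_preimage, Set.mem_singleton_iff]
      by_cases hv : c v = i
      · rw [dif_pos hv, Subtype.mk.injEq, hv]
        exact ⟨fun h => absurd h.symm hkj, fun h => absurd h.symm hk⟩
      · simp [hv, Subtype.ext_iff]
    rw [this]
    exact hc k

section Minimal

variable [Finite V] {H : SimpleGraph V} {m : ℕ} (hmin : ∀ m', PartNum H m' → m ≤ m')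

include hmin

omit [Finite V] in
lemma odd_cross {c : V → Fin m} (hc : IsPart H c) {i j : Fin m} (hij : i ≠ j) :
    Odd (cross H (c ⁻¹' {i}) (c ⁻¹' {j})) := by
  rw [← Nat.not_even_iff_odd]
  intro he
  have h := hmin _ (merge_partNum hc hij he)
  rw [Fintype.card_fin] at h
  have := i.pos
  omega

lemma dichotomy {c : V → Fin m} (hc : IsPart H c) {i : Fin m} {A B : Set V}
    (hA : EvenlySplittable H A) (hB : EvenlySplittable H B)
    (hAB : Disjoint A B) (hi : c ⁻¹' {i} = A ∪ B) :
    (∀ j, j ≠ i → Odd (cross H A (c ⁻¹' {j})) ∧ Even (cross H B (c ⁻¹' {j}))) ∨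
      (∀ j, j ≠ i → Even (cross H A (c ⁻¹' {j})) ∧ Odd (cross H B (c ⁻¹' {j}))) := by
  have hBi : ∀ v ∈ B, c v = i := fun v hv => by
    have : v ∈ c ⁻¹' {i} := by rw [hi]; exact Or.inr hv
    exact this
  have hsum : ∀ j, j ≠ i → Odd (cross H A (c ⁻¹' {j}) + cross H B (c ⁻¹' {j})) := by
    intro j hj
    rw [← cross_union_left H _ hAB, ← hi]
    exact odd_cross hmin hc hj.symm
  have hno : ∀ j₁ j₂, j₁ ≠ i → j₂ ≠ i → Even (cross H A (c ⁻¹' {j₁})) →
      Even (cross H B (c ⁻¹' {j₂})) → False := by
    intro j₁ j₂ h1 h2 e1 e2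
    by_cases hj : j₁ = j₂
    · subst hj
      exact (Nat.not_even_iff_odd.2 (hsum j₁ h1)) (e1.add e2)
    · have h3 := move_isPart hc h2.symm hA hB hAB hi e2
      have hfi : move c B j₂ ⁻¹' {i} = A := by
        classical
        ext v
        simp only [move, Set.mem_preimage, Set.mem_singleton_iff]
        by_cases hvB : v ∈ B
        · rw [if_pos hvB]
          exact ⟨fun h => absurd h h2, fun h => absurd hvB (Set.disjoint_left.1 hAB h)⟩
        · rw [if_neg hvB]
          constructor
          · intro h
            have h2 : v ∈ c ⁻¹' {i} := h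
            rw [hi] at h2
            exact h2.resolve_right hvB
          · intro h
            have : v ∈ c ⁻¹' {i} := by rw [hi]; exact Or.inl h
            exact this
      have hfj : move c B j₂ ⁻¹' {j₁} = c ⁻¹' {j₁} := by
        classical
        ext v
        simp only [move, Set.mem_preimage, Set.mem_singleton_iff]
        by_cases hvB : v ∈ B
        · rw [if_pos hvB, hBi v hvB]
          exact ⟨fun h => absurd h.symm hj, fun h => absurd h.symm h1⟩
        · rw [if_neg hvB]
      have h4 := odd_cross hmin h3 h1.symm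
      rw [hfi, hfj] at h4
      exact (Nat.not_even_iff_odd.2 h4) e1
  by_cases hex : ∃ j, j ≠ i ∧ Even (cross H A (c ⁻¹' {j}))
  · obtain ⟨j₁, h1, e1⟩ := hex
    right
    intro j hj
    have ho : Odd (cross H B (c ⁻¹' {j})) := by
      rw [← Nat.not_even_iff_odd]
      exact fun h => hno j₁ j h1 hj e1 h
    refine ⟨?_, ho⟩
    rw [← Nat.not_odd_iff_even]
    intro h
    exact (Nat.not_even_iff_odd.2 (hsum j hj)) (h.add_odd ho)
  · left
    intro j hj
    have ho : Odd (cross H A (c ⁻¹' {j})) := by
      rw [← Nat.not_even_iff_odd]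
      exact fun h => hex ⟨j, hj, h⟩
    refine ⟨ho, ?_⟩
    rw [← Nat.not_odd_iff_even]
    intro h
    exact (Nat.not_even_iff_odd.2 (hsum j hj)) (ho.add_odd h)

/-- In a partition with the smallest number `m ≥ 4` of classes there is a clique of size `m`. -/
theorem exists_clique (hm : 4 ≤ m) (hpart : PartNum H m) : ¬ H.CliqueFree m := by
  classical
  obtain ⟨c₀, hc₀⟩ := hpart
  let i₀ : Fin m := ⟨0, by omega⟩
  -- choose the partition with the largest class `i₀`
  have hfin : (Set.range fun c : {c : V → Fin m // IsPart H c} => (c.1 ⁻¹' {i₀}).ncard).Finite := by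
    refine Set.Finite.subset (Set.finite_Iic (Nat.card V)) ?_
    rintro _ ⟨c, rfl⟩
    exact Set.ncard_le_card _
  obtain ⟨⟨c, hc⟩, hmax⟩ : ∃ c : {c : V → Fin m // IsPart H c},
      ∀ d : {c : V → Fin m // IsPart H c}, (d.1 ⁻¹' {i₀}).ncard ≤ (c.1 ⁻¹' {i₀}).ncard := by
    have hne : (Set.range fun c : {c : V → Fin m // IsPart H c} =>
      (c.1 ⁻¹' {i₀}).ncard).Nonempty := ⟨_, ⟨⟨c₀, hc₀⟩, rfl⟩⟩
    obtain ⟨_, ⟨c, rfl⟩, hc⟩ := hfin.exists_maximal hne
    refine ⟨c, fun d => ?_⟩
    rcases le_total ((d.1 ⁻¹' {i₀}).ncard) ((c.1 ⁻¹' {i₀}).ncard) with h | h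
    · exact h
    · exact hc ⟨d, rfl⟩ h
  -- the other classes are single vertices
  have hsingle : ∀ i, i ≠ i₀ → ∃ v, c ⁻¹' {i} = {v} := by
    intro i hi
    rcases (hc i).cases_on' with h | ⟨A, B, hA, hB, hAB, hX⟩
    · exact h
    · exfalso
      have key : ∀ A B : Set V, EvenlySplittable H A → EvenlySplittable H B → Disjoint A B →
          c ⁻¹' {i} = A ∪ B → Even (cross H B (c ⁻¹' {i₀})) → False := by
        intro A B hA hB hAB hX he
        have h1 := hmax ⟨move c B i₀, move_isPart hc hi hA hB hAB hX he⟩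
        have hBi : ∀ v ∈ B, c v = i := fun v hv => by
          have : v ∈ c ⁻¹' {i} := by rw [hX]; exact Or.inr hv
          exact this
        have h2 : move c B i₀ ⁻¹' {i₀} = B ∪ c ⁻¹' {i₀} := by
          ext v
          simp only [move, Set.mem_preimage, Set.mem_singleton_iff, Set.mem_union]
          by_cases hvB : v ∈ B
          · simp [hvB]
          · simp [hvB]
        have h3 : Disjoint B (c ⁻¹' {i₀}) := by
          rw [Set.disjoint_left]
          intro v hv hv'
          exact hi ((hBi v hv).symm.trans hv')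
        simp only at h1
        rw [h2, Set.ncard_union_eq h3 (Set.toFinite _) (Set.toFinite _)] at h1
        have h4 : 0 < B.ncard := (Set.ncard_pos (Set.toFinite B)).2 hB.nonempty
        omega
      rcases dichotomy hmin hc hA hB hAB hX with h | h
      · exact key A B hA hB hAB hX (h i₀ hi.symm).2
      · exact key B A hB hA hAB.symm (by rw [hX, Set.union_comm]) (h i₀ hi.symm).1
  -- a vertex of the class `i₀` that is adjacent to all the other classes
  have hroot : ∃ x ∈ c ⁻¹' {i₀}, ∀ j, j ≠ i₀ → Odd (cross H {x} (c ⁻¹' {j})) := by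
    set X := c ⁻¹' {i₀} with hX
    let Q : Set V → Prop := fun A => A ⊆ X ∧ EvenlySplittable H A ∧
      ∀ j, j ≠ i₀ → IsPart H (move c (X \ A) j)
    have hQX : Q X := by
      refine ⟨subset_rfl, hc i₀, fun j _ => ?_⟩
      have : move c (X \ X) j = c := by
        funext v
        simp [move]
      rw [this]
      exact hc
    obtain ⟨A, hQA, hAmin⟩ : ∃ A, Q A ∧ ∀ A', Q A' → A.ncard ≤ A'.ncard := by
      have hne : ∃ k, ∃ A, Q A ∧ A.ncard = k := ⟨_, X, hQX, rfl⟩
      obtain ⟨A, hA, hk⟩ := Nat.find_spec hne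
      refine ⟨A, hA, fun A' hA' => ?_⟩
      rw [hk]
      exact Nat.find_min' hne ⟨A', hA', rfl⟩
    obtain ⟨hAX, hAes, hAp⟩ := hQA
    have hfib0 : ∀ j, j ≠ i₀ → move c (X \ A) j ⁻¹' {i₀} = A := by
      intro j hj
      ext v
      simp only [move, Set.mem_preimage, Set.mem_singleton_iff]
      by_cases hv : v ∈ X \ A
      · rw [if_pos hv]
        exact ⟨fun h => absurd h hj, fun h => absurd h hv.2⟩
      · rw [if_neg hv]
        constructor
        · intro h
          by_contra h'
          exact hv ⟨h, h'⟩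
        · intro h
          exact hAX h
    have hfibl : ∀ j l, l ≠ i₀ → l ≠ j → move c (X \ A) j ⁻¹' {l} = c ⁻¹' {l} := by
      intro j l hl hlj
      ext v
      simp only [move, Set.mem_preimage, Set.mem_singleton_iff]
      by_cases hv : v ∈ X \ A
      · rw [if_pos hv]
        have : c v = i₀ := hv.1
        rw [this]
        exact ⟨fun h => absurd h.symm hlj, fun h => absurd h.symm hl⟩
      · rw [if_neg hv]
    have hthird : ∀ j j' : Fin m, ∃ l : Fin m, l ≠ i₀ ∧ l ≠ j ∧ l ≠ j' := by
      intro j j'
      by_contra hno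
      push Not at hno
      have hsub : (Finset.univ : Finset (Fin m)) ⊆ {i₀, j, j'} := by
        intro l _
        simp only [Finset.mem_insert, Finset.mem_singleton]
        by_cases h1 : l = i₀
        · exact Or.inl h1
        · by_cases h2 : l = j
          · exact Or.inr (Or.inl h2)
          · exact Or.inr (Or.inr (hno l h1 h2))
      have h5 := Finset.card_le_card hsub
      have h6 : ({i₀, j, j'} : Finset (Fin m)).card ≤ 3 := Finset.card_le_three
      rw [Finset.card_univ, Fintype.card_fin] at h5
      omega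
    rcases hAes.cases_on' with ⟨x, hx⟩ | ⟨A', B', hA', hB', hAB', hAu⟩
    · subst hx
      refine ⟨x, hAX rfl, fun l hl => ?_⟩
      obtain ⟨j, hj0, hjl, _⟩ := hthird l l
      have h1 := odd_cross hmin (hAp j hj0) (i := i₀) (j := l) hl.symm
      rw [hfib0 j hj0, hfibl j l hl hjl.symm] at h1
      exact h1
    · exfalso
      have key : ∀ A' B' : Set V, EvenlySplittable H A' → EvenlySplittable H B' →
          Disjoint A' B' → A = A' ∪ B' → (∀ j, j ≠ i₀ → ∀ l, l ≠ i₀ →
            Odd (cross H A' (move c (X \ A) j ⁻¹' {l})) ∧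
            Even (cross H B' (move c (X \ A) j ⁻¹' {l}))) → False := by
        intro A' B' hA' hB' hAB' hAu hall
        have hQ' : Q A' := by
          refine ⟨fun v hv => hAX (by rw [hAu]; exact Or.inl hv), hA', fun j hj => ?_⟩
          have h1 := move_isPart (hAp j hj) hj.symm hA' hB' hAB' (by rw [hfib0 j hj, hAu])
            (hall j hj j hj).2
          have h2 : move (move c (X \ A) j) B' j = move c (X \ A') j := by
            funext v
            simp only [move]
            by_cases hvB : v ∈ B'
            · have hvX : v ∈ X := hAX (by rw [hAu]; exact Or.inr hvB)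
              have hvA' : v ∉ A' := fun h => Set.disjoint_left.1 hAB' h hvB
              rw [if_pos hvB, if_pos ⟨hvX, hvA'⟩]
            · rw [if_neg hvB]
              have : v ∈ X \ A ↔ v ∈ X \ A' := by
                rw [hAu]
                simp only [Set.mem_sdiff, Set.mem_union, hvB, or_false]
              by_cases hvA : v ∈ X \ A
              · rw [if_pos hvA, if_pos (this.1 hvA)]
              · rw [if_neg hvA, if_neg (fun h => hvA (this.2 h))]
          rw [← h2]
          exact h1
        have h3 := hAmin A' hQ'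
        rw [hAu, Set.ncard_union_eq hAB' (Set.toFinite _) (Set.toFinite _)] at h3
        have h4 : 0 < B'.ncard := (Set.ncard_pos (Set.toFinite B')).2 hB'.nonempty
        omega
      -- the same alternative holds for all `j`
      have hdic : ∀ j, j ≠ i₀ → _ := fun j hj =>
        dichotomy hmin (hAp j hj) hA' hB' hAB' (i := i₀) (by rw [hfib0 j hj, hAu])
      obtain ⟨j₀, hj₀, _, _⟩ := hthird i₀ i₀
      rcases hdic j₀ hj₀ with h0 | h0
      · refine key A' B' hA' hB' hAB' hAu fun j hj l hl => ?_
        rcases hdic j hj with h | h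
        · exact h l hl
        · exfalso
          obtain ⟨l', hl0, hl1, hl2⟩ := hthird j₀ j
          have e1 := (h0 l' hl0).1
          have e2 := (h l' hl0).1
          rw [hfibl _ _ hl0 hl1] at e1
          rw [hfibl _ _ hl0 hl2] at e2
          exact (Nat.not_even_iff_odd.2 e1) e2
      · refine key B' A' hB' hA' hAB'.symm (by rw [hAu, Set.union_comm]) fun j hj l hl => ?_
        rcases hdic j hj with h | h
        · exfalso
          obtain ⟨l', hl0, hl1, hl2⟩ := hthird j₀ j
          have e1 := (h0 l' hl0).1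
          have e2 := (h l' hl0).1
          rw [hfibl _ _ hl0 hl1] at e1
          rw [hfibl _ _ hl0 hl2] at e2
          exact (Nat.not_even_iff_odd.2 e2) e1
        · exact ⟨(h l hl).2, (h l hl).1⟩
  obtain ⟨x, hxX, hx⟩ := hroot
  have hVne : Nonempty V := ⟨x⟩
  choose! g hg using hsingle
  let f : Fin m → V := fun i => if i = i₀ then x else g i
  have hfc : ∀ i, c (f i) = i := by
    intro i
    by_cases hi : i = i₀
    · simp only [f, if_pos hi, hi]; exact hxX
    · simp only [f, if_neg hi]
      have : g i ∈ c ⁻¹' {i} := by rw [hg i hi]; rfl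
      exact this
  have hadj : ∀ i j, i ≠ j → H.Adj (f i) (f j) := by
    have h0 : ∀ j, j ≠ i₀ → H.Adj x (g j) := by
      intro j hj
      have := hx j hj
      rw [hg j hj] at this
      exact adj_of_odd_cross this
    intro i j hij
    by_cases hi : i = i₀
    · have hj : j ≠ i₀ := fun h => hij (hi.trans h.symm)
      simp only [f, if_pos hi, if_neg hj]
      exact h0 j hj
    · by_cases hj : j = i₀
      · simp only [f, if_pos hj, if_neg hi]
        exact (h0 i hi).symm
      · simp only [f, if_neg hi, if_neg hj]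
        have := odd_cross hmin hc hij
        rw [hg i hi, hg j hj] at this
        exact adj_of_odd_cross this
  have hinj : Function.Injective f := fun i j h => by
    rw [← hfc i, ← hfc j, h]
  intro hfree
  refine hfree (Finset.univ.image f) ⟨?_, ?_⟩
  · intro a ha b hb hab
    simp only [Finset.coe_image, Finset.coe_univ, Set.image_univ, Set.mem_range] at ha hb
    obtain ⟨i, rfl⟩ := ha
    obtain ⟨j, rfl⟩ := hb
    exact hadj i j (fun h => hab (by rw [h]))
  · rw [Finset.card_image_of_injective _ hinj, Finset.card_univ, Fintype.card_fin]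

end Minimal

end Pool.Agent.Lib.MP_2d96d7_co
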