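import Pool.Agent.Lib.MP_2d96d7_co.Random

/-!
The two phases of the exposure process: exponential moment of the number of missed vertices, and
absorption with the help of a fresh independent set.
-/

namespace Pool.Agent.Lib.MP_2d96d7_co

open Finset

variable {V : Type} [Fintype V] [DecidableEq V]

lemma mu_resStar (G : SimpleGraph V) {x : V} {U₀ N : Finset V} (hN : N ⊆ U₀)
    {U : Finset V} (hx : x ∉ U) (T : Finset V) : mu (resStar G x U₀ N) U T = mu G U T := by
  refine mu_congr _ T fun u hu v hv => ?_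
  exact resStar_adj_of_ne hN (fun h => hx (h ▸ hu)) (fun h => hx (h ▸ hv))

lemma deg_congr {G G' : SimpleGraph V} {v : V} {S : Finset V}
    (h : ∀ u ∈ S, G.Adj u v ↔ G'.Adj u v) : deg G v S = deg G' v S := by
  classical
  unfold deg
  congr 1
  exact Finset.filter_congr h

/-- Numerical bound. -/
lemma two_pow_le {l a k : ℕ} (h : k ≤ max (l - a - a) (a - (l - a)) + 1) (hal : a ≤ l) :
    (2 : ℝ) ^ k ≤ 2 * ((4 : ℝ) ^ a / 2 ^ l + 2 ^ l * (1 / 4) ^ a) := by
  have h4 : (4 : ℝ) ^ a = 2 ^ a * 2 ^ a := by
    rw [← mul_pow]; norm_num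
  have h4' : ((1 : ℝ) / 4) ^ a = 1 / (2 ^ a * 2 ^ a) := by
    rw [← h4, div_pow, one_pow]
  have hp : ∀ n : ℕ, (0 : ℝ) < 2 ^ n := fun n => by positivity
  have h1 : (2 : ℝ) ^ k ≤ 2 * 2 ^ (max (l - a - a) (a - (l - a))) := by
    calc (2 : ℝ) ^ k ≤ 2 ^ (max (l - a - a) (a - (l - a)) + 1) :=
          pow_le_pow_right₀ (by norm_num) h
      _ = 2 * 2 ^ (max (l - a - a) (a - (l - a))) := by rw [pow_succ]; ring
  refine h1.trans ?_
  have h2 : (2 : ℝ) ^ (max (l - a - a) (a - (l - a))) ≤
      (4 : ℝ) ^ a / 2 ^ l + 2 ^ l * (1 / 4) ^ a := by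
    rw [h4, h4']
    rcases le_total (2 * a) l with h3 | h3
    · have e1 : max (l - a - a) (a - (l - a)) = l - 2 * a := by omega
      have e2 : (2 : ℝ) ^ l = 2 ^ (l - 2 * a) * (2 ^ a * 2 ^ a) := by
        rw [← pow_add, ← pow_add]; congr 1; omega
      rw [e1]
      have e3 : (2 : ℝ) ^ l * (1 / (2 ^ a * 2 ^ a)) = 2 ^ (l - 2 * a) := by
        rw [e2]; field_simp
      rw [e3]
      have : (0 : ℝ) ≤ 2 ^ a * 2 ^ a / 2 ^ l := by positivity
      linarith
    · have e1 : max (l - a - a) (a - (l - a)) = 2 * a - l := by omega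
      have e2 : (2 : ℝ) ^ a * 2 ^ a = 2 ^ (2 * a - l) * 2 ^ l := by
        rw [← pow_add, ← pow_add]; congr 1; omega
      rw [e1]
      have e3 : (2 : ℝ) ^ a * 2 ^ a / 2 ^ l = 2 ^ (2 * a - l) := by
        rw [e2]; field_simp
      rw [e3]
      have : (0 : ℝ) ≤ 2 ^ l * (1 / (2 ^ a * 2 ^ a)) := by positivity
      linarith
  linarith

/-- One step of the first phase, for a fixed graph. -/
lemma phase_one_bound (G : SimpleGraph V) {x : V} {U : Finset V} (hx : x ∉ U) :
    ∑ N ∈ U.powerset, (2 : ℝ) ^ mu (resStar G x U N) (insert x U) (insert x U) ≤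
      2 ^ U.card * (1 / 2 * 2 ^ mu G U U + 17 / 4) := by
  classical
  obtain ⟨S, hSU, hS, hcard⟩ := mu_spec G U U
  set l := mu G U U with hl
  set L := U \ S with hL
  have hLU : L ⊆ U := Finset.sdiff_subset
  have hpt : ∀ N ∈ U.powerset, (2 : ℝ) ^ mu (resStar G x U N) (insert x U) (insert x U) ≤
      2 * ((4 : ℝ) ^ (N ∩ L).card / 2 ^ l + 2 ^ l * (1 / 4) ^ (N ∩ L).card) := by
    intro N hN
    rw [Finset.mem_powerset] at hN
    set G' := resStar G x U N with hG'
    have hal : (N ∩ L).card ≤ l := by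
      rw [← hcard]; exact Finset.card_le_card Finset.inter_subset_right
    refine two_pow_le ?_ hal
    have hne : ∀ u ∈ U, u ≠ x := fun u hu h => hx (h ▸ hu)
    have hagree : ∀ u ∈ U, ∀ v ∈ U, G.Adj u v ↔ G'.Adj u v := fun u hu v hv =>
      (resStar_adj_of_ne hN (hne u hu) (hne v hv)).symm
    have hadjx : ∀ u ∈ U, G'.Adj u x ↔ u ∈ N := fun u hu =>
      resStar_adj_left (hne u hu) hu
    have ha : #{v ∈ U \ S | G'.Adj v x} = (N ∩ L).card := by
      congr 1
      ext v
      simp only [Finset.mem_filter, Finset.mem_inter, hL, Finset.mem_sdiff]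
      constructor
      · rintro ⟨⟨h1, h2⟩, h3⟩
        exact ⟨(hadjx v h1).1 h3, h1, h2⟩
      · rintro ⟨h1, h2, h3⟩
        exact ⟨⟨h2, h3⟩, (hadjx v h2).2 h1⟩
    have hmono : ∀ S' : Finset V, x ∈ S' → (insert x U) \ S' = U \ S' := by
      intro S' h
      rw [Finset.insert_sdiff_of_mem _ h]
    by_cases hl0 : l = 0
    · have h1 := mu_le G' (U := insert x U) (T := insert x U) (S := S)
        (hSU.trans (Finset.subset_insert _ _))
        (hS.imp id fun h => h.congr fun u hu v hv => hagree u (hSU hu) v (hSU hv))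
      have h2 : ((insert x U) \ S).card ≤ 1 := by
        have h3 : U \ S = ∅ := by
          rw [← Finset.card_eq_zero, hcard, hl0]
        have h4 : (insert x U) \ S ⊆ {x} := by
          intro w hw
          rw [Finset.mem_sdiff, Finset.mem_insert] at hw
          rcases hw with ⟨rfl | hw, hw2⟩
          · simp
          · exfalso
            have : w ∈ U \ S := Finset.mem_sdiff.2 ⟨hw, hw2⟩
            rw [h3] at this
            simp at this
        simpa using Finset.card_le_card h4
      omega
    · have hlpos : 0 < mu G U U := by omega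
      obtain ⟨hSes, _, hodd, hcl⟩ := mu_structure G subset_rfl hSU hS hcard hlpos
      have hSes' : EvenlySplittable G' (S : Set V) :=
        hSes.congr fun u hu v hv => hagree u (hSU hu) v (hSU hv)
      have hodd' : ∀ v ∈ U \ S, ¬ Even (deg G' v S) := by
        intro v hv
        rw [← deg_congr (fun u hu => hagree u (hSU hu) v (Finset.mem_sdiff.1 hv).1)]
        exact hodd v hv
      have hcl' : ∀ u ∈ U \ S, ∀ v ∈ U \ S, u ≠ v → G'.Adj u v := fun u hu v hv huv =>
        (hagree u (Finset.mem_sdiff.1 hu).1 v (Finset.mem_sdiff.1 hv).1).1 (hcl u hu v hv huv)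
      obtain ⟨hc1, hc2⟩ := step_core G' hx subset_rfl hSU hSes' hodd' hcl' hcard ha
      by_cases hev : Even (deg G' x S)
      · obtain ⟨S', h1, h2, h3, h4⟩ := hc1 hev
        have h5 := mu_le G' (T := insert x U) h1 (Or.inr h3)
        rw [hmono S' h2] at h5
        omega
      · by_cases hlt : (N ∩ L).card < l
        · obtain ⟨S', h1, h2, h3, h4⟩ := hc2 hev hlt
          have h5 := mu_le G' (T := insert x U) h1 (Or.inr h3)
          rw [hmono S' h2] at h5
          omega
        · have h5 := mu_le G' (U := insert x U) (T := insert x U) (S := S)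
            (hSU.trans (Finset.subset_insert _ _)) (Or.inr hSes')
          have h6 : ((insert x U) \ S).card ≤ l + 1 := by
            have h7 : (insert x U) \ S ⊆ insert x (U \ S) := by
              intro w hw
              simp only [Finset.mem_sdiff, Finset.mem_insert] at hw ⊢
              tauto
            refine (Finset.card_le_card h7).trans ?_
            refine (Finset.card_insert_le _ _).trans ?_
            rw [hcard]
          omega
  calc ∑ N ∈ U.powerset, (2 : ℝ) ^ mu (resStar G x U N) (insert x U) (insert x U)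
      ≤ ∑ N ∈ U.powerset,
        2 * ((4 : ℝ) ^ (N ∩ L).card / 2 ^ l + 2 ^ l * (1 / 4) ^ (N ∩ L).card) :=
        Finset.sum_le_sum hpt
    _ = 2 * ((∑ N ∈ U.powerset, (4 : ℝ) ^ (N ∩ L).card) / 2 ^ l +
        2 ^ l * ∑ N ∈ U.powerset, (1 / 4 : ℝ) ^ (N ∩ L).card) := by
        rw [← Finset.mul_sum, Finset.sum_add_distrib, Finset.sum_div, Finset.mul_sum]
    _ = 2 ^ U.card * (4 * (5 / 4) ^ l) := by
        rw [sum_pow_inter hLU, sum_pow_inter hLU]
        have h1 : L.card = l := hcard
        have h2 : l ≤ U.card := by rw [← h1]; exact Finset.card_le_card hLU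
        rw [h1]
        have h3 : (2 : ℝ) ^ U.card = 2 ^ (U.card - l) * 2 ^ l := by
          rw [← pow_add]; congr 1; omega
        have h4 : (1 + 4 : ℝ) ^ l = 2 ^ l * (2 ^ l * (5 / 4) ^ l) := by
          rw [← mul_pow, ← mul_pow]; norm_num
        have h5 : (1 + 1 / 4 : ℝ) ^ l = (5 / 4) ^ l := by norm_num
        rw [h3, h4, h5]
        have h6 : (2 : ℝ) ^ l ≠ 0 := by positivity
        field_simp
        ring
    _ ≤ 2 ^ U.card * (1 / 2 * 2 ^ l + 17 / 4) := by
        refine mul_le_mul_of_nonneg_left ?_ (by positivity)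
        -- `4 (5/4)^l ≤ 2^l / 2 + 17/4`
        rcases Nat.lt_or_ge l 5 with h | h
        · interval_cases l <;> norm_num
        · obtain ⟨k, hk⟩ := Nat.exists_eq_add_of_le h
          rw [hk]
          have h1 : (5 / 4 : ℝ) ^ k ≤ 2 ^ k := pow_le_pow_left₀ (by norm_num) (by norm_num) k
          have h2 : (0 : ℝ) < 2 ^ k := by positivity
          rw [pow_add, pow_add]
          nlinarith

/-- First phase. -/
theorem phase_one (w : SimpleGraph V → ℝ) (hw : ∀ G, 0 ≤ w G) (T : Finset V)
    (hinv : ∀ x ∈ T, ∀ U ⊆ T, x ∉ U → ∀ G, ∀ N ⊆ U, w (resStar G x U N) = w G) :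
    ∑ G : SimpleGraph V, w G * 2 ^ mu G T T ≤ 17 / 2 * ∑ G : SimpleGraph V, w G := by
  classical
  induction T using Finset.induction_on with
  | empty =>
    have h1 : ∀ G : SimpleGraph V, mu G ∅ ∅ = 0 := by
      intro G
      have := mu_le G (U := ∅) (T := ∅) (S := ∅) subset_rfl (Or.inl rfl)
      simpa using this
    simp only [h1, pow_zero, mul_one]
    have : 0 ≤ ∑ G : SimpleGraph V, w G := Finset.sum_nonneg fun G _ => hw G
    linarith
  | insert x U hx ih =>
    have ih' := ih (fun y hy U' hU' hyU' G N hN =>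
      hinv y (Finset.mem_insert_of_mem hy) U' (hU'.trans (Finset.subset_insert _ _)) hyU' G N hN)
    set f : SimpleGraph V → ℝ := fun G => w G * 2 ^ mu G (insert x U) (insert x U) with hf
    have h1 := sum_resStar x U hx f
    have h2 : ∑ G : SimpleGraph V, ∑ N ∈ U.powerset, f (resStar G x U N) ≤
        ∑ G : SimpleGraph V, w G * (2 ^ U.card * (1 / 2 * 2 ^ mu G U U + 17 / 4)) := by
      refine Finset.sum_le_sum fun G _ => ?_
      have h3 : ∀ N ∈ U.powerset, f (resStar G x U N) =
          w G * 2 ^ mu (resStar G x U N) (insert x U) (insert x U) := by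
        intro N hN
        simp only [hf]
        rw [hinv x (Finset.mem_insert_self x U) U (Finset.subset_insert _ _) hx G N
          (Finset.mem_powerset.1 hN)]
      rw [Finset.sum_congr rfl h3, ← Finset.mul_sum]
      exact mul_le_mul_of_nonneg_left (phase_one_bound G hx) (hw G)
    rw [h1] at h2
    have h4 : ∑ G : SimpleGraph V, w G * (2 ^ U.card * (1 / 2 * 2 ^ mu G U U + 17 / 4)) =
        2 ^ U.card * (1 / 2 * ∑ G : SimpleGraph V, w G * 2 ^ mu G U U +
          17 / 4 * ∑ G : SimpleGraph V, w G) := by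
      rw [Finset.mul_sum, Finset.mul_sum, ← Finset.sum_add_distrib, Finset.mul_sum]
      refine Finset.sum_congr rfl fun G _ => ?_
      ring
    rw [h4] at h2
    have h5 := le_of_mul_le_mul_left h2 (by positivity)
    linarith

open Classical in
/-- Potential of the second phase. -/
noncomputable def pot (G : SimpleGraph V) (U T : Finset V) : ℝ :=
  if mu G U T = 0 then 0 else 2 ^ mu G U T

omit [Fintype V] in
lemma pot_nonneg (G : SimpleGraph V) (U T : Finset V) : 0 ≤ pot G U T := by
  unfold pot
  split_ifs <;> positivity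

omit [Fintype V] in
lemma pot_le (G : SimpleGraph V) (U T : Finset V) {k : ℕ} (h : mu G U T ≤ k) :
    pot G U T ≤ 2 ^ k := by
  unfold pot
  split_ifs
  · positivity
  · exact pow_le_pow_right₀ (by norm_num) h

/-- One step of the second phase, for a fixed graph. -/
lemma phase_two_bound (G : SimpleGraph V) {b : V} {U T : Finset V} (hb : b ∉ U) (hTU : T ⊆ U)
    (hno : ∀ u ∈ U, u ∉ T → ¬ G.Adj u b) :
    ∑ N ∈ T.powerset, pot (resStar G b T N) (insert b U) T ≤ 2 ^ T.card * (3 / 4 * pot G U T) := by
  classical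
  obtain ⟨S, hSU, hS, hcard⟩ := mu_spec G U T
  set l := mu G U T with hl
  have hbT : b ∉ T := fun h => hb (hTU h)
  have hne : ∀ u ∈ U, u ≠ b := fun u hu h => hb (h ▸ hu)
  have hagree : ∀ N ⊆ T, ∀ u ∈ U, ∀ v ∈ U, G.Adj u v ↔ (resStar G b T N).Adj u v :=
    fun N hN u hu v hv => (resStar_adj_of_ne hN (hne u hu) (hne v hv)).symm
  -- the old set remains available
  have hle : ∀ N ⊆ T, mu (resStar G b T N) (insert b U) T ≤ l := by
    intro N hN
    have h1 := mu_le (resStar G b T N) (U := insert b U) (T := T) (S := S)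
      (hSU.trans (Finset.subset_insert _ _))
      (hS.imp id fun h => h.congr fun u hu v hv => hagree N hN u (hSU hu) v (hSU hv))
    omega
  by_cases hl0 : l = 0
  · have h1 : ∀ N ∈ T.powerset, pot (resStar G b T N) (insert b U) T = 0 := by
      intro N hN
      have := hle N (Finset.mem_powerset.1 hN)
      unfold pot
      rw [if_pos (by omega)]
    rw [Finset.sum_congr rfl h1]
    simp only [Finset.sum_const_zero]
    exact mul_nonneg (by positivity) (mul_nonneg (by norm_num) (pot_nonneg _ _ _))
  have hlpos : 0 < mu G U T := by omega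
  obtain ⟨hSes, ⟨t, ht⟩, hodd, hcl⟩ := mu_structure G hTU hSU hS hcard hlpos
  rw [Finset.mem_inter] at ht
  have hpot : pot G U T = 2 ^ l := by
    unfold pot
    rw [if_neg (by omega)]
  -- exceptional neighbourhoods
  let Ex : Finset (Finset V) := T.powerset.filter fun N =>
    (Even (N ∩ S).card ∧ (N ∩ (T \ S)).card = 0) ∨ (¬ Even (N ∩ S).card ∧ (N ∩ (T \ S)).card = l)
  have hnonex : ∀ N ∈ T.powerset, N ∉ Ex → mu (resStar G b T N) (insert b U) T ≤ l - 1 := by
    intro N hN' hNE
    have hN := Finset.mem_powerset.1 hN'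
    have hNE' : ¬ ((Even (N ∩ S).card ∧ (N ∩ (T \ S)).card = 0) ∨
        (¬ Even (N ∩ S).card ∧ (N ∩ (T \ S)).card = l)) := by
      intro h
      exact hNE (Finset.mem_filter.2 ⟨hN', h⟩)
    set G' := resStar G b T N with hG'
    have hadjb : ∀ u ∈ U, G'.Adj u b ↔ u ∈ N := by
      intro u hu
      by_cases huT : u ∈ T
      · exact resStar_adj_left (fun h => hb (h ▸ hu)) huT
      · rw [hG', resStar_adj_of_not_mem hN huT hbT]
        exact ⟨fun h => absurd h (hno u hu huT), fun h => absurd (hN h) huT⟩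
    have hdeg : deg G' b S = (N ∩ S).card := by
      unfold deg
      congr 1
      ext u
      simp only [Finset.mem_filter, Finset.mem_inter]
      constructor
      · rintro ⟨h1, h2⟩
        exact ⟨(hadjb u (hSU h1)).1 h2, h1⟩
      · rintro ⟨h1, h2⟩
        exact ⟨h2, (hadjb u (hSU h2)).2 h1⟩
    have ha : #{v ∈ T \ S | G'.Adj v b} = (N ∩ (T \ S)).card := by
      congr 1
      ext v
      simp only [Finset.mem_filter, Finset.mem_inter, Finset.mem_sdiff]
      constructor
      · rintro ⟨⟨h1, h2⟩, h3⟩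
        exact ⟨(hadjb v (hTU h1)).1 h3, h1, h2⟩
      · rintro ⟨h1, h2, h3⟩
        exact ⟨⟨h2, h3⟩, (hadjb v (hTU h2)).2 h1⟩
    have hal : (N ∩ (T \ S)).card ≤ l := by
      rw [← hcard]; exact Finset.card_le_card Finset.inter_subset_right
    have hSes' : EvenlySplittable G' (S : Set V) :=
      hSes.congr fun u hu v hv => hagree N hN u (hSU hu) v (hSU hv)
    have hodd' : ∀ v ∈ T \ S, ¬ Even (deg G' v S) := by
      intro v hv
      rw [← deg_congr (fun u hu => hagree N hN u (hSU hu) v (hTU (Finset.mem_sdiff.1 hv).1))]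
      exact hodd v hv
    have hcl' : ∀ u ∈ T \ S, ∀ v ∈ T \ S, u ≠ v → G'.Adj u v := fun u hu v hv huv =>
      (hagree N hN u (hTU (Finset.mem_sdiff.1 hu).1) v (hTU (Finset.mem_sdiff.1 hv).1)).1
        (hcl u hu v hv huv)
    obtain ⟨hc1, hc2⟩ := step_core G' hb hTU hSU hSes' hodd' hcl' hcard ha
    rw [hdeg] at hc1 hc2
    by_cases hev : Even (N ∩ S).card
    · obtain ⟨S', h1, _, h3, h4⟩ := hc1 hev
      have h5 := mu_le G' (T := T) h1 (Or.inr h3)
      have h6 : (N ∩ (T \ S)).card ≠ 0 := fun h => hNE' (Or.inl ⟨hev, h⟩)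
      omega
    · have h6 : (N ∩ (T \ S)).card ≠ l := fun h => hNE' (Or.inr ⟨hev, h⟩)
      obtain ⟨S', h1, _, h3, h4⟩ := hc2 hev (by omega)
      have h5 := mu_le G' (T := T) h1 (Or.inr h3)
      omega
  -- at most half of the neighbourhoods are exceptional
  have hEx : 2 * Ex.card ≤ T.powerset.card := by
    let tog : Finset V → Finset V := fun N => if t ∈ N then N.erase t else insert t N
    have htog : ∀ N ∈ Ex, tog N ∈ T.powerset \ Ex := by
      intro N hN
      obtain ⟨hNT, hN2⟩ := Finset.mem_filter.1 hN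
      rw [Finset.mem_powerset] at hNT
      have e1 : tog N ∩ (T \ S) = N ∩ (T \ S) := by
        ext v
        simp only [tog, Finset.mem_inter, Finset.mem_sdiff]
        constructor
        · rintro ⟨h1, h2, h3⟩
          have hvt : v ≠ t := fun h => h3 (h ▸ ht.2)
          refine ⟨?_, h2, h3⟩
          split_ifs at h1
          · exact Finset.mem_of_mem_erase h1
          · exact (Finset.mem_insert.1 h1).resolve_left hvt
        · rintro ⟨h1, h2, h3⟩
          have hvt : v ≠ t := fun h => h3 (h ▸ ht.2)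
          refine ⟨?_, h2, h3⟩
          split_ifs
          · exact Finset.mem_erase.2 ⟨hvt, h1⟩
          · exact Finset.mem_insert_of_mem h1
      have e2 : Even (tog N ∩ S).card ↔ ¬ Even (N ∩ S).card := by
        by_cases htN : t ∈ N
        · have h3 : tog N ∩ S = (N ∩ S).erase t := by
            simp only [tog, if_pos htN]
            rw [Finset.erase_inter]
          have h4 : t ∈ N ∩ S := Finset.mem_inter.2 ⟨htN, ht.2⟩
          have h5 : (N ∩ S).card = ((N ∩ S).erase t).card + 1 :=
            (Finset.card_erase_add_one h4).symm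
          rw [h3, h5, Nat.even_add_one, not_not]
        · have h3 : tog N ∩ S = insert t (N ∩ S) := by
            simp only [tog, if_neg htN]
            rw [Finset.insert_inter_of_mem ht.2]
          have h4 : t ∉ N ∩ S := fun h => htN (Finset.mem_inter.1 h).1
          rw [h3, Finset.card_insert_of_notMem h4, Nat.even_add_one]
      rw [Finset.mem_sdiff]
      constructor
      · rw [Finset.mem_powerset]
        simp only [tog]
        split_ifs
        · exact (Finset.erase_subset _ _).trans hNT
        · exact Finset.insert_subset ht.1 hNT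
      · intro h
        have h3 := (Finset.mem_filter.1 h).2
        rw [e1, e2] at h3
        rcases hN2 with ⟨h4, h5⟩ | ⟨h4, h5⟩ <;> rcases h3 with ⟨h6, h7⟩ | ⟨h6, h7⟩
        · exact h6 h4
        · omega
        · omega
        · exact h6 h4
    have htinv : ∀ N, tog (tog N) = N := by
      intro N
      simp only [tog]
      by_cases htN : t ∈ N
      · rw [if_pos htN, if_neg (by simp), Finset.insert_erase htN]
      · rw [if_neg htN, if_pos (by simp), Finset.erase_insert htN]
    have h1 : Ex.card ≤ (T.powerset \ Ex).card := by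
      refine Finset.card_le_card_of_injOn tog htog ?_
      intro a _ b _ hab
      rw [← htinv a, ← htinv b, hab]
    have h2 : (T.powerset \ Ex).card = T.powerset.card - Ex.card :=
      Finset.card_sdiff_of_subset (Finset.filter_subset _ _)
    have h3 : Ex.card ≤ T.powerset.card := Finset.card_filter_le _ _
    omega
  have hsub : Ex ⊆ T.powerset := Finset.filter_subset _ _
  have hl1 : (2 : ℝ) ^ l = 2 * 2 ^ (l - 1) := by
    rw [← pow_succ']; congr 1; omega
  rw [← Finset.sum_sdiff hsub, hpot]
  have hA : ∑ N ∈ T.powerset \ Ex, pot (resStar G b T N) (insert b U) T ≤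
      (T.powerset \ Ex).card * 2 ^ (l - 1) := by
    rw [← nsmul_eq_mul]
    refine Finset.sum_le_card_nsmul _ _ _ fun N hN => ?_
    obtain ⟨h1, h2⟩ := Finset.mem_sdiff.1 hN
    exact pot_le _ _ _ (hnonex N h1 h2)
  have hB : ∑ N ∈ Ex, pot (resStar G b T N) (insert b U) T ≤ Ex.card * 2 ^ l := by
    rw [← nsmul_eq_mul]
    refine Finset.sum_le_card_nsmul _ _ _ fun N hN => ?_
    exact pot_le _ _ _ (hle N (Finset.mem_powerset.1 (hsub hN)))
  have hC : ((T.powerset \ Ex).card : ℝ) = 2 ^ T.card - Ex.card := by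
    rw [Finset.card_sdiff_of_subset hsub, Nat.cast_sub (Finset.card_le_card hsub),
      Finset.card_powerset]
    push_cast
    rfl
  have hD : 2 * (Ex.card : ℝ) ≤ 2 ^ T.card := by
    rw [Finset.card_powerset] at hEx
    exact_mod_cast hEx
  rw [hC] at hA
  have hp : (0 : ℝ) < 2 ^ (l - 1) := by positivity
  rw [hl1] at hB ⊢
  nlinarith

/-- Second phase. -/
theorem phase_two (w : SimpleGraph V → ℝ) (hw : ∀ G, 0 ≤ w G) (T B : Finset V)
    (hTB : Disjoint T B)
    (hinv : ∀ x ∈ B, ∀ G, ∀ N ⊆ T, w (resStar G x T N) = w G)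
    (hind : ∀ G, w G ≠ 0 → ∀ u ∈ B, ∀ v ∈ B, ¬ G.Adj u v) :
    ∑ G : SimpleGraph V, w G * pot G (T ∪ B) T ≤
      (3 / 4) ^ B.card * ∑ G : SimpleGraph V, w G * pot G T T := by
  classical
  have key : ∀ B' ⊆ B, ∑ G : SimpleGraph V, w G * pot G (T ∪ B') T ≤
      (3 / 4) ^ B'.card * ∑ G : SimpleGraph V, w G * pot G T T := by
    intro B'
    induction B' using Finset.induction_on with
    | empty => intro _; simp
    | insert b B' hb ih =>
      intro hsub
      have hbB : b ∈ B := hsub (Finset.mem_insert_self _ _)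
      have hB'B : B' ⊆ B := (Finset.subset_insert _ _).trans hsub
      have hbT : b ∉ T := fun h => Finset.disjoint_left.1 hTB h hbB
      have hbU : b ∉ T ∪ B' := by
        rw [Finset.mem_union, not_or]; exact ⟨hbT, hb⟩
      have ih' := ih hB'B
      set f : SimpleGraph V → ℝ := fun G => w G * pot G (T ∪ insert b B') T with hf
      have h1 := sum_resStar b T hbT f
      have h2 : ∑ G : SimpleGraph V, ∑ N ∈ T.powerset, f (resStar G b T N) ≤
          ∑ G : SimpleGraph V, w G * (2 ^ T.card * (3 / 4 * pot G (T ∪ B') T)) := by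
        refine Finset.sum_le_sum fun G _ => ?_
        have h3 : ∀ N ∈ T.powerset, f (resStar G b T N) =
            w G * pot (resStar G b T N) (insert b (T ∪ B')) T := by
          intro N hN
          simp only [hf]
          rw [hinv b hbB G N (Finset.mem_powerset.1 hN), Finset.union_insert]
        rw [Finset.sum_congr rfl h3, ← Finset.mul_sum]
        by_cases hwG : w G = 0
        · rw [hwG]; simp
        · refine mul_le_mul_of_nonneg_left
            (phase_two_bound G hbU Finset.subset_union_left ?_) (hw G)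
          intro u hu huT
          exact hind G hwG u (hB'B ((Finset.mem_union.1 hu).resolve_left huT)) b hbB
      rw [h1] at h2
      have h4 : ∑ G : SimpleGraph V, w G * (2 ^ T.card * (3 / 4 * pot G (T ∪ B') T)) =
          2 ^ T.card * (3 / 4 * ∑ G : SimpleGraph V, w G * pot G (T ∪ B') T) := by
        rw [Finset.mul_sum, Finset.mul_sum]
        refine Finset.sum_congr rfl fun G _ => ?_
        ring
      rw [h4] at h2
      have h5 := le_of_mul_le_mul_left h2 (by positivity)
      rw [Finset.card_insert_of_notMem hb, pow_succ]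
      nlinarith
  exact key B subset_rfl

end Pool.Agent.Lib.MP_2d96d7_co
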