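import Pool.Agent.Lib.MP_2d96d7_co.Absorb

/-!
Averages over all graphs on a vertex set; resampling of some edges.
-/

namespace Pool.Agent.Lib.MP_2d96d7_co

open Finset

variable {V : Type} [Fintype V] [DecidableEq V]

/-- Replace the edges of `G` in `E` by those in `R`. -/
def res (G : SimpleGraph V) (E R : Finset (Sym2 V)) : SimpleGraph V :=
  SimpleGraph.fromEdgeSet ((G.edgeSet \ E) ∪ R)

lemma res_adj (G : SimpleGraph V) (E R : Finset (Sym2 V)) (u v : V) :
    (res G E R).Adj u v ↔ u ≠ v ∧ ((G.Adj u v ∧ s(u, v) ∉ E) ∨ s(u, v) ∈ R) := by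
  simp only [res, SimpleGraph.fromEdgeSet_adj, Set.mem_union, Set.mem_sdiff,
    SimpleGraph.mem_edgeSet, Finset.mem_coe]
  tauto

lemma res_adj_of_not_mem {G : SimpleGraph V} {E R : Finset (Sym2 V)} (hR : R ⊆ E) {u v : V}
    (h : s(u, v) ∉ E) : (res G E R).Adj u v ↔ G.Adj u v := by
  rw [res_adj]
  constructor
  · rintro ⟨_, ⟨h1, _⟩ | h1⟩
    · exact h1
    · exact absurd (hR h1) h
  · intro h1
    exact ⟨h1.ne, Or.inl ⟨h1, h⟩⟩

lemma res_adj_of_mem {G : SimpleGraph V} {E R : Finset (Sym2 V)} {u v : V} (huv : u ≠ v)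
    (h : s(u, v) ∈ E) : (res G E R).Adj u v ↔ s(u, v) ∈ R := by
  rw [res_adj]
  tauto

/-- Resampling lemma. -/
lemma sum_res (E : Finset (Sym2 V)) (hE : ∀ z ∈ E, ¬ z.IsDiag) (f : SimpleGraph V → ℝ) :
    ∑ G : SimpleGraph V, ∑ R ∈ E.powerset, f (res G E R) =
      2 ^ E.card * ∑ G : SimpleGraph V, f G := by
  classical
  let tr : SimpleGraph V → Finset (Sym2 V) := fun G => E.filter (fun z => z ∈ G.edgeSet)
  have h1 : ∀ (G : SimpleGraph V) (R : Finset (Sym2 V)), R ⊆ E → tr (res G E R) = R := by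
    intro G R hR
    ext z
    simp only [tr, Finset.mem_filter]
    induction z with
    | _ u v =>
      constructor
      · rintro ⟨hz, h⟩
        have huv : u ≠ v := by simpa using hE _ hz
        exact (res_adj_of_mem huv hz).1 h
      · intro h
        have huv : u ≠ v := by simpa using hE _ (hR h)
        exact ⟨hR h, (res_adj_of_mem huv (hR h)).2 h⟩
  have h2 : ∀ (G : SimpleGraph V) (R : Finset (Sym2 V)), R ⊆ E → res (res G E R) E (tr G) = G := by
    intro G R hR
    ext u v
    by_cases huv : u = v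
    · subst huv
      simp
    · by_cases hz : s(u, v) ∈ E
      · rw [res_adj_of_mem huv hz]
        simp [tr, hz]
      · rw [res_adj_of_not_mem (Finset.filter_subset _ _) hz, res_adj_of_not_mem hR hz]
  rw [← Finset.sum_product']
  have h3 : ∑ x ∈ (Finset.univ : Finset (SimpleGraph V)) ×ˢ E.powerset, f (res x.1 E x.2) =
      ∑ x ∈ (Finset.univ : Finset (SimpleGraph V)) ×ˢ E.powerset, f x.1 := by
    refine Finset.sum_nbij' (fun x => (res x.1 E x.2, tr x.1)) (fun x => (res x.1 E x.2, tr x.1))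
      ?_ ?_ ?_ ?_ ?_
    · rintro ⟨G, R⟩ _
      simp only [Finset.mem_product, Finset.mem_univ, true_and, Finset.mem_powerset]
      exact Finset.filter_subset _ _
    · rintro ⟨G, R⟩ _
      simp only [Finset.mem_product, Finset.mem_univ, true_and, Finset.mem_powerset]
      exact Finset.filter_subset _ _
    · rintro ⟨G, R⟩ h
      simp only [Finset.mem_product, Finset.mem_univ, true_and, Finset.mem_powerset] at h
      simp only [h2 G R h, h1 G R h]
    · rintro ⟨G, R⟩ h
      simp only [Finset.mem_product, Finset.mem_univ, true_and, Finset.mem_powerset] at h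
      simp only [h2 G R h, h1 G R h]
    · rintro ⟨G, R⟩ _
      rfl
  rw [h3, Finset.sum_product]
  simp only [Finset.sum_const, Finset.card_powerset, nsmul_eq_mul]
  rw [← Finset.mul_sum]
  push_cast
  rfl

/-- The pairs `{x, u}` with `u ∈ U`. -/
def star (x : V) (U : Finset V) : Finset (Sym2 V) := U.image (fun u => s(x, u))

lemma mem_star {x : V} {U : Finset V} {u v : V} :
    s(u, v) ∈ star x U ↔ (u = x ∧ v ∈ U) ∨ (v = x ∧ u ∈ U) := by
  simp only [star, Finset.mem_image, Sym2.eq_iff]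
  constructor
  · rintro ⟨w, hw, ⟨rfl, rfl⟩ | ⟨rfl, rfl⟩⟩
    · exact Or.inl ⟨rfl, hw⟩
    · exact Or.inr ⟨rfl, hw⟩
  · rintro (⟨rfl, h⟩ | ⟨rfl, h⟩)
    · exact ⟨v, h, Or.inl ⟨rfl, rfl⟩⟩
    · exact ⟨u, h, Or.inr ⟨rfl, rfl⟩⟩

lemma star_injective (x : V) : Function.Injective (fun u : V => s(x, u)) := by
  intro u v h
  simp only [Sym2.eq_iff] at h
  rcases h with ⟨_, h⟩ | ⟨h1, h2⟩
  · exact h
  · rw [h2, ← h1]

lemma star_card (x : V) (U : Finset V) : (star x U).card = U.card :=
  Finset.card_image_of_injective _ (star_injective x)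

lemma star_subset {x : V} {N U : Finset V} (h : N ⊆ U) : star x N ⊆ star x U :=
  Finset.image_subset_image h

/-- Replace the neighbours of `x` in `U` by `N`. -/
def resStar (G : SimpleGraph V) (x : V) (U N : Finset V) : SimpleGraph V :=
  res G (star x U) (star x N)

lemma resStar_adj_left {G : SimpleGraph V} {x : V} {U N : Finset V} {u : V} (hux : u ≠ x)
    (hu : u ∈ U) : (resStar G x U N).Adj u x ↔ u ∈ N := by
  unfold resStar
  rw [res_adj_of_mem hux (mem_star.2 (Or.inr ⟨rfl, hu⟩)), mem_star]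
  constructor
  · rintro (⟨h, _⟩ | ⟨_, h⟩)
    · exact absurd h hux
    · exact h
  · intro h
    exact Or.inr ⟨rfl, h⟩

lemma resStar_adj_of_ne {G : SimpleGraph V} {x : V} {U N : Finset V} (hN : N ⊆ U) {u v : V}
    (hu : u ≠ x) (hv : v ≠ x) : (resStar G x U N).Adj u v ↔ G.Adj u v := by
  unfold resStar
  rw [res_adj_of_not_mem (star_subset hN)]
  rw [mem_star]
  rintro (⟨h, _⟩ | ⟨h, _⟩)
  · exact hu h
  · exact hv h

lemma resStar_adj_of_not_mem {G : SimpleGraph V} {x : V} {U N : Finset V} (hN : N ⊆ U) {u : V}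
    (hu : u ∉ U) (hx : x ∉ U) : (resStar G x U N).Adj u x ↔ G.Adj u x := by
  unfold resStar
  rw [res_adj_of_not_mem (star_subset hN)]
  rw [mem_star]
  rintro (⟨_, h⟩ | ⟨_, h⟩)
  · exact hx h
  · exact hu h

/-- Resampling lemma for stars. -/
lemma sum_resStar (x : V) (U : Finset V) (hx : x ∉ U) (f : SimpleGraph V → ℝ) :
    ∑ G : SimpleGraph V, ∑ N ∈ U.powerset, f (resStar G x U N) =
      2 ^ U.card * ∑ G : SimpleGraph V, f G := by
  classical
  have h := sum_res (star x U) (fun z hz => by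
    induction z with
    | _ u v =>
      rw [mem_star] at hz
      simp only [Sym2.mk_isDiag_iff]
      rintro rfl
      rcases hz with ⟨rfl, h⟩ | ⟨rfl, h⟩ <;> exact hx h) f
  rw [star_card] at h
  rw [← h]
  refine Finset.sum_congr rfl fun G _ => ?_
  have h2 : (star x U).powerset = U.powerset.image (star x) := by
    unfold star
    rw [Finset.powerset_image]
  rw [h2, Finset.sum_image]
  · rfl
  · intro a _ b _ hab
    exact Finset.image_injective (star_injective x) hab

/-- Sum of `r ^ |N ∩ L|` over the subsets `N` of `U`. -/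
lemma sum_pow_inter {U L : Finset V} (hL : L ⊆ U) (r : ℝ) :
    ∑ N ∈ U.powerset, r ^ (N ∩ L).card = 2 ^ (U.card - L.card) * (1 + r) ^ L.card := by
  classical
  have h1 : ∀ N : Finset V, r ^ (N ∩ L).card = ∏ v ∈ N, (if v ∈ L then r else 1) := by
    intro N
    rw [Finset.prod_ite, Finset.prod_const, Finset.prod_const_one, mul_one, Finset.filter_mem_eq_inter]
  simp only [h1]
  rw [← Finset.prod_one_add]
  have h2 : ∀ v : V, (1 + if v ∈ L then r else 1) = if v ∈ L then 1 + r else 2 := by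
    intro v
    split_ifs <;> norm_num
  simp only [h2]
  rw [Finset.prod_ite, Finset.prod_const, Finset.prod_const, Finset.filter_mem_eq_inter,
    Finset.inter_eq_right.2 hL, mul_comm]
  congr 2
  have : {v ∈ U | v ∉ L} = U \ L := by
    ext v; simp
  rw [this, Finset.card_sdiff_of_subset hL]

end Pool.Agent.Lib.MP_2d96d7_co
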