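import Pool.Agent.Lib.MP_2d96d7_co.Defs
import Pool.Agent.Lib.MP_2d96d7_co.Merge

/-!
The main inequality for evenly splittable graphs.
-/

namespace Pool.Agent.Lib.MP_2d96d7_co

open Finset

lemma EvenlySplittable.nonempty {V : Type} {H : SimpleGraph V} {X : Set V}
    (h : EvenlySplittable H X) : X.Nonempty := by
  induction h with
  | single v => exact ⟨v, rfl⟩
  | union _ _ _ _ ih _ => exact ih.mono Set.subset_union_left

open Classical in
/-- Collapse the set `X` to the point `r`. -/
noncomputable def col {V : Type} (X : Set V) (r : V) : V → V := fun v => if v ∈ X then r else v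

lemma col_mem {V : Type} {X : Set V} {r v : V} (h : v ∈ X) : col X r v = r := by
  simp [col, h]

lemma col_not_mem {V : Type} {X : Set V} {r v : V} (h : v ∉ X) : col X r v = v := by
  simp [col, h]

theorem EvenlySplittable.collapse {V : Type} [Fintype V] [DecidableEq V] {H : SimpleGraph V}
    {X : Set V} (hX : EvenlySplittable H X) :
    ∃ r ∈ X, ∀ {I : Type} [Fintype I] [DecidableEq I] [Nonempty I] (F : Finset (Vec I))
      (ρ : V → V), (∀ v ∈ X, ρ v = v) → (∀ v, v ∉ X → ρ v ∉ X) →
      dens F H (col X r ∘ ρ) ^ (2 ^ (X.ncard - 1)) ≤ dens F H ρ := by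
  induction hX with
  | single v =>
    refine ⟨v, rfl, ?_⟩
    intro I _ _ _ F ρ h1 h2
    have : col {v} v ∘ ρ = ρ := by
      funext w
      simp only [Function.comp]
      by_cases hw : ρ w ∈ ({v} : Set V)
      · rw [col_mem hw]; exact hw.symm
      · rw [col_not_mem hw]
    rw [this]
    simp
  | @union X Y hX hY hXY he ihX ihY =>
    obtain ⟨r, hr, ihX⟩ := ihX
    obtain ⟨s, hs, ihY⟩ := ihY
    refine ⟨r, Or.inl hr, ?_⟩
    intro I _ _ _ F ρ h1 h2
    have hdisj : ∀ v, v ∈ X → v ∉ Y := fun v hx hy => Set.disjoint_left.1 hXY hx hy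
    have hrs : r ≠ s := fun h => hdisj r hr (h ▸ hs)
    -- first collapse `X`
    have a1 := ihX F ρ (fun v hv => h1 v (Or.inl hv)) (fun v hv => by
      by_cases hvY : v ∈ Y
      · rw [h1 v (Or.inr hvY)]; exact hv
      · exact fun h => h2 v (by simp [hv, hvY]) (Or.inl h))
    -- then collapse `Y`
    have a2 := ihY F (col X r ∘ ρ) (fun v hv => by
        simp only [Function.comp]
        rw [h1 v (Or.inr hv), col_not_mem (fun h => hdisj v h hv)])
      (fun v hv => by
        simp only [Function.comp]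
        by_cases hvX : v ∈ X
        · rw [h1 v (Or.inl hvX), col_mem hvX]; exact hdisj r hr
        · have h3 := h2 v (by simp [hv, hvX])
          rw [col_not_mem (fun h => h3 (Or.inl h))]
          exact fun h => h3 (Or.inr h))
    set ρ2 : V → V := col Y s ∘ (col X r ∘ ρ) with hρ2
    have hX2 : ∀ v ∈ X, ρ2 v = r := by
      intro v hv
      simp only [hρ2, Function.comp]
      rw [h1 v (Or.inl hv), col_mem hv, col_not_mem (hdisj r hr)]
    have hY2 : ∀ v ∈ Y, ρ2 v = s := by
      intro v hv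
      simp only [hρ2, Function.comp]
      rw [h1 v (Or.inr hv), col_not_mem (fun h => hdisj v h hv), col_mem hv]
    have hN2 : ∀ v, v ∉ X → v ∉ Y → ρ2 v = ρ v ∧ ρ v ∉ X ∧ ρ v ∉ Y := by
      intro v hvX hvY
      have h3 := h2 v (by simp [hvX, hvY])
      have h4 : ρ v ∉ X := fun h => h3 (Or.inl h)
      have h5 : ρ v ∉ Y := fun h => h3 (Or.inr h)
      refine ⟨?_, h4, h5⟩
      simp only [hρ2, Function.comp]
      rw [col_not_mem h4, col_not_mem h5]
    have hXiff : ∀ v, ρ2 v = r ↔ v ∈ X := by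
      intro v
      refine ⟨fun h => ?_, hX2 v⟩
      by_contra hvX
      by_cases hvY : v ∈ Y
      · exact hrs (h.symm.trans (hY2 v hvY))
      · obtain ⟨e1, e2, _⟩ := hN2 v hvX hvY
        rw [e1] at h
        exact e2 (h ▸ hr)
    have hYiff : ∀ v, ρ2 v = s ↔ v ∈ Y := by
      intro v
      refine ⟨fun h => ?_, hY2 v⟩
      by_contra hvY
      by_cases hvX : v ∈ X
      · exact hrs ((hX2 v hvX).symm.trans h)
      · obtain ⟨e1, _, e2⟩ := hN2 v hvX hvY
        rw [e1] at h
        exact e2 (h ▸ hs)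
    -- merge the two points
    have hcount : {z ∈ H.edgeSet | Sym2.map ρ2 z = s(r, s)}.ncard =
        {p : V × V | p.1 ∈ X ∧ p.2 ∈ Y ∧ H.Adj p.1 p.2}.ncard := by
      symm
      refine Set.ncard_congr (fun p _ => s(p.1, p.2)) ?_ ?_ ?_
      · rintro ⟨u, v⟩ ⟨hu, hv, huv⟩
        refine ⟨huv, ?_⟩
        simp only [Sym2.map_mk]
        rw [hX2 u hu, hY2 v hv]
      · rintro ⟨u, v⟩ ⟨u', v'⟩ ⟨hu, hv, huv⟩ ⟨hu', hv', huv'⟩ h
        simp only [Sym2.eq_iff] at h
        rcases h with ⟨rfl, rfl⟩ | ⟨rfl, rfl⟩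
        · rfl
        · exact absurd hv' (hdisj _ hu)
      · intro z hz
        induction z with
        | _ u v =>
          obtain ⟨hz1, hz2⟩ := hz
          simp only [Sym2.map_mk, Sym2.eq_iff] at hz2
          rcases hz2 with ⟨e1, e2⟩ | ⟨e1, e2⟩
          · exact ⟨(u, v), ⟨(hXiff u).1 e1, (hYiff v).1 e2, hz1⟩, rfl⟩
          · refine ⟨(v, u), ⟨(hXiff v).1 e2, (hYiff u).1 e1, ?_⟩, Sym2.eq_swap⟩
            exact (SimpleGraph.mem_edgeSet H).1 hz1 |>.symm
    have a3 := dens_merge F H ρ2 hrs (by rw [hcount]; exact he)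
    have hfin : Function.update id s r ∘ ρ2 = col (X ∪ Y) r ∘ ρ := by
      funext v
      simp only [Function.comp]
      by_cases hvX : v ∈ X
      · rw [hX2 v hvX, h1 v (Or.inl hvX), col_mem (show v ∈ X ∪ Y from Or.inl hvX),
          Function.update_of_ne hrs]; rfl
      · by_cases hvY : v ∈ Y
        · rw [hY2 v hvY, h1 v (Or.inr hvY), col_mem (show v ∈ X ∪ Y from Or.inr hvY),
            Function.update_self]
        · obtain ⟨e1, e2, e3⟩ := hN2 v hvX hvY
          have h6 : ρ v ≠ s := fun h => e3 (h ▸ hs)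
          rw [e1, Function.update_of_ne h6, col_not_mem (by simp [e2, e3])]; rfl
    rw [hfin] at a3
    have hx : 1 ≤ X.ncard := (Set.ncard_pos (Set.toFinite X)).2 ⟨r, hr⟩
    have hy : 1 ≤ Y.ncard := (Set.ncard_pos (Set.toFinite Y)).2 ⟨s, hs⟩
    have hcard : (X ∪ Y).ncard = X.ncard + Y.ncard :=
      Set.ncard_union_eq hXY (Set.toFinite X) (Set.toFinite Y)
    have hexp : 2 ^ ((X ∪ Y).ncard - 1) = 2 * (2 ^ (Y.ncard - 1) * 2 ^ (X.ncard - 1)) := by
      rw [← pow_add, ← pow_succ', hcard]
      congr 1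
      omega
    rw [hexp, pow_mul, pow_mul]
    calc ((dens F H (col (X ∪ Y) r ∘ ρ) ^ 2) ^ 2 ^ (Y.ncard - 1)) ^ 2 ^ (X.ncard - 1)
        ≤ ((dens F H ρ2) ^ 2 ^ (Y.ncard - 1)) ^ 2 ^ (X.ncard - 1) := by
          gcongr
      _ ≤ (dens F H (col X r ∘ ρ)) ^ 2 ^ (X.ncard - 1) := by
          gcongr
          exact pow_nonneg (dens_nonneg _ _ _) _
      _ ≤ dens F H ρ := a1

section Final

variable {V : Type} [Fintype V] [DecidableEq V] {I : Type} [Fintype I] [DecidableEq I]

lemma dens_const [Nonempty I] (F : Finset (Vec I)) (H : SimpleGraph V) (r : V) :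
    dens F H (fun _ : V => r) = (F.card : ℝ) / Fintype.card (Vec I) := by
  classical
  have h : ∀ φ : V → I, edgeSum H (φ ∘ (fun _ : V => r)) = 0 := by
    intro φ
    unfold edgeSum
    refine Finset.sum_eq_zero fun z _ => edgeVec_diag ?_
    induction z with
    | _ u v => simp
  unfold dens
  simp only [h, pairs_zero, Finset.sum_const, Finset.card_univ, nsmul_eq_mul]
  have hU : (0 : ℝ) < Fintype.card (V → I) := by exact_mod_cast Fintype.card_pos
  have hM : (0 : ℝ) < Fintype.card (Vec I) := by exact_mod_cast Fintype.card_pos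
  field_simp

theorem EvenlySplittable.main_ineq [Nonempty I] {H : SimpleGraph V}
    (h : EvenlySplittable H Set.univ) (F : Finset (Vec I)) :
    ((F.card : ℝ) / Fintype.card (Vec I)) ^ (2 ^ (Fintype.card V - 1)) ≤ dens F H (id : V → V) := by
  obtain ⟨r, _, h1⟩ := h.collapse
  have h2 := h1 F id (fun v _ => rfl) (fun v hv => absurd (Set.mem_univ v) hv)
  have h3 : col Set.univ r ∘ (id : V → V) = fun _ => r := by
    funext v
    simp [col]
  rw [h3, dens_const, Set.ncard_univ, Nat.card_eq_fintype_card] at h2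
  exact h2

/-- Maps `V → I` that are not injective. -/
lemma not_injective_card [Nonempty I] :
    (Fintype.card I : ℝ) * ∑ φ : V → I, (if Function.Injective φ then (0 : ℝ) else 1) ≤
      ((Fintype.card V).choose 2 : ℝ) * Fintype.card (V → I) := by
  classical
  have h1 : ∀ φ : V → I, (if Function.Injective φ then (0 : ℝ) else 1) ≤
      ∑ z : {z : Sym2 V // ¬ z.IsDiag}, if (Sym2.map φ z.1).IsDiag then (1 : ℝ) else 0 := by
    intro φ
    split_ifs with h
    · exact Finset.sum_nonneg fun _ _ => by split_ifs <;> norm_num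
    · simp only [Function.Injective, not_forall] at h
      obtain ⟨u, v, huv, hne⟩ := h
      have h2 : ¬ (s(u, v) : Sym2 V).IsDiag := by simpa using hne
      refine le_trans ?_ (Finset.single_le_sum (f := fun z : {z : Sym2 V // ¬ z.IsDiag} =>
        if (Sym2.map φ z.1).IsDiag then (1 : ℝ) else 0) (fun _ _ => by positivity)
        (Finset.mem_univ ⟨s(u, v), h2⟩))
      simp [huv]
  have h2 : ∀ z : {z : Sym2 V // ¬ z.IsDiag},
      (Fintype.card I : ℝ) * ∑ φ : V → I, (if (Sym2.map φ z.1).IsDiag then (1 : ℝ) else 0) =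
        Fintype.card (V → I) := by
    rintro ⟨z, hz⟩
    induction z with
    | _ u v =>
      have huv : u ≠ v := by simpa using hz
      rw [← sum_update v]
      have : ∀ ψ : V → I, ∑ a : I, (if (Sym2.map (Function.update ψ v a) s(u, v)).IsDiag
          then (1 : ℝ) else 0) = 1 := by
        intro ψ
        simp only [Sym2.map_mk, Sym2.mk_isDiag_iff, Function.update_of_ne huv, Function.update_self]
        simp
      simp only [this]
      simp
  calc (Fintype.card I : ℝ) * ∑ φ : V → I, (if Function.Injective φ then (0 : ℝ) else 1)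
      ≤ (Fintype.card I : ℝ) * ∑ φ : V → I,
        ∑ z : {z : Sym2 V // ¬ z.IsDiag}, (if (Sym2.map φ z.1).IsDiag then (1 : ℝ) else 0) := by
        gcongr with φ
        exact h1 φ
    _ = ∑ z : {z : Sym2 V // ¬ z.IsDiag}, (Fintype.card I : ℝ) *
        ∑ φ : V → I, (if (Sym2.map φ z.1).IsDiag then (1 : ℝ) else 0) := by
        rw [Finset.sum_comm, Finset.mul_sum]
    _ = _ := by
        simp only [h2]
        rw [Finset.sum_const, Finset.card_univ, Sym2.card_subtype_not_diag, nsmul_eq_mul]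

/-- The image of a family of graphs in the vector space. -/
noncomputable def encF (F : Finset (SimpleGraph I)) : Finset (Vec I) :=
  F.map ⟨enc, enc_injective⟩

lemma encF_card (F : Finset (SimpleGraph I)) : (encF F).card = F.card := Finset.card_map _

end Final

/-- The density of an `H`-code. -/
theorem code_dens {V : Type} [Fintype V] [DecidableEq V] {H : SimpleGraph V} (hH : H ≠ ⊥) {n : ℕ}
    (hn : 1 ≤ n) {F : Finset (SimpleGraph (Fin n))} (hF : IsCode H F) :
    dens (encF F) H (id : V → V) ≤ ((Fintype.card V).choose 2 : ℝ) / n := by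
  classical
  haveI : Nonempty (Fin n) := ⟨⟨0, hn⟩⟩
  have hinj : ∀ φ : V → Fin n, Function.Injective φ → pairs (encF F) (edgeSum H φ) = 0 := by
    intro φ hφ
    unfold pairs
    refine Finset.sum_eq_zero fun x _ => ?_
    rw [if_neg]
    rintro ⟨hx1, hx2⟩
    simp only [encF, Finset.mem_map, Function.Embedding.coeFn_mk] at hx1 hx2
    obtain ⟨G, hG, rfl⟩ := hx1
    obtain ⟨G', hG', h⟩ := hx2
    rw [edgeSum_eq_enc H hφ] at h
    have h2 : enc (H.map φ) = enc ((G \ G') ⊔ (G' \ G)) := by
      rw [← enc_add, h, ← add_assoc, vec_add_self, zero_add]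
    have h3 := enc_injective h2
    refine hF G hG G' hG' ?_ ⟨φ, hφ⟩ h3.symm
    rintro rfl
    have h4 : H.map φ = ⊥ := by rw [h3]; simp
    apply hH
    ext u v
    simp only [SimpleGraph.bot_adj, iff_false]
    intro huv
    have h5 : (H.map φ).Adj (φ u) (φ v) := SimpleGraph.map_adj_apply' huv (hφ.ne huv.ne)
    rw [h4] at h5
    exact h5
  have hsum : ∑ φ : V → Fin n, pairs (encF F) (edgeSum H (φ ∘ (id : V → V))) ≤
      (Fintype.card (Vec (Fin n)) : ℝ) *
        ∑ φ : V → Fin n, (if Function.Injective φ then (0 : ℝ) else 1) := by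
    rw [Finset.mul_sum]
    refine Finset.sum_le_sum fun φ _ => ?_
    rw [Function.comp_id]
    split_ifs with h
    · rw [hinj φ h]; simp
    · rw [mul_one]; exact pairs_le _ _
  have hcard := not_injective_card (V := V) (I := Fin n)
  rw [Fintype.card_fin] at hcard
  have hn' : (0 : ℝ) < n := by exact_mod_cast hn
  have hU : (0 : ℝ) < Fintype.card (V → Fin n) := by exact_mod_cast Fintype.card_pos
  have hM : (0 : ℝ) < Fintype.card (Vec (Fin n)) := by exact_mod_cast Fintype.card_pos
  unfold dens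
  rw [div_le_div_iff₀ (by positivity) hn']
  set T := ∑ φ : V → Fin n, (if Function.Injective φ then (0 : ℝ) else 1)
  calc (∑ φ : V → Fin n, pairs (encF F) (edgeSum H (φ ∘ (id : V → V)))) * n
      ≤ ((Fintype.card (Vec (Fin n)) : ℝ) * T) * n := by gcongr
    _ = (Fintype.card (Vec (Fin n)) : ℝ) * (n * T) := by ring
    _ ≤ (Fintype.card (Vec (Fin n)) : ℝ) *
        (((Fintype.card V).choose 2 : ℝ) * Fintype.card (V → Fin n)) := by gcongr
    _ = _ := by ring

/-- Polynomial decay for evenly splittable graphs. -/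
theorem EvenlySplittable.powerDecay {V : Type} [Fintype V] {H : SimpleGraph V} (hH : H ≠ ⊥)
    (h : EvenlySplittable H Set.univ) : PowerDecay H := by
  classical
  intro n hn F hF
  haveI : Nonempty (Fin n) := ⟨⟨0, hn⟩⟩
  have h1 := h.main_ineq (encF F)
  have h2 := h1.trans (code_dens hH hn hF)
  rw [encF_card, vec_card, Fintype.card_fin] at h2
  push_cast at h2
  set δ : ℝ := (F.card : ℝ) / 2 ^ (n.choose 2) with hδ
  have hδ0 : 0 ≤ δ := by positivity
  set N : ℕ := 2 ^ (Fintype.card V - 1) with hN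
  have hN0 : N ≠ 0 := by positivity
  have h3 : δ ≤ (((Fintype.card V).choose 2 : ℝ) / n) ^ ((1 : ℝ) / 2 ^ (Fintype.card V - 1)) := by
    have h4 : (δ ^ N) ^ ((1 : ℝ) / 2 ^ (Fintype.card V - 1)) ≤
        (((Fintype.card V).choose 2 : ℝ) / n) ^ ((1 : ℝ) / 2 ^ (Fintype.card V - 1)) :=
      Real.rpow_le_rpow (pow_nonneg hδ0 _) h2 (by positivity)
    have h5 : ((1 : ℝ) / 2 ^ (Fintype.card V - 1)) = ((N : ℝ))⁻¹ := by
      rw [hN]; push_cast; rw [one_div]
    rw [h5] at h4 ⊢
    rwa [Real.pow_rpow_inv_natCast hδ0 hN0] at h4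
  have hpos : (0 : ℝ) < 2 ^ (n.choose 2) := by positivity
  calc (F.card : ℝ) = δ * 2 ^ (n.choose 2) := by rw [hδ]; field_simp
    _ ≤ _ := by gcongr

end Pool.Agent.Lib.MP_2d96d7_co
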